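import Mathlib
set_option autoImplicit false
namespace RR722.AN1n

set_option maxHeartbeats 1000000 in
theorem an1_t6 (a b : ℝ) (h2 : 2 ≤ a) (h4 : a ≤ 4) (hb : 0 < b) (hba : b ≤ a - 1)  :
   0 ≤ (a - b) * 36 + 6 * ((2 * a - b) * (a + b) ^ 2 - a * b - (7 + 1/12) * a - 2 * b)
      - 2 * a * (a + b) ^ 2 - a * b * (a + b) ^ 2 - 96 / 10 * a := by
  obtain ⟨s, rfl⟩ : ∃ s, a = s + 2 := ⟨a - 2, by ring⟩
  have hs : 0 ≤ s := by linarith
  have hs2 : s ≤ 2 := by linarith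
  have ht : 0 ≤ 1 + s - b := by linarith
  have h1 : 0 ≤ b * s := by positivity
  have h3 : 0 ≤ s * (2 - s) := mul_nonneg hs (by linarith)
  have h5 : 0 ≤ b * (1 + s - b) := mul_nonneg hb.le ht
  have h6 : 0 ≤ s * (1 + s - b) := mul_nonneg hs ht
  nlinarith [mul_nonneg h1 h5, mul_nonneg h5 h5, mul_nonneg h3 h5, mul_nonneg h3 h1, mul_nonneg h3 h6, mul_nonneg h5 hs, mul_nonneg h5 hb.le, mul_nonneg h5 h6, mul_nonneg h3 ht]

set_option maxHeartbeats 1000000 in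
theorem an1_t12 (a b : ℝ) (h2 : 2 ≤ a) (h4 : a ≤ 4) (hb : 0 < b) (h5 : 5 * b ≤ 4 * a)  :
   0 ≤ (a - b) * 144 + 12 * ((2 * a - b) * (a + b) ^ 2 - a * b - (7 + 1/12) * a - 2 * b)
      - 2 * a * (a + b) ^ 2 - a * b * (a + b) ^ 2 - 96 / 10 * a := by
  have ht : 0 ≤ 4 * a - 5 * b := by linarith
  have e : 92 / 10 * 2 ≤ 22 * a - 12 * b - a * b := by nlinarith
  have e1 : (a + b) ^ 2 * (92 / 10 * 2) ≤ (a + b) ^ 2 * (22 * a - 12 * b - a * b) :=
    mul_le_mul_of_nonneg_left e (sq_nonneg _)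
  have e2 : 0 ≤ (a + b) ^ 2 * (92 / 10 * 2) + (494/10) * a - 168 * b - 12 * a * b := by
    nlinarith [mul_nonneg hb.le ht, mul_nonneg (sub_nonneg.2 h2) ht, mul_nonneg (sub_nonneg.2 h4) ht, mul_nonneg (sub_nonneg.2 h4) (sub_nonneg.2 h2)]
  nlinarith

set_option maxHeartbeats 1000000 in
theorem an1_d4 (a M : ℝ) (ha1 : 1 < a) (ha2 : a ≤ 2) (hM : 6 ≤ M) (hM12 : M ≤ 12) :
   4 * a ≤ M * a - (M + a) * (M * (a - 1) / 12) := by
  nlinarith [mul_nonneg (sub_nonneg.2 ha1.le) (sub_nonneg.2 ha2), mul_nonneg (sub_nonneg.2 hM) (sub_nonneg.2 hM12), mul_nonneg (mul_nonneg (sub_nonneg.2 ha1.le) (sub_nonneg.2 ha2)) (sub_nonneg.2 hM), mul_nonneg (mul_nonneg (sub_nonneg.2 hM) (sub_nonneg.2 hM12)) (sub_nonneg.2 ha1.le), mul_nonneg (mul_nonneg (sub_nonneg.2 hM) (sub_nonneg.2 hM12)) (sub_nonneg.2 ha2), mul_nonneg (sub_nonneg.2 ha2) (sub_nonneg.2 hM)]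

set_option maxHeartbeats 1000000 in
theorem an1_t2b (a M : ℝ) (ha1 : 1 < a) (ha2 : a ≤ 2) (hM : 6 ≤ M) (hM12 : M ≤ 12) :
  0 ≤ a ^ 3 * (M + 2) + M * (M * a - (M + a) * (M * (a - 1) / 12)) - 7 * M * a
        - a * M ^ 2 / 12 - a * M / 12 + 16 / 3 * a := by
  obtain ⟨s, rfl⟩ : ∃ s, a = s + 1 := ⟨a - 1, by ring⟩
  obtain ⟨m, rfl⟩ : ∃ m, M = m + 6 := ⟨M - 6, by ring⟩
  have hs : 0 ≤ s := by linarith
  have hs2 : s ≤ 1 := by linarith
  have hm : 0 ≤ m := by linarith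
  have hm6 : m ≤ 6 := by linarith
  have h1 := mul_nonneg hs (sub_nonneg.2 hs2)
  have h2 := mul_nonneg hm (sub_nonneg.2 hm6)
  have h3 := mul_nonneg hs hm
  have h4 := mul_nonneg (sub_nonneg.2 hs2) hm
  nlinarith [mul_nonneg h1 h2, mul_nonneg h1 h3, mul_nonneg h2 h3, mul_nonneg h1 h4, mul_nonneg h2 h4, mul_nonneg h1 hs, mul_nonneg h2 hm, mul_nonneg h2 hs, mul_nonneg h1 hm]

set_option maxHeartbeats 1000000 in
theorem an1_t2c (a b : ℝ) (ha1 : 1 < a) (ha2 : a ≤ 2) (h4 : a ≤ 4 * b) (hc : 5 * b ≤ 4 * a) :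
  0 ≤ (a - 1) * a * (95 / 100 * (a + b) ^ 2 - b - (7 + 2 / 10 + 1 / 12)) +
          12 * b * (11 / 12 * a - b) := by
  have h1 := mul_nonneg (sub_nonneg.2 ha1.le) (sub_nonneg.2 ha2)
  have h2 := mul_nonneg (sub_nonneg.2 h4) (sub_nonneg.2 hc)
  have h3 := mul_nonneg (sub_nonneg.2 h4) (sub_nonneg.2 ha1.le)
  have h5 := mul_nonneg (sub_nonneg.2 hc) (sub_nonneg.2 ha1.le)
  nlinarith [mul_nonneg h1 h2, mul_nonneg h1 h3, mul_nonneg h1 h5, mul_nonneg h2 (sub_nonneg.2 ha1.le), mul_nonneg h2 (sub_nonneg.2 ha2), sq_nonneg (a - 3/2), sq_nonneg (b-1), sq_nonneg (a-b)]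

theorem an1_key (i M D b a R T : ℝ) (hi : 12 ≤ i) (hM : 6 ≤ M) (hD : 0 ≤ D)
    (hR : R = M / i) (hT : 4 * (M + 1) ≤ T * (M - 1 + D))
    (h : 0 ≤ (a + b) ^ 2 * (M + D - 2) + M * (D - 3 - R) - R - M * T) :
    (1 + 1 / i + 4 / (M - 1 + D)) * (M * (M + 1)) ≤ (M - 2 + D) * (M + (a + b) ^ 2) := by
  have hA : 0 < M - 1 + D := by linarith
  have h1 : 4 / (M - 1 + D) * (M + 1) ≤ T := by
    rw [div_mul_eq_mul_div, div_le_iff₀ hA]; exact hT
  have h2 : 1 / i * (M * (M + 1)) = R * (M + 1) := by rw [hR]; ring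
  have h3 : (1 + 1 / i + 4 / (M - 1 + D)) * (M * (M + 1)) =
      M * (M + 1) + 1 / i * (M * (M + 1)) + M * (4 / (M - 1 + D) * (M + 1)) := by ring
  rw [h3, h2]
  have h4 : M * (4 / (M - 1 + D) * (M + 1)) ≤ M * T := mul_le_mul_of_nonneg_left h1 (by linarith)
  nlinarith [h4]

/-- case 1 -/
theorem an1_c1 (M D b a R : ℝ) (hM : 6 ≤ M) (hD : 0 ≤ D) (hb : 0 < b) (hR0 : 0 < R)
    (hRM : 12 * R ≤ M) (ha : R * (a - 1) = b)
    (h2 : 861/10000 * R * (M - 1) ≤ b + D ∨ 307/1000 * M ≤ b + D) (hc : 4 * a ≤ 5 * b) :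
    0 ≤ (a + b) ^ 2 * (M + D - 2) + M * (D - 3 - R) - R - M * (4 + 8 / (M - 1)) := by
  have ha1 : 1 < a := by nlinarith
  -- (5R-4) b >= 4R
  have hb1 : 4 * R ≤ (5 * R - 4) * b := by nlinarith
  have hR1 : 4 / 5 < R := by
    by_contra h
    push Not at h
    nlinarith
  have hM1 : (48 : ℝ) / 5 < M := by linarith
  have e8 : M * (8 / (M - 1)) ≤ 9 := by
    rw [mul_div_assoc', div_le_iff₀ (by linarith)]; linarith
  have hVD : 0 ≤ (a + b) ^ 2 * D := by positivity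
  -- v
  obtain ⟨v, hv⟩ : ∃ v, v = a + b := ⟨_, rfl⟩
  rw [← hv] at hVD ⊢
  have hbv : b * (R + 1) = R * (v - 1) := by rw [hv]; nlinarith
  suffices hs : 0 ≤ v ^ 2 * (M - 2) + M * (D - 7 - R) - R - 9 by nlinarith
  rcases le_total R 3 with hR3 | hR3
  · -- 1b
    have hm : 10332/10000 * R ^ 2 - 861/10000 * R ≤ b + D := by
      rcases h2 with h2 | h2 <;> nlinarith
    have hv5 : 5 - R ≤ v := by
      -- a(5R-4) >= 5R ; v (5R-4) >= 9R
      have h9 : 9 * R ≤ (5 * R - 4) * v := by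
        rw [hv]; nlinarith
      have h10 : 0 < 5 * R - 4 := by linarith
      by_contra h
      push Not at h
      nlinarith [mul_lt_mul_of_pos_left h h10, sq_nonneg (R - 2)]
    have hbv' : b ≤ 3 / 4 * (v - 1) := by
      have : 0 ≤ (v - 1) * (3 - R) := mul_nonneg (by linarith) (by linarith)
      nlinarith
    have hq : 0 ≤ v ^ 2 * (R - 1 / 6) - 3 / 4 * (v - 1) * R + 10332/10000 * R ^ 3
        - 10861/10000 * R ^ 2 - (7 + 1 / 12) * R - 3 / 4 := by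
      have e1 : (5 - R) ^ 2 * (R - 1 / 6) - 3 / 4 * (4 - R) * R ≤
          v ^ 2 * (R - 1 / 6) - 3 / 4 * (v - 1) * R := by
        have : 0 ≤ (v - (5 - R)) * ((v + (5 - R)) * (R - 1 / 6) - 3 / 4 * R) := by
          apply mul_nonneg (by linarith)
          nlinarith
        nlinarith
      have e2 : 0 ≤ (5 - R) ^ 2 * (R - 1 / 6) - 3 / 4 * (4 - R) * R + 10332/10000 * R ^ 3
        - 10861/10000 * R ^ 2 - (7 + 1 / 12) * R - 3 / 4 := by
        nlinarith [mul_nonneg (sub_nonneg.2 hR1.le) (sq_nonneg (R - 2218/1000)), sq_nonneg (R - 2218/1000)]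
      linarith
    -- now scale
    have hDb : v ^ 2 * (M - 2) + M * (10332/10000 * R ^ 2 - 861/10000 * R - 3 / 4 * (v - 1) - 7 - R) - R - 9
        ≤ v ^ 2 * (M - 2) + M * (D - 7 - R) - R - 9 := by
      have : M * (10332/10000 * R ^ 2 - 861/10000 * R - 3 / 4 * (v - 1)) ≤ M * D :=
        mul_le_mul_of_nonneg_left (by linarith) (by linarith)
      nlinarith
    refine le_trans ?_ hDb
    have hq2 : 0 ≤ M * (v ^ 2 * (R - 1 / 6) - 3 / 4 * (v - 1) * R + 10332/10000 * R ^ 3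
        - 10861/10000 * R ^ 2 - (7 + 1 / 12) * R - 3 / 4) := mul_nonneg (by linarith) hq
    have hpos : 0 ≤ R * (v ^ 2 * (M - 2) + M * (10332/10000 * R ^ 2 - 861/10000 * R - 3 / 4 * (v - 1) - 7 - R) - R - 9) := by
      have e3 : 0 ≤ (v ^ 2) * (M - 12 * R) := mul_nonneg (sq_nonneg _) (by linarith)
      have e4 : 0 ≤ R * (M - 12 * R) := mul_nonneg hR0.le (by linarith)
      nlinarith
    exact nonneg_of_mul_nonneg_right hpos hR0
  · -- 1a
    have hv1 : (9 : ℝ) / 5 ≤ v := by rw [hv]; linarith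
    have hbv' : b ≤ v - 1 := by rw [hv]; linarith
    have hM36 : 36 ≤ M := by linarith
    have e1 : (226 : ℝ) / 100 * M ≤ v ^ 2 * (M - 2) - M * b := by
      have : 0 ≤ (v - 9 / 5) * ((v + 9 / 5) * (M - 2) - M) := by
        apply mul_nonneg (by linarith)
        nlinarith
      nlinarith
    have e2 : M * (7 + R + 1 / 12 + 1 / 4 - 226 / 100) ≤ M * (b + D) := by
      apply mul_le_mul_of_nonneg_left _ (by linarith)
      rcases h2 with h2 | h2
      · have : 0 ≤ R * (M - 36) := mul_nonneg (by linarith) (by linarith)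
        linarith
      · linarith
    have e3 : M * (7 + R + 1 / 12 + 1 / 4 - 226 / 100) =
        M * 7 + M * R + M / 3 - 226 / 100 * M := by ring
    have e4 : M * (b + D) = M * b + M * D := by ring
    have e5 : M * (D - 7 - R) = M * D - M * 7 - M * R := by ring
    rw [e5]
    linarith

/-- case 2a, M <= 12 -/
theorem an1_e6 (a b M : ℝ) (h2 : 2 ≤ a) (h4 : a ≤ 4) (hb : 0 < b) (hba : b ≤ a - 1) (h5 : 5 * b ≤ 4 * a)
    (hM : 6 ≤ M) :
    0 ≤ (a - b) * M ^ 2 + M * ((2 * a - b) * (a + b) ^ 2 - a * b - (7 + 1/12) * a - 2 * b)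
      - 2 * a * (a + b) ^ 2 - a * b * (a + b) ^ 2 - 96 / 10 * a := by
  have hco : 0 ≤ (2 * a - b) * (a + b) ^ 2 - a * b - (7 + 1/12) * a - 2 * b := by
    nlinarith [mul_pos hb hb, mul_nonneg hb.le (sub_nonneg.2 h2), mul_nonneg (sub_nonneg.2 h2) (sub_nonneg.2 h2),
      mul_nonneg (sub_nonneg.2 h5) hb.le, mul_nonneg (mul_nonneg (sub_nonneg.2 h2) (sub_nonneg.2 h2)) hb.le]
  have e1 : 6 * ((2 * a - b) * (a + b) ^ 2 - a * b - (7 + 1/12) * a - 2 * b) ≤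
    M * ((2 * a - b) * (a + b) ^ 2 - a * b - (7 + 1/12) * a - 2 * b) :=
    mul_le_mul_of_nonneg_right hM hco
  have e2 : (a - b) * 36 ≤ (a - b) * M ^ 2 := by
    apply mul_le_mul_of_nonneg_left _ (by linarith)
    nlinarith
  have e3 : 0 ≤ (a - b) * 36 + 6 * ((2 * a - b) * (a + b) ^ 2 - a * b - (7 + 1/12) * a - 2 * b)
      - 2 * a * (a + b) ^ 2 - a * b * (a + b) ^ 2 - 96 / 10 * a := by
    exact an1_t6 a b h2 h4 hb hba
  linarith

theorem an1_e12 (a b M : ℝ) (h2 : 2 ≤ a) (h4 : a ≤ 4) (hb : 0 < b) (h5 : 5 * b ≤ 4 * a)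
    (hM : 12 ≤ M) :
    0 ≤ (a - b) * M ^ 2 + M * ((2 * a - b) * (a + b) ^ 2 - a * b - (7 + 1/12) * a - 2 * b)
      - 2 * a * (a + b) ^ 2 - a * b * (a + b) ^ 2 - 96 / 10 * a := by
  have hco : 0 ≤ (2 * a - b) * (a + b) ^ 2 - a * b - (7 + 1/12) * a - 2 * b := by
    nlinarith [mul_pos hb hb, mul_nonneg hb.le (sub_nonneg.2 h2), mul_nonneg (sub_nonneg.2 h2) (sub_nonneg.2 h2),
      mul_nonneg (sub_nonneg.2 h5) hb.le, mul_nonneg (mul_nonneg (sub_nonneg.2 h2) (sub_nonneg.2 h2)) hb.le]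
  have e1 : 12 * ((2 * a - b) * (a + b) ^ 2 - a * b - (7 + 1/12) * a - 2 * b) ≤
    M * ((2 * a - b) * (a + b) ^ 2 - a * b - (7 + 1/12) * a - 2 * b) :=
    mul_le_mul_of_nonneg_right hM hco
  have e2 : (a - b) * 144 ≤ (a - b) * M ^ 2 := by
    apply mul_le_mul_of_nonneg_left _ (by linarith)
    nlinarith
  have e3 : 0 ≤ (a - b) * 144 + 12 * ((2 * a - b) * (a + b) ^ 2 - a * b - (7 + 1/12) * a - 2 * b)
      - 2 * a * (a + b) ^ 2 - a * b * (a + b) ^ 2 - 96 / 10 * a := by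
    exact an1_t12 a b h2 h4 hb h5
  linarith

theorem an1_c2a (M D b a R : ℝ) (hM : 6 ≤ M) (hD : 0 ≤ D) (hb : 0 < b) (hR0 : 0 < R)
    (hRM : 12 * R ≤ M) (ha : R * (a - 1) = b)
    (h1 : M * (a - b) ≤ (b + D) * a) (hc : 5 * b ≤ 4 * a) (ha2 : 2 ≤ a) :
    0 ≤ (a + b) ^ 2 * (M + D - 2) + M * (D - 3 - R) - R - M * (4 + 8 / (M - 1)) := by
  have e8 : M * (8 / (M - 1)) ≤ 96 / 10 := by
    rw [mul_div_assoc', div_le_iff₀ (by linarith)]; linarith
  suffices hs : 0 ≤ (a + b) ^ 2 * (M + D - 2) + M * (D - 7 - R) - M / 12 - 96 / 10 by nlinarith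
  rcases le_total 4 a with ha4 | ha4
  · have hb3 : 3 * R ≤ b := by nlinarith
    have hV : 16 + 24 * R ≤ (a + b) ^ 2 := by nlinarith
    have e1 : (16 + 24 * R) * (M + D - 2) ≤ (a + b) ^ 2 * (M + D - 2) :=
      mul_le_mul_of_nonneg_right hV (by linarith)
    have e2 : 0 ≤ R * D := by positivity
    have e3 : 0 ≤ M * D := by positivity
    have e4 : 0 ≤ R * (M - 6) := mul_nonneg hR0.le (by linarith)
    nlinarith
  · have hR2 : a * R ≤ 2 * b := by nlinarith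
    have key : 0 ≤ (a - b) * M ^ 2 + M * ((2 * a - b) * (a + b) ^ 2 - a * b - (7 + 1/12) * a - 2 * b)
      - 2 * a * (a + b) ^ 2 - a * b * (a + b) ^ 2 - 96 / 10 * a := by
      rcases le_total M 12 with h12 | h12
      · refine an1_e6 a b M ha2 ha4 hb ?_ hc hM
        nlinarith
      · exact an1_e12 a b M ha2 ha4 hb hc h12
    have hVM : 0 ≤ (a + b) ^ 2 + M := by positivity
    have e1 : (M * (a - b) - a * b) * ((a + b) ^ 2 + M) ≤ (D * a) * ((a + b) ^ 2 + M) :=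
      mul_le_mul_of_nonneg_right (by linarith) hVM
    have e2 : M * (a * R) ≤ M * (2 * b) := mul_le_mul_of_nonneg_left hR2 (by linarith)
    have hpos : 0 ≤ a * ((a + b) ^ 2 * (M + D - 2) + M * (D - 7 - R) - M / 12 - 96 / 10) := by
      nlinarith
    exact nonneg_of_mul_nonneg_right hpos (by linarith)

/-- case 2b, `M ≤ 12` -/
theorem an1_c2b (M D b a R : ℝ) (hM : 6 ≤ M) (hM12 : M ≤ 12) (hD : 0 ≤ D) (hb : 0 < b) (hR0 : 0 < R)
    (hRM : 12 * R ≤ M) (ha : R * (a - 1) = b)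
    (h1 : M * (a - b) ≤ (b + D) * a) (ha1 : 1 < a) (ha2 : a ≤ 2) :
    4 ≤ D ∧ 0 ≤ (a + b) ^ 2 * (M + D - 2) + M * (D - 3 - R) - R - M * (4 - 8 / (M + 3)) := by
  have hb12 : 12 * b ≤ M * (a - 1) := by nlinarith
  have hDa : M * a - (M + a) * (M * (a - 1) / 12) ≤ D * a := by nlinarith
  have hD4 : 4 ≤ D := by
    have : 4 * a ≤ M * a - (M + a) * (M * (a - 1) / 12) := by
      exact an1_d4 a M ha1 ha2 hM hM12
    by_contra h
    push Not at h
    nlinarith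
  refine ⟨hD4, ?_⟩
  have e8 : 16 / 3 ≤ M * (8 / (M + 3)) := by
    rw [mul_div_assoc', le_div_iff₀ (by linarith)]; linarith
  suffices hs : 0 ≤ a ^ 2 * (M + 2) + M * (D - 7) - M ^ 2 / 12 - M / 12 + 16 / 3 by
    have e1 : a ^ 2 * (M + 2) ≤ (a + b) ^ 2 * (M + D - 2) := by
      apply mul_le_mul _ (by linarith) (by linarith) (by positivity)
      nlinarith
    nlinarith
  have hpos : 0 ≤ a * (a ^ 2 * (M + 2) + M * (D - 7) - M ^ 2 / 12 - M / 12 + 16 / 3) := by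
    have e1 : M * (M * a - (M + a) * (M * (a - 1) / 12)) ≤ M * (D * a) :=
      mul_le_mul_of_nonneg_left hDa (by linarith)
    have e2 : 0 ≤ a ^ 3 * (M + 2) + M * (M * a - (M + a) * (M * (a - 1) / 12)) - 7 * M * a
        - a * M ^ 2 / 12 - a * M / 12 + 16 / 3 * a := by
      exact an1_t2b a M ha1 ha2 hM hM12
    nlinarith
  exact nonneg_of_mul_nonneg_right hpos (by linarith)

/-- case 2b, `M ≥ 12` -/
theorem an1_c2c (M D b a R : ℝ) (hM12 : 12 ≤ M) (hD : 0 ≤ D) (hb : 0 < b) (hR0 : 0 < R)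
    (hRM : 12 * R ≤ M) (ha : R * (a - 1) = b)
    (h1 : M * (a - b) ≤ (b + D) * a) (ha1 : 1 < a) (ha2 : a ≤ 2) (hc : 5 * b ≤ 4 * a) :
    7 / 60 * M ≤ D ∧ 0 ≤ (a + b) ^ 2 * (M + D - 2) + M * (D - 3 - R) - R - M * (42 / 10) := by
  have hb12 : 12 * b ≤ M * (a - 1) := by nlinarith
  have hbM : b ≤ M / 12 := by nlinarith
  have hD7 : 7 / 60 * M ≤ D := by
    by_contra h
    push Not at h
    have : D * a ≤ 7 / 60 * M * a := by nlinarith
    nlinarith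
  refine ⟨hD7, ?_⟩
  suffices hs : 0 ≤ 95 / 100 * (a + b) ^ 2 + D - (7 + 2 / 10 + 1 / 12) - M / 12 by
    have e1 : (a + b) ^ 2 * (95 / 100 * M) ≤ (a + b) ^ 2 * (M + D - 2) :=
      mul_le_mul_of_nonneg_left (by linarith) (sq_nonneg _)
    have e2 : 0 ≤ M * (95 / 100 * (a + b) ^ 2 + D - (7 + 2 / 10 + 1 / 12) - M / 12) :=
      mul_nonneg (by linarith) hs
    nlinarith
  have hpos : 0 ≤ a * (95 / 100 * (a + b) ^ 2 + D - (7 + 2 / 10 + 1 / 12) - M / 12) := by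
    have hDa : M * (a - b) - a * b ≤ D * a := by linarith
    suffices h : 0 ≤ a * (95 / 100 * (a + b) ^ 2 - b - (7 + 2 / 10 + 1 / 12)) + M * (11 / 12 * a - b) by
      nlinarith
    have hK : 0 < 11 / 12 * a - b := by linarith
    rcases le_total (4 * b) a with h4 | h4
    · have : 12 * (11 / 12 * a - b) ≤ M * (11 / 12 * a - b) := mul_le_mul_of_nonneg_right hM12 hK.le
      nlinarith [mul_pos hb hb, mul_pos (sub_pos.2 ha1) hb]
    · have h5 : 12 * b * (11 / 12 * a - b) ≤ (M * (a - 1)) * (11 / 12 * a - b) :=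
        mul_le_mul_of_nonneg_right hb12 hK.le
      have h6 : 0 ≤ (a - 1) * a * (95 / 100 * (a + b) ^ 2 - b - (7 + 2 / 10 + 1 / 12)) +
          12 * b * (11 / 12 * a - b) := by
        exact an1_t2c a b ha1 ha2 h4 hc
      have h7 : 0 ≤ (a - 1) * (a * (95 / 100 * (a + b) ^ 2 - b - (7 + 2 / 10 + 1 / 12)) + M * (11 / 12 * a - b)) := by
        nlinarith
      exact nonneg_of_mul_nonneg_right h7 (by linarith)
  exact nonneg_of_mul_nonneg_right hpos (by linarith)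

/-- Purely real: the final inequality for `i ≥ 12`, `M ≥ 6`, `A = M - 1 + D ≥ M - 1`. -/
theorem AN1 (i M D b a : ℝ) (hi : 12 ≤ i) (hM : 6 ≤ M) (hD : 0 ≤ D) (hb : 0 < b)
    (ha : a = 1 + b * i / M)
    (h1 : M * (a - b) ≤ (b + D) * a)
    (h2 : 861/10000 * M * (M - 1) ≤ i * (b + D) ∨ 307/1000 * M ≤ b + D) :
    (1 + 1 / i + 4 / (M - 1 + D)) * (M * (M + 1)) ≤ (M - 2 + D) * (M + (a + b) ^ 2) := by
  have hi0 : 0 < i := by linarith
  have hM0 : 0 < M := by linarith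
  obtain ⟨R, hR⟩ : ∃ R, R = M / i := ⟨_, rfl⟩
  have hR0 : 0 < R := by rw [hR]; positivity
  have hRi : R * i = M := by rw [hR]; field_simp
  have hRM : 12 * R ≤ M := by rw [← hRi]; nlinarith
  have haR : R * (a - 1) = b := by
    rw [ha, ← hRi]; field_simp; ring
  have ha1 : 1 < a := by nlinarith
  have h2' : 861/10000 * R * (M - 1) ≤ b + D ∨ 307/1000 * M ≤ b + D := by
    rcases h2 with h2 | h2
    · left
      have : i * (861/10000 * R * (M - 1)) ≤ i * (b + D) := by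
        rw [← hRi] at h2 ⊢
        nlinarith
      exact le_of_mul_le_mul_left this hi0
    · right; exact h2
  have hT1 : 4 * (M + 1) ≤ (4 + 8 / (M - 1)) * (M - 1 + D) := by
    have h3 : 0 < M - 1 := by linarith
    have h4 : 8 / (M - 1) * (M - 1) = 8 := by field_simp
    have h5 : 0 ≤ 8 / (M - 1) * D := by positivity
    nlinarith
  rcases le_total (4 * a) (5 * b) with hc | hc
  · exact an1_key i M D b a R _ hi hM hD hR hT1 (an1_c1 M D b a R hM hD hb hR0 hRM haR h2' hc)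
  · rcases le_total 2 a with ha2 | ha2
    · exact an1_key i M D b a R _ hi hM hD hR hT1 (an1_c2a M D b a R hM hD hb hR0 hRM haR h1 hc ha2)
    · rcases le_total M 12 with h12 | h12
      · obtain ⟨h3, h4⟩ := an1_c2b M D b a R hM h12 hD hb hR0 hRM haR h1 ha1 ha2
        refine an1_key i M D b a R _ hi hM hD hR ?_ h4
        have h5 : 8 / (M + 3) * (M + 3) = 8 := by
          have : M + 3 ≠ 0 := by linarith
          field_simp
        have h6 : 0 < 8 / (M + 3) := by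
          apply div_pos (by norm_num); linarith
        have h7 : 8 / (M + 3) ≤ 1 := by
          rw [div_le_one (by linarith)]; linarith
        nlinarith
      · obtain ⟨h3, h4⟩ := an1_c2c M D b a R h12 hD hb hR0 hRM haR h1 ha1 ha2 hc
        refine an1_key i M D b a R _ hi hM hD hR ?_ h4
        nlinarith

end RR722.AN1n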