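import Mathlib
set_option autoImplicit false
namespace RR722.AN2n

theorem AN2_ratio (A i δ : ℕ) :
    (A + δ + i).choose i * (A + 1).ascFactorial δ = (A + i).choose i * (A + i + 1).ascFactorial δ := by
  have h1 : A.factorial * (A + 1).ascFactorial δ = (A + δ).factorial := Nat.factorial_mul_ascFactorial A δ
  have h2 : (A + i).factorial * (A + i + 1).ascFactorial δ = (A + i + δ).factorial :=
    Nat.factorial_mul_ascFactorial (A + i) δ
  have h3 : (A + δ + i).choose i * i.factorial * (A + δ).factorial = (A + δ + i).factorial := by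
    have := Nat.choose_mul_factorial_mul_factorial (n := A + δ + i) (k := i) (by omega)
    rwa [Nat.add_sub_cancel] at this
  have h4 : (A + i).choose i * i.factorial * A.factorial = (A + i).factorial := by
    have := Nat.choose_mul_factorial_mul_factorial (n := A + i) (k := i) (by omega)
    rwa [Nat.add_sub_cancel] at this
  have hpos : 0 < i.factorial * A.factorial := by positivity
  apply Nat.eq_of_mul_eq_mul_left hpos
  have e : A + i + δ = A + δ + i := by ring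
  rw [e, ← h3, ← h4, ← h1] at h2
  linarith [h2]

theorem AN2_asc_mono (a b e : ℕ) (h : a ≤ b) : a.ascFactorial e ≤ b.ascFactorial e := by
  induction e with
  | zero => simp
  | succ e ih =>
    rw [Nat.ascFactorial_succ, Nat.ascFactorial_succ]
    exact Nat.mul_le_mul (by omega) ih

theorem AN2_big (m : ℕ) (hm : 45 ≤ m) : m * 100 ^ m ≤ 109 ^ m := by
  induction m, hm using Nat.le_induction with
  | base => norm_num
  | succ m hm ih =>
    rw [pow_succ, pow_succ]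
    have h1 : (m + 1) * 100 ≤ m * 109 := by omega
    calc (m + 1) * (100 ^ m * 100) = ((m + 1) * 100) * 100 ^ m := by ring
      _ ≤ (m * 109) * 100 ^ m := Nat.mul_le_mul_right _ h1
      _ = (m * 100 ^ m) * 109 := by ring
      _ ≤ 109 ^ m * 109 := Nat.mul_le_mul_right _ ih

theorem AN2_c0 : ∀ m < 45, 100 ^ m * (m * (m + 1)) ≤ 109 ^ m * 80 := by decide +kernel

def AN2_b1 (m i : ℕ) : Bool :=
  decide (i < 12) || decide (m < 5) ||
    decide (100 ^ m * (m * ((i + 1) * (m + 1))) ≤ 109 ^ m * ((m + i) * (m + 1 + i))) ||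
    (decide (7 ≤ m) && decide (m ≤ 18) && decide (i ≤ 28))

theorem AN2_c1 : ∀ m < 45, ∀ i < 81, AN2_b1 m i = true := by decide +kernel

def AN2_V (A i m : ℕ) : ℕ := i * (100 ^ m * (A + 1).ascFactorial (m - A)) +
  (109 ^ m * (A + i + 1).ascFactorial (m - A) - 100 ^ m * (A + 1).ascFactorial (m - A)) * (m + 1 + i)

def AN2_b2 (m i A : ℕ) : Bool :=
  decide (m < 7) || decide (i < 12) || decide (A < 1) ||
    decide (i * (100 ^ m * (A + 1).ascFactorial (m - A)) * (m + 1) ≤ AN2_V A i m) ||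
    decide ((i * A + A + 4 * i) * ((m + 1) * (m + 2)) * (i * (100 ^ m * (A + 1).ascFactorial (m - A))) ^ 2 ≤
      (A - 1) * (i * A) * ((m + 1) * (i * (100 ^ m * (A + 1).ascFactorial (m - A))) ^ 2 +
        (AN2_V A i m) ^ 2))

theorem AN2_c2 : ∀ m < 19, ∀ i < 29, ∀ A < m, AN2_b2 m i A = true := by decide +kernel

theorem AN2_real (i m A : ℕ) (w : ℝ) (hi : 12 ≤ i) (hm : 5 ≤ m) (hA : 1 ≤ A) (hAm : A < m)
    (hw : 0 < w) (hs : 1 + w * ((m : ℝ) + 1 + i) < (m : ℝ) + 1)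
    (hc : (109 : ℝ) ^ m * ((A + i + 1).ascFactorial (m - A) : ℝ) <
      (1 + i * w) * (100 ^ m * ((A + 1).ascFactorial (m - A) : ℝ))) :
    (i * A + A + 4 * i) * (((m : ℝ) + 1) * ((m : ℝ) + 2)) ≤
      (A - 1) * (i * A) * (((m : ℝ) + 1) + (1 + w * ((m : ℝ) + 1 + i)) ^ 2) := by
  obtain ⟨e, he⟩ : ∃ e, m - A = e + 1 := ⟨m - A - 1, by omega⟩
  have hme : A + 1 + e = m := by omega
  have hi0 : (0 : ℝ) < i := by exact_mod_cast (by omega : 0 < i)
  have hm0 : (0 : ℝ) < m := by exact_mod_cast (by omega : 0 < m)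
  -- the crude bound
  have hcrude : (109 : ℝ) ^ m * ((m : ℝ) + i) < (1 + i * w) * (100 ^ m * (m : ℝ)) := by
    have hX : ((A + 1).ascFactorial e : ℝ) ≤ ((A + i + 1).ascFactorial e : ℝ) := by
      exact_mod_cast AN2_asc_mono _ _ e (by omega)
    have hX0 : (0 : ℝ) < ((A + 1).ascFactorial e : ℝ) := by
      exact_mod_cast Nat.ascFactorial_pos A e
    rw [he, Nat.ascFactorial_succ, Nat.ascFactorial_succ, hme] at hc
    have e2 : A + i + 1 + e = m + i := by omega
    rw [e2] at hc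
    push_cast at hc
    by_contra hcon
    push Not at hcon
    have h1 : (1 + i * w) * (100 ^ m * ((m : ℝ) * ((A + 1).ascFactorial e : ℝ))) ≤
        (109 : ℝ) ^ m * (((m : ℝ) + i) * ((A + i + 1).ascFactorial e : ℝ)) := by
      calc (1 + i * w) * (100 ^ m * ((m : ℝ) * ((A + 1).ascFactorial e : ℝ)))
          = ((1 + i * w) * (100 ^ m * (m : ℝ))) * ((A + 1).ascFactorial e : ℝ) := by ring
        _ ≤ ((109 : ℝ) ^ m * ((m : ℝ) + i)) * ((A + i + 1).ascFactorial e : ℝ) := by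
            apply mul_le_mul hcon hX hX0.le (by positivity)
        _ = _ := by ring
    linarith
  have haM : (1 + i * w) * ((m : ℝ) + 1 + i) < (i + 1) * ((m : ℝ) + 1) := by
    have : i * (w * ((m : ℝ) + 1 + i)) < i * m := mul_lt_mul_of_pos_left (by linarith) hi0
    nlinarith
  have hfeas : (109 : ℝ) ^ m * (((m : ℝ) + i) * ((m : ℝ) + 1 + i)) <
      100 ^ m * ((m : ℝ) * ((i + 1) * ((m : ℝ) + 1))) := by
    calc (109 : ℝ) ^ m * (((m : ℝ) + i) * ((m : ℝ) + 1 + i))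
        = ((109 : ℝ) ^ m * ((m : ℝ) + i)) * ((m : ℝ) + 1 + i) := by ring
      _ < ((1 + i * w) * (100 ^ m * (m : ℝ))) * ((m : ℝ) + 1 + i) :=
          mul_lt_mul_of_pos_right hcrude (by positivity)
      _ = (100 ^ m * (m : ℝ)) * ((1 + i * w) * ((m : ℝ) + 1 + i)) := by ring
      _ < (100 ^ m * (m : ℝ)) * ((i + 1) * ((m : ℝ) + 1)) :=
          mul_lt_mul_of_pos_left haM (by positivity)
      _ = _ := by ring
  have hfeasN : 109 ^ m * ((m + i) * (m + 1 + i)) < 100 ^ m * (m * ((i + 1) * (m + 1))) := by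
    exact_mod_cast hfeas
  -- m < 45
  have hm45 : m < 45 := by
    by_contra hge
    have hb := AN2_big m (by omega)
    have h1 : (i + 1) * (m + 1) ≤ (m + i) * (m + 1 + i) := Nat.mul_le_mul (by omega) (by omega)
    have h2 : 100 ^ m * (m * ((i + 1) * (m + 1))) ≤ 109 ^ m * ((m + i) * (m + 1 + i)) := by
      calc 100 ^ m * (m * ((i + 1) * (m + 1))) = (m * 100 ^ m) * ((i + 1) * (m + 1)) := by ring
        _ ≤ 109 ^ m * ((m + i) * (m + 1 + i)) := Nat.mul_le_mul hb h1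
    omega
  have hi81 : i < 81 := by
    by_contra hge
    have hb := AN2_c0 m hm45
    have h1 : 80 * (i + 1) ≤ (m + i) * (m + 1 + i) := Nat.mul_le_mul (by omega) (by omega)
    have h2 : 100 ^ m * (m * ((i + 1) * (m + 1))) ≤ 109 ^ m * ((m + i) * (m + 1 + i)) := by
      calc 100 ^ m * (m * ((i + 1) * (m + 1))) = (100 ^ m * (m * (m + 1))) * (i + 1) := by ring
        _ ≤ (109 ^ m * 80) * (i + 1) := Nat.mul_le_mul_right _ hb
        _ = 109 ^ m * (80 * (i + 1)) := by ring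
        _ ≤ 109 ^ m * ((m + i) * (m + 1 + i)) := Nat.mul_le_mul_left _ h1
    omega
  have hc1 := AN2_c1 m hm45 i hi81
  unfold AN2_b1 at hc1
  simp only [Bool.or_eq_true, Bool.and_eq_true, decide_eq_true_eq] at hc1
  have hrange : 7 ≤ m ∧ m ≤ 18 ∧ i ≤ 28 := by
    rcases hc1 with ((h | h) | h) | h
    · omega
    · omega
    · omega
    · exact ⟨h.1.1, h.1.2, h.2⟩
  have hc2 := AN2_c2 m (by omega) i (by omega) A hAm
  unfold AN2_b2 at hc2
  simp only [Bool.or_eq_true, decide_eq_true_eq] at hc2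
  set Nd := (A + i + 1).ascFactorial (m - A) with hNd
  set Dd := (A + 1).ascFactorial (m - A) with hDd
  set v : ℝ := 1 + w * ((m : ℝ) + 1 + i) with hv
  have hDd0 : 0 < Dd := Nat.ascFactorial_pos A _
  have hW0 : (0 : ℝ) < ((i * (100 ^ m * Dd) : ℕ) : ℝ) := by
    have : 0 < i * (100 ^ m * Dd) := by positivity
    exact_mod_cast this
  -- V < W v
  have hVWv : ((AN2_V A i m : ℕ) : ℝ) < ((i * (100 ^ m * Dd) : ℕ) : ℝ) * v := by
    have hE : ((109 ^ m * Nd - 100 ^ m * Dd : ℕ) : ℝ) < i * w * ((100 ^ m * Dd : ℕ) : ℝ) := by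
      rcases le_total (100 ^ m * Dd) (109 ^ m * Nd) with h | h
      · rw [Nat.cast_sub h]
        push_cast
        linarith
      · rw [Nat.sub_eq_zero_of_le h]
        have : 0 < 100 ^ m * Dd := by positivity
        have : (0 : ℝ) < ((100 ^ m * Dd : ℕ) : ℝ) := by exact_mod_cast this
        simp only [Nat.cast_zero]
        positivity
    have e1 : ((AN2_V A i m : ℕ) : ℝ) = ((i * (100 ^ m * Dd) : ℕ) : ℝ) +
        ((109 ^ m * Nd - 100 ^ m * Dd : ℕ) : ℝ) * ((m : ℝ) + 1 + i) := by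
      unfold AN2_V
      rw [← hNd, ← hDd, Nat.cast_add, Nat.cast_mul (109 ^ m * Nd - 100 ^ m * Dd)]
      congr 2
      push_cast
      ring
    rw [e1]
    have h2 : ((109 ^ m * Nd - 100 ^ m * Dd : ℕ) : ℝ) * ((m : ℝ) + 1 + i) <
        (i * w * ((100 ^ m * Dd : ℕ) : ℝ)) * ((m : ℝ) + 1 + i) :=
      mul_lt_mul_of_pos_right hE (by positivity)
    have e2 : ((i * (100 ^ m * Dd) : ℕ) : ℝ) * v = ((i * (100 ^ m * Dd) : ℕ) : ℝ) +
        (i * w * ((100 ^ m * Dd : ℕ) : ℝ)) * ((m : ℝ) + 1 + i) := by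
      rw [hv]; push_cast; ring
    rw [e2]
    linarith
  have hlt : AN2_V A i m < i * (100 ^ m * Dd) * (m + 1) := by
    have : ((AN2_V A i m : ℕ) : ℝ) < ((i * (100 ^ m * Dd) * (m + 1) : ℕ) : ℝ) := by
      calc ((AN2_V A i m : ℕ) : ℝ) < ((i * (100 ^ m * Dd) : ℕ) : ℝ) * v := hVWv
        _ ≤ ((i * (100 ^ m * Dd) : ℕ) : ℝ) * ((m : ℝ) + 1) := mul_le_mul_of_nonneg_left hs.le hW0.le
        _ = _ := by push_cast; ring
    exact_mod_cast this
  have hgoalN : (i * A + A + 4 * i) * ((m + 1) * (m + 2)) * (i * (100 ^ m * Dd)) ^ 2 ≤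
      (A - 1) * (i * A) * ((m + 1) * (i * (100 ^ m * Dd)) ^ 2 + (AN2_V A i m) ^ 2) := by
    rcases hc2 with (((h | h) | h) | h) | h
    · omega
    · omega
    · omega
    · omega
    · exact h
  have hgoalR : ((i : ℝ) * A + A + 4 * i) * (((m : ℝ) + 1) * ((m : ℝ) + 2)) *
      (((i * (100 ^ m * Dd) : ℕ) : ℝ)) ^ 2 ≤
      ((A : ℝ) - 1) * (i * A) * (((m : ℝ) + 1) * (((i * (100 ^ m * Dd) : ℕ) : ℝ)) ^ 2 +
        (((AN2_V A i m : ℕ) : ℝ)) ^ 2) := by
    have hcast : (((A - 1 : ℕ)) : ℝ) = (A : ℝ) - 1 := by rw [Nat.cast_sub hA, Nat.cast_one]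
    rw [← hcast]
    exact_mod_cast hgoalN
  set W : ℝ := ((i * (100 ^ m * Dd) : ℕ) : ℝ) with hW
  have hV2 : (((AN2_V A i m : ℕ) : ℝ)) ^ 2 ≤ W ^ 2 * v ^ 2 := by
    rw [← mul_pow]
    exact pow_le_pow_left₀ (Nat.cast_nonneg _) hVWv.le 2
  have hA1 : (0 : ℝ) ≤ ((A : ℝ) - 1) * (i * A) := by
    have : (1 : ℝ) ≤ A := by exact_mod_cast hA
    have h2 : (0 : ℝ) ≤ (A : ℝ) - 1 := by linarith
    positivity
  have hfin : ((i : ℝ) * A + A + 4 * i) * (((m : ℝ) + 1) * ((m : ℝ) + 2)) * W ^ 2 ≤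
      (((A : ℝ) - 1) * (i * A) * (((m : ℝ) + 1) + v ^ 2)) * W ^ 2 := by
    calc _ ≤ _ := hgoalR
      _ ≤ ((A : ℝ) - 1) * (i * A) * (((m : ℝ) + 1) * W ^ 2 + W ^ 2 * v ^ 2) :=
          mul_le_mul_of_nonneg_left (by linarith) hA1
      _ = _ := by ring
  exact le_of_mul_le_mul_right hfin (by positivity)

theorem AN2_136 (i : ℕ) (hi : 12 ≤ i) : (i : ℝ) + 1 ≤ (34 / 25 : ℝ) ^ i := by
  induction i, hi using Nat.le_induction with
  | base => norm_num
  | succ i hi ih =>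
    rw [pow_succ]
    have hi' : (12 : ℝ) ≤ i := by exact_mod_cast hi
    push_cast
    nlinarith

/-- The final inequality for `i ≥ 12`, `M ≥ 6`, `A ≤ M - 2`. -/
theorem AN2 (i M A : ℕ) (w : ℝ) (hi : 12 ≤ i) (hM : 6 ≤ M) (hA : 1 ≤ A) (hAM : A + 2 ≤ M) (hw : 0 < w)
    (hs : (M : ℝ) + (1 + w * (M + i)) ^ 2 < M * (M + 1))
    (hc : min ((109/100 : ℝ) ^ (M - 1)) ((34/25 : ℝ) ^ i) * ((M + i - 1).choose i : ℝ) <
      (1 + i * w) * ((A + i).choose i : ℝ)) :
    (i * A + A + 4 * i) * ((M : ℝ) * (M + 1)) ≤ (A - 1) * (i * A) * (M + (1 + w * (M + i)) ^ 2) := by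
  obtain ⟨m, rfl⟩ : ∃ m, M = m + 1 := ⟨M - 1, by omega⟩
  have e1 : m + 1 + i - 1 = m + i := by omega
  rw [Nat.add_sub_cancel, e1] at hc
  have hi0 : (0 : ℝ) < i := by exact_mod_cast (by omega : 0 < i)
  have hm0 : (0 : ℝ) < m := by exact_mod_cast (by omega : 0 < m)
  push_cast at hs ⊢
  have hv : 1 + w * ((m : ℝ) + 1 + i) < (m : ℝ) + 1 := by
    have h1 : (1 + w * ((m : ℝ) + 1 + i)) ^ 2 < ((m : ℝ) + 1) ^ 2 := by nlinarith
    exact lt_of_pow_lt_pow_left₀ 2 (by positivity) h1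
  have hAm : A < m := by omega
  have hratio := AN2_ratio A i (m - A)
  rw [Nat.add_sub_cancel' hAm.le] at hratio
  have hratioR : ((m + i).choose i : ℝ) * ((A + 1).ascFactorial (m - A) : ℝ) =
      ((A + i).choose i : ℝ) * ((A + i + 1).ascFactorial (m - A) : ℝ) := by exact_mod_cast hratio
  have hCA : (0 : ℝ) < ((A + i).choose i : ℝ) := by
    exact_mod_cast Nat.choose_pos (by omega)
  have hDd0 : (0 : ℝ) < ((A + 1).ascFactorial (m - A) : ℝ) := by
    exact_mod_cast Nat.ascFactorial_pos A _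
  have hND : ((A + 1).ascFactorial (m - A) : ℝ) ≤ ((A + i + 1).ascFactorial (m - A) : ℝ) := by
    exact_mod_cast AN2_asc_mono _ _ _ (by omega)
  -- cancel the binomials
  have hc2 : min ((109/100 : ℝ) ^ m) ((34/25 : ℝ) ^ i) * ((A + i + 1).ascFactorial (m - A) : ℝ) <
      (1 + i * w) * ((A + 1).ascFactorial (m - A) : ℝ) := by
    have h1 := mul_lt_mul_of_pos_right hc hDd0
    rw [mul_assoc, hratioR] at h1
    have h2 : ((A + i).choose i : ℝ) * (min ((109/100 : ℝ) ^ m) ((34/25 : ℝ) ^ i) *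
        ((A + i + 1).ascFactorial (m - A) : ℝ)) < ((A + i).choose i : ℝ) *
        ((1 + i * w) * ((A + 1).ascFactorial (m - A) : ℝ)) := by linarith
    exact lt_of_mul_lt_mul_left h2 hCA.le
  rcases le_total ((34/25 : ℝ) ^ i) ((109/100 : ℝ) ^ m) with h | h
  · exfalso
    rw [min_eq_right h] at hc2
    have h1 : (34/25 : ℝ) ^ i * ((A + 1).ascFactorial (m - A) : ℝ) <
        (1 + i * w) * ((A + 1).ascFactorial (m - A) : ℝ) :=
      lt_of_le_of_lt (mul_le_mul_of_nonneg_left hND (by positivity)) hc2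
    have h2 := lt_of_mul_lt_mul_right h1 hDd0.le
    have h3 := AN2_136 i hi
    have h4 : (i : ℝ) < i * w := by linarith
    have h5 : 1 < w := by
      by_contra hcon
      push Not at hcon
      nlinarith
    nlinarith
  · rw [min_eq_left h] at hc2
    have hc3 : (109 : ℝ) ^ m * ((A + i + 1).ascFactorial (m - A) : ℝ) <
        (1 + i * w) * (100 ^ m * ((A + 1).ascFactorial (m - A) : ℝ)) := by
      have h100 : (0 : ℝ) < 100 ^ m := by positivity
      have h1 := mul_lt_mul_of_pos_left hc2 h100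
      rw [div_pow] at h1
      have e2 : (100 : ℝ) ^ m * (109 ^ m / 100 ^ m * ((A + i + 1).ascFactorial (m - A) : ℝ)) =
          109 ^ m * ((A + i + 1).ascFactorial (m - A) : ℝ) := by
        field_simp
      rw [e2] at h1
      linarith
    have := AN2_real i m A w hi (by omega) hA hAm hw hv hc3
    have e3 : (m : ℝ) + 1 + 1 = m + 2 := by ring
    rw [e3]
    exact this

end RR722.AN2n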