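import Mathlib
set_option autoImplicit false
namespace RR722.AN3n

namespace AN3aux

theorem pow_bound (i : ℕ) (hi : 12 ≤ i) : 4 ^ i * (9 + i).choose 9 ≤ (i + 1) ^ i := by
  induction i, hi using Nat.le_induction with
  | base => decide +kernel
  | succ i hi ih =>
    have h1 := Nat.choose_mul_succ_eq (9 + i) 9
    have e1 : 9 + i + 1 - 9 = i + 1 := by omega
    rw [e1] at h1
    have e2 : 9 + (i + 1) = 9 + i + 1 := by ring
    rw [e2]
    -- multiply by `i+1`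
    have h2 : (i + 1) * (4 ^ (i + 1) * (9 + i + 1).choose 9) =
        4 * (i + 10) * (4 ^ i * (9 + i).choose 9) := by
      calc (i + 1) * (4 ^ (i + 1) * (9 + i + 1).choose 9)
          = 4 ^ (i + 1) * ((9 + i + 1).choose 9 * (i + 1)) := by ring
        _ = 4 ^ (i + 1) * ((9 + i).choose 9 * (9 + i + 1)) := by rw [h1]
        _ = _ := by ring
    have h3 : 4 * (i + 10) ≤ (i + 1) * (i + 2) := by nlinarith
    have h4 : (i + 1) ^ i ≤ (i + 1 + 1) ^ i := Nat.pow_le_pow_left (by omega) i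
    have h5 : (i + 1) * (4 ^ (i + 1) * (9 + i + 1).choose 9) ≤
        (i + 1) * (i + 1 + 1) ^ (i + 1) := by
      rw [h2]
      calc 4 * (i + 10) * (4 ^ i * (9 + i).choose 9)
          ≤ ((i + 1) * (i + 2)) * (i + 1 + 1) ^ i :=
            Nat.mul_le_mul h3 (ih.trans h4)
        _ = (i + 1) * (i + 1 + 1) ^ (i + 1) := by ring
    exact Nat.le_of_mul_le_mul_left h5 (by omega)

end AN3aux

/-- The final inequality for `i ≥ 12`, `M ≤ 5`. -/
theorem AN3 (i M A : ℕ) (w : ℝ) (hi : 12 ≤ i) (hM : 2 ≤ M) (hM5 : M ≤ 5) (hA : 1 ≤ A) (hw : 0 < w)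
    (hs : (M : ℝ) + (1 + w * (M + i)) ^ 2 < M * (M + 1))
    (heta : ((M + i - 1).choose i : ℝ) * (1 + i * w) ^ (i - 1) < (M * w) ^ i * ((A + i).choose i : ℝ)) :
    (i * A + A + 4 * i) * ((M : ℝ) * (M + 1)) ≤ (A - 1) * (i * A) * (M + (1 + w * (M + i)) ^ 2) := by
  have hMr : (2 : ℝ) ≤ M := by exact_mod_cast hM
  have hM5r : (M : ℝ) ≤ 5 := by exact_mod_cast hM5
  have hir : (12 : ℝ) ≤ i := by exact_mod_cast hi
  have hMi : (0 : ℝ) < (M : ℝ) + i := by linarith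
  have hv : 1 + w * ((M : ℝ) + i) < M := by
    have h1 : (1 + w * ((M : ℝ) + i)) ^ 2 < (M : ℝ) ^ 2 := by nlinarith
    exact lt_of_pow_lt_pow_left₀ 2 (by linarith) h1
  have hv1 : 1 < 1 + w * ((M : ℝ) + i) := by
    have : 0 < w * ((M : ℝ) + i) := mul_pos hw hMi
    linarith
  -- w0
  obtain ⟨w0, hw0⟩ : ∃ w0 : ℝ, w0 = ((M : ℝ) - 1) / (M + i) := ⟨_, rfl⟩
  have hw0' : w0 * ((M : ℝ) + i) = M - 1 := by
    rw [hw0]; field_simp
  have hww0 : w < w0 := by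
    rw [hw0, lt_div_iff₀ hMi]
    linarith
  have hw0pos : 0 < w0 := hw.trans hww0
  obtain ⟨k, rfl⟩ : ∃ k, i = k + 1 := ⟨i - 1, by omega⟩
  have ek : k + 1 - 1 = k := by omega
  rw [ek] at heta
  have eM : M + (k + 1) - 1 = M + k := by omega
  rw [eM] at heta
  -- A ≥ 10
  have hA10 : 10 ≤ A := by
    by_contra hcon
    have hA9 : A ≤ 9 := by omega
    have h1w : (0 : ℝ) < 1 + ((k + 1 : ℕ) : ℝ) * w := by positivity
    have h1w0 : (0 : ℝ) < 1 + ((k + 1 : ℕ) : ℝ) * w0 := by positivity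
    have hmono : w ^ (k + 1) * (1 + ((k + 1 : ℕ) : ℝ) * w0) ^ k ≤
        w0 ^ (k + 1) * (1 + ((k + 1 : ℕ) : ℝ) * w) ^ k := by
      have a1 : w * (1 + ((k + 1 : ℕ) : ℝ) * w0) ≤ w0 * (1 + ((k + 1 : ℕ) : ℝ) * w) := by
        nlinarith
      have a2 : (w * (1 + ((k + 1 : ℕ) : ℝ) * w0)) ^ k ≤
          (w0 * (1 + ((k + 1 : ℕ) : ℝ) * w)) ^ k :=
        pow_le_pow_left₀ (by positivity) a1 k
      calc w ^ (k + 1) * (1 + ((k + 1 : ℕ) : ℝ) * w0) ^ k
          = w * (w * (1 + ((k + 1 : ℕ) : ℝ) * w0)) ^ k := by rw [mul_pow]; ring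
        _ ≤ w0 * (w0 * (1 + ((k + 1 : ℕ) : ℝ) * w)) ^ k :=
            mul_le_mul hww0.le a2 (by positivity) (by positivity)
        _ = _ := by rw [mul_pow]; ring
    have hC : (0 : ℝ) < ((A + (k + 1)).choose (k + 1) : ℝ) := by
      exact_mod_cast Nat.choose_pos (by omega)
    have b1 : ((M + k).choose (k + 1) : ℝ) * (1 + ((k + 1 : ℕ) : ℝ) * w0) ^ k <
        ((M : ℝ) * w0) ^ (k + 1) * ((A + (k + 1)).choose (k + 1) : ℝ) := by
      have c1 : (((M + k).choose (k + 1) : ℝ) * (1 + ((k + 1 : ℕ) : ℝ) * w) ^ k) *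
          (1 + ((k + 1 : ℕ) : ℝ) * w0) ^ k <
          (((M : ℝ) * w) ^ (k + 1) * ((A + (k + 1)).choose (k + 1) : ℝ)) *
          (1 + ((k + 1 : ℕ) : ℝ) * w0) ^ k :=
        mul_lt_mul_of_pos_right heta (by positivity)
      have c2 : (((M : ℝ) * w) ^ (k + 1) * ((A + (k + 1)).choose (k + 1) : ℝ)) *
          (1 + ((k + 1 : ℕ) : ℝ) * w0) ^ k ≤
          ((M : ℝ) ^ (k + 1) * ((A + (k + 1)).choose (k + 1) : ℝ)) *
            (w0 ^ (k + 1) * (1 + ((k + 1 : ℕ) : ℝ) * w) ^ k) := by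
        calc (((M : ℝ) * w) ^ (k + 1) * ((A + (k + 1)).choose (k + 1) : ℝ)) *
            (1 + ((k + 1 : ℕ) : ℝ) * w0) ^ k
            = ((M : ℝ) ^ (k + 1) * ((A + (k + 1)).choose (k + 1) : ℝ)) *
              (w ^ (k + 1) * (1 + ((k + 1 : ℕ) : ℝ) * w0) ^ k) := by rw [mul_pow]; ring
          _ ≤ _ := mul_le_mul_of_nonneg_left hmono (by positivity)
      have c3 := c1.trans_le c2
      have c4 : (((M + k).choose (k + 1) : ℝ) * (1 + ((k + 1 : ℕ) : ℝ) * w0) ^ k) *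
          (1 + ((k + 1 : ℕ) : ℝ) * w) ^ k <
          (((M : ℝ) * w0) ^ (k + 1) * ((A + (k + 1)).choose (k + 1) : ℝ)) *
          (1 + ((k + 1 : ℕ) : ℝ) * w) ^ k := by
        calc _ = (((M + k).choose (k + 1) : ℝ) * (1 + ((k + 1 : ℕ) : ℝ) * w) ^ k) *
          (1 + ((k + 1 : ℕ) : ℝ) * w0) ^ k := by ring
          _ < _ := c3
          _ = _ := by rw [mul_pow]; ring
      exact lt_of_mul_lt_mul_right c4 (by positivity)
    -- multiply by `(M + i)^i`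
    have d1 : (((M + k).choose (k + 1) : ℝ) * (1 + ((k + 1 : ℕ) : ℝ) * w0) ^ k) *
        ((M : ℝ) + (k + 1 : ℕ)) ^ (k + 1) <
        (((M : ℝ) * w0) ^ (k + 1) * ((A + (k + 1)).choose (k + 1) : ℝ)) *
        ((M : ℝ) + (k + 1 : ℕ)) ^ (k + 1) :=
      mul_lt_mul_of_pos_right b1 (by positivity)
    have e3 : (1 + ((k + 1 : ℕ) : ℝ) * w0) * ((M : ℝ) + (k + 1 : ℕ)) =
        M * (((k + 1 : ℕ) : ℝ) + 1) := by
      have : (1 + ((k + 1 : ℕ) : ℝ) * w0) * ((M : ℝ) + (k + 1 : ℕ)) =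
        (M : ℝ) + (k + 1 : ℕ) + ((k + 1 : ℕ) : ℝ) * (w0 * ((M : ℝ) + (k + 1 : ℕ))) := by ring
      rw [this, hw0']; ring
    have e4 : ((M : ℝ) * w0) * ((M : ℝ) + (k + 1 : ℕ)) = M * (M - 1) := by
      rw [mul_assoc, hw0']
    have d2 : (((M + k).choose (k + 1) : ℝ) * (1 + ((k + 1 : ℕ) : ℝ) * w0) ^ k) *
        ((M : ℝ) + (k + 1 : ℕ)) ^ (k + 1) =
        (M : ℝ) ^ k * (((M + k).choose (k + 1) : ℝ) * (((k + 1 : ℕ) : ℝ) + 1) ^ k *
          ((M : ℝ) + (k + 1 : ℕ))) := by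
      calc _ = ((M + k).choose (k + 1) : ℝ) *
            ((1 + ((k + 1 : ℕ) : ℝ) * w0) * ((M : ℝ) + (k + 1 : ℕ))) ^ k *
            ((M : ℝ) + (k + 1 : ℕ)) := by rw [mul_pow]; ring
        _ = _ := by rw [e3, mul_pow]; ring
    have d3 : (((M : ℝ) * w0) ^ (k + 1) * ((A + (k + 1)).choose (k + 1) : ℝ)) *
        ((M : ℝ) + (k + 1 : ℕ)) ^ (k + 1) =
        (M : ℝ) ^ k * (M * ((M : ℝ) - 1) ^ (k + 1) * ((A + (k + 1)).choose (k + 1) : ℝ)) := by
      calc _ = (((M : ℝ) * w0) * ((M : ℝ) + (k + 1 : ℕ))) ^ (k + 1) *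
            ((A + (k + 1)).choose (k + 1) : ℝ) := by rw [mul_pow (↑M * w0)]; ring
        _ = _ := by rw [e4, mul_pow]; ring
    rw [d2, d3] at d1
    have d4 := lt_of_mul_lt_mul_left d1 (by positivity)
    -- bounds
    have f1 : (k + 2 : ℕ) ≤ (M + k).choose (k + 1) := by
      have g1 : (2 + k).choose (k + 1) ≤ (M + k).choose (k + 1) :=
        Nat.choose_le_choose _ (by omega)
      have g2 : (2 + k).choose (k + 1) = k + 2 := by
        have : 2 + k = (k + 1) + 1 := by ring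
        rw [this, Nat.choose_succ_self_right]
      omega
    have f1r : ((k + 2 : ℕ) : ℝ) ≤ ((M + k).choose (k + 1) : ℝ) := by exact_mod_cast f1
    have f2 : (A + (k + 1)).choose (k + 1) ≤ (9 + (k + 1)).choose 9 := by
      have g1 : (A + (k + 1)).choose (k + 1) ≤ (9 + (k + 1)).choose (k + 1) :=
        Nat.choose_le_choose _ (by omega)
      have g2 : (9 + (k + 1)).choose (k + 1) = (9 + (k + 1)).choose 9 :=
        (Nat.choose_symm_add).symm
      omega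
    have f3 := AN3aux.pow_bound (k + 1) hi
    have f3r : (4 : ℝ) ^ (k + 1) * ((9 + (k + 1)).choose 9 : ℝ) ≤
        (((k + 1 : ℕ) : ℝ) + 1) ^ (k + 1) := by exact_mod_cast f3
    have f2r : ((A + (k + 1)).choose (k + 1) : ℝ) ≤ ((9 + (k + 1)).choose 9 : ℝ) := by
      exact_mod_cast f2
    have g1 : (M : ℝ) * ((M : ℝ) - 1) ^ (k + 1) * ((A + (k + 1)).choose (k + 1) : ℝ) ≤
        M * (4 ^ (k + 1) * ((9 + (k + 1)).choose 9 : ℝ)) := by
      rw [mul_assoc]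
      apply mul_le_mul_of_nonneg_left _ (by positivity)
      apply mul_le_mul _ f2r (by positivity) (by positivity)
      exact pow_le_pow_left₀ (by linarith) (by linarith) _
    have g2 : (M : ℝ) * (((k + 1 : ℕ) : ℝ) + 1) ^ (k + 1) ≤
        ((M + k).choose (k + 1) : ℝ) * (((k + 1 : ℕ) : ℝ) + 1) ^ k *
          ((M : ℝ) + (k + 1 : ℕ)) := by
      have h1 : (((k + 1 : ℕ) : ℝ) + 1) * (((k + 1 : ℕ) : ℝ) + 1) ^ k ≤
          ((M + k).choose (k + 1) : ℝ) * (((k + 1 : ℕ) : ℝ) + 1) ^ k := by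
        apply mul_le_mul_of_nonneg_right _ (by positivity)
        push_cast at f1r ⊢
        linarith
      have h2 : (M : ℝ) ≤ (M : ℝ) + (k + 1 : ℕ) := by
        have : (0 : ℝ) ≤ ((k + 1 : ℕ) : ℝ) := by positivity
        linarith
      calc (M : ℝ) * (((k + 1 : ℕ) : ℝ) + 1) ^ (k + 1)
          = ((((k + 1 : ℕ) : ℝ) + 1) * (((k + 1 : ℕ) : ℝ) + 1) ^ k) * M := by ring
        _ ≤ _ := mul_le_mul h1 h2 (by positivity) (by positivity)
    have g3 : (M : ℝ) * (4 ^ (k + 1) * ((9 + (k + 1)).choose 9 : ℝ)) ≤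
        (M : ℝ) * (((k + 1 : ℕ) : ℝ) + 1) ^ (k + 1) :=
      mul_le_mul_of_nonneg_left f3r (by positivity)
    linarith
  have hAr : (10 : ℝ) ≤ A := by exact_mod_cast hA10
  have hv2 : (M : ℝ) + 1 ≤ M + (1 + w * ((M : ℝ) + (k + 1 : ℕ))) ^ 2 := by nlinarith
  generalize (1 + w * ((M : ℝ) + (k + 1 : ℕ))) ^ 2 = V at hv2
  generalize ((k + 1 : ℕ) : ℝ) = I at *
  generalize (A : ℝ) = a at *
  generalize (M : ℝ) = m at *
  have key : (I * a + a + 4 * I) * m ≤ (a - 1) * (I * a) := by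
    have h0 : (I * a + a + 4 * I) * m ≤ (I * a + a + 4 * I) * 5 :=
      mul_le_mul_of_nonneg_left hM5r (by positivity)
    have h1 : 0 ≤ I * a := by positivity
    have h2 : 0 ≤ (I - 12) * a := mul_nonneg (by linarith) (by linarith)
    have h3 : 0 ≤ I * (a - 10) := mul_nonneg (by linarith) (by linarith)
    have h4 : 0 ≤ (I * a) * (a - 10) := mul_nonneg h1 (by linarith)
    nlinarith
  calc (I * a + a + 4 * I) * (m * (m + 1)) = ((I * a + a + 4 * I) * m) * (m + 1) := by ring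
    _ ≤ ((a - 1) * (I * a)) * (m + 1) := mul_le_mul_of_nonneg_right key (by linarith)
    _ ≤ (a - 1) * (I * a) * (m + V) := by
        apply mul_le_mul_of_nonneg_left hv2
        apply mul_nonneg (by linarith) (by positivity)

end RR722.AN3n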