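import Mathlib
set_option autoImplicit false
namespace RR722.A88

theorem amgm88 (u v w s : ℝ) (hu : 0 ≤ u) (hv : 0 ≤ v) (hw : 0 ≤ w) (hs : 0 < s)
    (h : 65 * u + 14 * v + 9 * w = 88 * s) : u^65 * v^14 * w^9 ≤ s^88 := by
  have key : ∀ x : ℝ, 0 ≤ x → ∀ n : ℕ, (x / s)^n ≤ Real.exp (n * (x / s - 1)) := by
    intro x hx n
    have h1 : x / s ≤ Real.exp (x / s - 1) := by
      have := Real.add_one_le_exp (x / s - 1)
      linarith
    calc (x / s)^n ≤ (Real.exp (x / s - 1))^n := pow_le_pow_left₀ (div_nonneg hx hs.le) h1 n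
      _ = Real.exp (n * (x / s - 1)) := by rw [← Real.exp_nat_mul]
  have h1 := key u hu 65
  have h2 := key v hv 14
  have h3 := key w hw 9
  have h4 : (u / s)^65 * (v / s)^14 * (w / s)^9 ≤ 1 := by
    calc (u / s)^65 * (v / s)^14 * (w / s)^9
        ≤ Real.exp ((65 : ℕ) * (u / s - 1)) * Real.exp ((14 : ℕ) * (v / s - 1)) *
          Real.exp ((9 : ℕ) * (w / s - 1)) := by gcongr
      _ = Real.exp (((65 : ℕ) * (u / s - 1)) + ((14 : ℕ) * (v / s - 1)) +
          ((9 : ℕ) * (w / s - 1))) := by rw [Real.exp_add, Real.exp_add]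
      _ = Real.exp 0 := by
        congr 1
        push_cast
        field_simp
        linarith
      _ = 1 := Real.exp_zero
  have h5 : (u / s)^65 * (v / s)^14 * (w / s)^9 = (u^65 * v^14 * w^9) / s^88 := by
    rw [div_pow, div_pow, div_pow]
    field_simp
  rw [h5, div_le_one (by positivity)] at h4
  exact h4

theorem aux88 (a : ℝ) (ha : 0 ≤ a) :
    (67/50 : ℝ)^88 * a^14 * |a - 1|^9 ≤ (1 + a/4)^88 := by
  rcases le_total 1 a with h | h
  · rw [abs_of_nonneg (by linarith)]
    have h1 := amgm88 (20/13) (5/7 * a) (4/3 * (a - 1)) (1 + a/4) (by norm_num) (by positivity)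
      (by linarith) (by positivity) (by ring)
    refine le_trans ?_ h1
    have h2 : (20/13 : ℝ)^65 * (5/7 * a)^14 * (4/3 * (a - 1))^9
        = ((20/13 : ℝ)^65 * (5/7)^14 * (4/3)^9) * (a^14 * (a - 1)^9) := by ring
    rw [h2, mul_assoc]
    refine mul_le_mul_of_nonneg_right (by norm_num) ?_
    have : 0 ≤ a - 1 := by linarith
    positivity
  · rw [abs_of_nonpos (by linarith), neg_sub]
    have h1 := amgm88 (11/10) (11/4 * a) (11/6 * (1 - a)) (1 + a/4) (by norm_num) (by positivity)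
      (by linarith) (by positivity) (by ring)
    refine le_trans ?_ h1
    have h2 : (11/10 : ℝ)^65 * (11/4 * a)^14 * (11/6 * (1 - a))^9
        = ((11/10 : ℝ)^65 * (11/4)^14 * (11/6)^9) * (a^14 * (1 - a)^9) := by ring
    rw [h2, mul_assoc]
    refine mul_le_mul_of_nonneg_right (by norm_num) ?_
    have : 0 ≤ 1 - a := by linarith
    positivity

end RR722.A88
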