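import Mathlib
set_option autoImplicit false
open Polynomial
namespace RR722.DV

theorem splits_derivative {f : ℝ[X]} (hf : f.Splits) : f.derivative.Splits := by
  rcases Nat.eq_zero_or_pos f.natDegree with h0 | h0
  · rw [derivative_of_natDegree_zero h0]
    exact Splits.zero
  · rw [splits_iff_card_roots] at hf ⊢
    have h1 := card_roots_le_derivative f
    have h2 := card_roots' f.derivative
    have h3 := natDegree_derivative_lt h0.ne'
    omega

theorem newton0_aux (s : Multiset ℝ) :
    2 * ((s.map (fun r => X - C r)).prod.coeff 0 * (s.map (fun r => X - C r)).prod.coeff 2) ≤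
      (s.map (fun r => X - C r)).prod.coeff 1 ^ 2 := by
  induction s using Multiset.induction_on with
  | empty => simp [coeff_one]
  | cons a s ih =>
    rw [Multiset.map_cons, Multiset.prod_cons]
    set Q := (s.map (fun r => X - C r)).prod
    have e0 : ((X - C a) * Q).coeff 0 = - a * Q.coeff 0 := by
      rw [sub_mul, coeff_sub, coeff_X_mul_zero, coeff_C_mul]; ring
    have e1 : ((X - C a) * Q).coeff 1 = Q.coeff 0 - a * Q.coeff 1 := by
      rw [sub_mul, coeff_sub, coeff_X_mul, coeff_C_mul]
    have e2 : ((X - C a) * Q).coeff 2 = Q.coeff 1 - a * Q.coeff 2 := by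
      rw [sub_mul, coeff_sub, coeff_X_mul, coeff_C_mul]
    rw [e0, e1, e2]
    nlinarith [mul_nonneg (sq_nonneg a) (sub_nonneg.2 ih), sq_nonneg (Q.coeff 0)]

theorem newton0 {f : ℝ[X]} (hf : f.Splits) :
    2 * (f.coeff 0 * f.coeff 2) ≤ f.coeff 1 ^ 2 := by
  rw [hf.eq_prod_roots]
  simp only [coeff_C_mul]
  have h := newton0_aux f.roots
  have h2 := mul_le_mul_of_nonneg_left h (sq_nonneg f.leadingCoeff)
  nlinarith

theorem splits_iterate {f : ℝ[X]} (hf : f.Splits) (k : ℕ) : (derivative^[k] f).Splits := by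
  induction k with
  | zero => exact hf
  | succ k ih =>
    rw [Function.iterate_succ_apply']
    exact splits_derivative ih

theorem newton {f : ℝ[X]} (hf : f.Splits) (k : ℕ) :
    ((k : ℝ) + 2) * (f.coeff (k + 2) * f.coeff k) ≤ ((k : ℝ) + 1) * f.coeff (k + 1) ^ 2 := by
  have h := newton0 (splits_iterate hf k)
  rw [coeff_iterate_derivative, coeff_iterate_derivative, coeff_iterate_derivative] at h
  have e0 : (0 + k).descFactorial k = k.factorial := by
    rw [Nat.zero_add, Nat.descFactorial_self]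
  have e1 : (1 + k).descFactorial k = (k + 1).factorial := by
    have := Nat.factorial_mul_descFactorial (show k ≤ 1 + k by omega)
    rw [show 1 + k - k = 1 by omega] at this
    rw [show k + 1 = 1 + k by ring, ← this]
    simp
  have e2 : 2 * (2 + k).descFactorial k = (k + 2).factorial := by
    have := Nat.factorial_mul_descFactorial (show k ≤ 2 + k by omega)
    rw [show 2 + k - k = 2 by omega] at this
    rw [show k + 2 = 2 + k by ring, ← this]
    simp [Nat.factorial]
  rw [e0, e1] at h
  simp only [nsmul_eq_mul] at h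
  have e2' : 2 * ((2 + k).descFactorial k : ℝ) = ((k + 2).factorial : ℝ) := by exact_mod_cast e2
  have f1 : ((k + 1).factorial : ℝ) = ((k : ℝ) + 1) * (k.factorial : ℝ) := by
    rw [Nat.factorial_succ]; push_cast; ring
  have f2 : ((k + 2).factorial : ℝ) = ((k : ℝ) + 2) * ((k : ℝ) + 1) * (k.factorial : ℝ) := by
    rw [show k + 2 = (k + 1) + 1 by ring, Nat.factorial_succ, Nat.factorial_succ]; push_cast; ring
  rw [Nat.zero_add, show 1 + k = k + 1 by ring, show 2 + k = k + 2 by ring] at h
  rw [show 2 + k = k + 2 by ring] at e2'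
  have hk : (0 : ℝ) < (k.factorial : ℝ) := by exact_mod_cast Nat.factorial_pos k
  have h3 : (k.factorial : ℝ) * (k.factorial : ℝ) * ((k : ℝ) + 1) *
      (((k : ℝ) + 2) * (f.coeff (k + 2) * f.coeff k)) ≤
      (k.factorial : ℝ) * (k.factorial : ℝ) * ((k : ℝ) + 1) *
      (((k : ℝ) + 1) * f.coeff (k + 1) ^ 2) := by
    have h4 : 2 * ((k.factorial : ℝ) * f.coeff k *
        (((k + 2).descFactorial k : ℝ) * f.coeff (k + 2))) =
        (k.factorial : ℝ) * (k.factorial : ℝ) * ((k : ℝ) + 1) *
        (((k : ℝ) + 2) * (f.coeff (k + 2) * f.coeff k)) := by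
      linear_combination ((k.factorial : ℝ) * f.coeff k * f.coeff (k + 2)) * (e2'.trans f2)
    rw [← h4]
    refine h.trans (le_of_eq ?_)
    rw [f1]; ring
  exact le_of_mul_le_mul_left h3 (by positivity)

theorem coeff_pos_aux (s : Multiset ℝ) (hs : ∀ r ∈ s, r < 0) :
    (∀ i, 0 ≤ (s.map (fun r => X - C r)).prod.coeff i) ∧
    ∀ i ≤ Multiset.card s, 0 < (s.map (fun r => X - C r)).prod.coeff i := by
  induction s using Multiset.induction_on with
  | empty =>
    refine ⟨fun i => ?_, fun i hi => ?_⟩
    · simp only [Multiset.map_zero, Multiset.prod_zero, coeff_one]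
      split_ifs <;> norm_num
    · have : i = 0 := by simpa using hi
      subst this
      simp
  | cons a s ih =>
    obtain ⟨h1, h2⟩ := ih (fun r hr => hs r (Multiset.mem_cons_of_mem hr))
    have ha : a < 0 := hs a (Multiset.mem_cons_self a s)
    rw [Multiset.map_cons, Multiset.prod_cons]
    set Q := (s.map (fun r => X - C r)).prod
    have e0 : ((X - C a) * Q).coeff 0 = - a * Q.coeff 0 := by
      rw [sub_mul, coeff_sub, coeff_X_mul_zero, coeff_C_mul]; ring
    have e1 : ∀ i, ((X - C a) * Q).coeff (i + 1) = Q.coeff i - a * Q.coeff (i + 1) := by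
      intro i
      rw [sub_mul, coeff_sub, coeff_X_mul, coeff_C_mul]
    constructor
    · intro i
      cases i with
      | zero => rw [e0]; nlinarith [h1 0]
      | succ i => rw [e1]; nlinarith [h1 i, h1 (i + 1)]
    · intro i hi
      cases i with
      | zero => rw [e0]; nlinarith [h2 0 (Nat.zero_le _)]
      | succ i =>
        rw [Multiset.card_cons] at hi
        rw [e1]; nlinarith [h2 i (by omega), h1 (i + 1)]

theorem coeff_cast (p : ℕ[X]) (i : ℕ) :
    (p.map (Nat.castRingHom ℝ)).coeff i = (p.coeff i : ℝ) := by simp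

theorem natDegree_cast (p : ℕ[X]) : (p.map (Nat.castRingHom ℝ)).natDegree = p.natDegree :=
  natDegree_map_eq_of_injective (by intro a b h; simpa using h) p

theorem coeff_pos {p : ℕ[X]} (h0 : p.coeff 0 = 1)
    (hr : (p.map (Nat.castRingHom ℝ)).roots.card = p.natDegree) {i : ℕ} (hi : i ≤ p.natDegree) :
    0 < p.coeff i := by
  set P := p.map (Nat.castRingHom ℝ) with hP
  have hsp : P.Splits := by
    rw [splits_iff_card_roots, hr, hP, natDegree_cast]
  have hp0 : p ≠ 0 := by intro h; rw [h] at h0; simp at h0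
  have hP0 : P ≠ 0 := by
    intro h
    have := coeff_cast p 0
    rw [← hP, h, h0] at this
    simp at this
  have hneg : ∀ r ∈ P.roots, r < 0 := by
    intro r hr'
    by_contra hcon
    push Not at hcon
    have h1 : P.eval r = 0 := (mem_roots hP0).1 hr'
    rw [eval_eq_sum_range] at h1
    have h2 : (1 : ℝ) ≤ ∑ i ∈ Finset.range (P.natDegree + 1), P.coeff i * r ^ i := by
      have h3 : P.coeff 0 * r ^ 0 ≤ ∑ i ∈ Finset.range (P.natDegree + 1), P.coeff i * r ^ i := by
        apply Finset.single_le_sum (f := fun i => P.coeff i * r ^ i) _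
          (Finset.mem_range.2 (Nat.succ_pos _))
        intro i _
        rw [hP, coeff_cast]
        positivity
      have h4 : P.coeff 0 = 1 := by rw [hP, coeff_cast, h0]; simp
      rw [h4, pow_zero, mul_one] at h3
      exact h3
    linarith
  have h1 := (coeff_pos_aux P.roots hneg).2 i (by rw [hr]; exact hi)
  have h2 : P.coeff i = P.leadingCoeff * (P.roots.map (fun r => X - C r)).prod.coeff i := by
    conv_lhs => rw [hsp.eq_prod_roots]
    rw [coeff_C_mul]
  have h3 : 0 < P.leadingCoeff := by
    have : P.leadingCoeff = (p.leadingCoeff : ℝ) := by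
      rw [leadingCoeff, hP, natDegree_cast, coeff_cast, leadingCoeff]
    rw [this]
    exact_mod_cast Nat.pos_of_ne_zero (leadingCoeff_ne_zero.2 hp0)
  have h4 : 0 < P.coeff i := by rw [h2]; positivity
  rw [hP, coeff_cast] at h4
  exact_mod_cast h4


theorem divide (p : ℕ[X]) (k : ℕ) (h0 : p.coeff 0 = 1)
    (hr : (p.map (Nat.castRingHom ℝ)).roots.card = p.natDegree) (hkd : k ≤ p.natDegree)
    (hmono : ∀ i, i < k → p.coeff i < p.coeff (i + 1)) (hk : 1 ≤ k)
    (h1 : (p.map (Nat.castRingHom ℝ)).eval (-1) = 0) :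
    ∃ q : ℕ[X], p = (1 + X) * q ∧ q.natDegree + 1 = p.natDegree ∧ q.coeff 0 = 1 ∧
      (q.map (Nat.castRingHom ℝ)).roots.card = q.natDegree ∧
      (∀ i, i < k - 1 → q.coeff i < q.coeff (i + 1)) := by
  classical
  set P := p.map (Nat.castRingHom ℝ) with hP
  have hsp : P.Splits := by
    rw [splits_iff_card_roots, hr, hP, natDegree_cast]
  have hp0 : p ≠ 0 := by intro h; rw [h] at h0; simp at h0
  have hP0 : P ≠ 0 := by
    intro h
    have := coeff_cast p 0
    rw [← hP, h, h0] at this
    simp at this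
  -- divide
  have hdvd : (X - C (-1 : ℝ)) ∣ P := dvd_iff_isRoot.mpr h1
  obtain ⟨Q, hQ⟩ := hdvd
  have hQ0 : Q ≠ 0 := by rintro rfl; exact hP0 (by rw [hQ, mul_zero])
  have hroots : P.roots = {-1} + Q.roots := by
    have := roots_mul (show (X - C (-1 : ℝ)) * Q ≠ 0 by rw [← hQ]; exact hP0)
    rw [← hQ, roots_X_sub_C] at this
    exact this
  have hdeg : P.natDegree = 1 + Q.natDegree := by
    rw [hQ, natDegree_mul (X_sub_C_ne_zero _) hQ0, natDegree_X_sub_C]
  have hQcard : Q.roots.card = Q.natDegree := by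
    have e1 : P.roots.card = 1 + Q.roots.card := by rw [hroots, Multiset.card_add]; simp
    have e2 : P.natDegree = p.natDegree := natDegree_cast p
    omega
  have hQsp : Q.Splits := by rw [splits_iff_card_roots, hQcard]
  have hneg : ∀ r ∈ P.roots, r < 0 := by
    intro r hr'
    by_contra hcon
    push Not at hcon
    have h1 : P.eval r = 0 := (mem_roots hP0).1 hr'
    rw [eval_eq_sum_range] at h1
    have h2 : (1 : ℝ) ≤ ∑ i ∈ Finset.range (P.natDegree + 1), P.coeff i * r ^ i := by
      have h3 : P.coeff 0 * r ^ 0 ≤ ∑ i ∈ Finset.range (P.natDegree + 1), P.coeff i * r ^ i := by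
        apply Finset.single_le_sum (f := fun i => P.coeff i * r ^ i) _
          (Finset.mem_range.2 (Nat.succ_pos _))
        intro i _
        rw [hP, coeff_cast]
        positivity
      have h4 : P.coeff 0 = 1 := by rw [hP, coeff_cast, h0]; simp
      rw [h4, pow_zero, mul_one] at h3
      exact h3
    linarith
  have hnegQ : ∀ r ∈ Q.roots, r < 0 := by
    intro r hr'
    apply hneg
    rw [hroots]
    exact Multiset.mem_add.mpr (Or.inr hr')
  -- coefficient relations
  have hc0 : Q.coeff 0 = 1 := by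
    have h4 : P.coeff 0 = 1 := by rw [hP, coeff_cast, h0]; simp
    rw [hQ, sub_mul, coeff_sub, coeff_X_mul_zero, coeff_C_mul] at h4
    linarith
  have hc : ∀ i, (p.coeff (i + 1) : ℝ) = Q.coeff i + Q.coeff (i + 1) := by
    intro i
    rw [← coeff_cast p (i + 1), ← hP, hQ, sub_mul, coeff_sub, coeff_X_mul, coeff_C_mul]
    ring
  have hlead : 0 < Q.leadingCoeff := by
    have e1 : P.leadingCoeff = Q.leadingCoeff := by
      rw [hQ, leadingCoeff_mul, leadingCoeff_X_sub_C, one_mul]
    have e2 : P.leadingCoeff = (p.leadingCoeff : ℝ) := by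
      rw [leadingCoeff, hP, natDegree_cast, coeff_cast, leadingCoeff]
    rw [← e1, e2]
    exact_mod_cast Nat.pos_of_ne_zero (leadingCoeff_ne_zero.2 hp0)
  have hQc : ∀ i, Q.coeff i = Q.leadingCoeff * (Q.roots.map (fun r => X - C r)).prod.coeff i := by
    intro i
    conv_lhs => rw [hQsp.eq_prod_roots]
    rw [coeff_C_mul]
  have hQnn : ∀ i, 0 ≤ Q.coeff i := by
    intro i
    rw [hQc]
    exact mul_nonneg hlead.le ((coeff_pos_aux Q.roots hnegQ).1 i)
  have hQpos : ∀ i, i ≤ Q.natDegree → 0 < Q.coeff i := by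
    intro i hi
    rw [hQc]
    exact mul_pos hlead ((coeff_pos_aux Q.roots hnegQ).2 i (by rw [hQcard]; exact hi))
  have hint : ∀ i, ∃ z : ℤ, Q.coeff i = z := by
    intro i
    induction i with
    | zero => exact ⟨1, by rw [hc0]; simp⟩
    | succ i ih =>
      obtain ⟨z, hz⟩ := ih
      refine ⟨(p.coeff (i + 1) : ℤ) - z, ?_⟩
      have := hc i
      push_cast
      linarith
  have hnat : ∀ i, Q.coeff i ∈ Set.range (Nat.castRingHom ℝ) := by
    intro i
    obtain ⟨z, hz⟩ := hint i
    have hz0 : 0 ≤ z := by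
      have := hQnn i
      rw [hz] at this
      exact_mod_cast this
    refine ⟨z.toNat, ?_⟩
    rw [hz]
    simp only [Nat.coe_castRingHom]
    have : ((z.toNat : ℤ) : ℝ) = (z : ℝ) := by rw [Int.toNat_of_nonneg hz0]
    exact_mod_cast this
  obtain ⟨q, hq⟩ : ∃ q : ℕ[X], q.map (Nat.castRingHom ℝ) = Q := by
    have := (lifts_iff_coeff_lifts (f := Nat.castRingHom ℝ) Q).mpr hnat
    exact (mem_lifts Q).mp this
  have hqc : ∀ i, (q.coeff i : ℝ) = Q.coeff i := by
    intro i; rw [← hq, coeff_cast]
  have hqdeg : q.natDegree = Q.natDegree := by rw [← hq, natDegree_cast]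
  have hPdeg : P.natDegree = p.natDegree := natDegree_cast p
  refine ⟨q, ?_, by omega, ?_, ?_, ?_⟩
  · apply map_injective (Nat.castRingHom ℝ) (by intro a b h; simpa using h)
    rw [← hP, Polynomial.map_mul, hq, hQ]
    simp
    left
    ring
  · have := hqc 0
    rw [hc0] at this
    exact_mod_cast this
  · rw [hq, hqdeg, hQcard]
  · intro i hi
    by_contra hcon
    push Not at hcon
    have h5 := hmono (i + 1) (by omega)
    have e1 := hc i
    have e2 := hc (i + 1)
    rw [← hqc i, ← hqc (i + 1)] at e1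
    rw [← hqc (i + 1), ← hqc (i + 1 + 1)] at e2
    have e1' : p.coeff (i + 1) = q.coeff i + q.coeff (i + 1) := by exact_mod_cast e1
    have e2' : p.coeff (i + 1 + 1) = q.coeff (i + 1) + q.coeff (i + 1 + 1) := by exact_mod_cast e2
    have h6 : q.coeff i < q.coeff (i + 2) := by
      change p.coeff (i + 1) < p.coeff (i + 1 + 1) at h5
      rw [e1', e2'] at h5
      change q.coeff i < q.coeff (i + 1 + 1)
      omega
    have h7 := newton hQsp i
    rw [← hqc i, ← hqc (i + 1), ← hqc (i + 2)] at h7
    have h7' : (i + 2) * (q.coeff (i + 2) * q.coeff i) ≤ (i + 1) * q.coeff (i + 1) ^ 2 := by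
      exact_mod_cast h7
    have h8 : 0 < q.coeff i := by
      have := hQpos i (by omega)
      rw [← hqc] at this
      exact_mod_cast this
    -- q (i+1)^2 <= q i * q i < q (i+2) * q i
    have h9 : q.coeff (i + 1) ^ 2 ≤ q.coeff i * q.coeff i := by
      rw [pow_two]; exact Nat.mul_le_mul hcon hcon
    have h10 : q.coeff i * q.coeff i < q.coeff (i + 2) * q.coeff i := Nat.mul_lt_mul_of_pos_right h6 h8
    have h11 : (i + 1) * q.coeff (i + 1) ^ 2 ≤ (i + 1) * (q.coeff i * q.coeff i) :=
      Nat.mul_le_mul_left _ h9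
    have h12 : (i + 1) * (q.coeff i * q.coeff i) < (i + 1) * (q.coeff (i + 2) * q.coeff i) :=
      Nat.mul_lt_mul_of_pos_left h10 (by omega)
    have h13 : (i + 1) * (q.coeff (i + 2) * q.coeff i) ≤ (i + 2) * (q.coeff (i + 2) * q.coeff i) :=
      Nat.mul_le_mul_right _ (by omega)
    omega

end RR722.DV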