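import Mathlib
set_option autoImplicit false
namespace RR722


/-- The final inequality, `X = M + (1+w(M+i))^2` will be substituted. -/
def Goal (i M A : ℕ) (X : ℝ) : Prop :=
  if i = 2 then 4 * ((M : ℝ) * (M + 1)) ≤ 3 * A * X
  else if i = 3 then 2 * (20 * A + 18) * ((M : ℝ) * (M + 1)) ≤ (2 * A - 1) * (15 * A) * X
  else if i = 4 then (25 * A + 36) * ((M : ℝ) * (M + 1)) ≤ (A - 1) * (20 * A) * X
  else if i = 5 then (6 * A + 15) * ((M : ℝ) * (M + 1)) ≤ (A - 1) * (5 * A) * X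
  else (i * A + A + 4 * i) * ((M : ℝ) * (M + 1)) ≤ (A - 1) * (i * A) * X


end RR722
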