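import Mathlib
set_option autoImplicit false
namespace RR722.HB

theorem holder2 (a b θ : ℝ) (ha : 0 < a) (hb : 0 < b) (h0 : 0 ≤ θ) (h1 : θ ≤ 1) :
    1 + a ^ θ * b ^ (1 - θ) ≤ (1 + a) ^ θ * (1 + b) ^ (1 - θ) := by
  have ha1 : 0 < 1 + a := by linarith
  have hb1 : 0 < 1 + b := by linarith
  have e1 := Real.geom_mean_le_arith_mean2_weighted h0 (by linarith : 0 ≤ 1 - θ)
    (by positivity : 0 ≤ 1 / (1 + a)) (by positivity : 0 ≤ 1 / (1 + b)) (by ring)
  have e2 := Real.geom_mean_le_arith_mean2_weighted h0 (by linarith : 0 ≤ 1 - θ)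
    (by positivity : 0 ≤ a / (1 + a)) (by positivity : 0 ≤ b / (1 + b)) (by ring)
  rw [Real.div_rpow (by positivity) ha1.le, Real.div_rpow (by positivity) hb1.le,
    Real.one_rpow, Real.one_rpow] at e1
  rw [Real.div_rpow ha.le ha1.le, Real.div_rpow hb.le hb1.le] at e2
  have hp : 0 < (1 + a) ^ θ := Real.rpow_pos_of_pos ha1 _
  have hq : 0 < (1 + b) ^ (1 - θ) := Real.rpow_pos_of_pos hb1 _
  have h3 : 1 / (1 + a) ^ θ * (1 / (1 + b) ^ (1 - θ)) + a ^ θ / (1 + a) ^ θ * (b ^ (1 - θ) / (1 + b) ^ (1 - θ)) ≤ 1 := by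
    refine (add_le_add e1 e2).trans (le_of_eq ?_)
    field_simp
    ring
  have h4 : (1 + a ^ θ * b ^ (1 - θ)) / ((1 + a) ^ θ * (1 + b) ^ (1 - θ)) ≤ 1 := by
    refine le_trans (le_of_eq ?_) h3
    field_simp
  rwa [div_le_one (by positivity)] at h4

theorem H_bound (d : ℕ) (H : ℕ → ℝ) (hpos : ∀ j, j ≤ d → 0 < H j) (h0 : H 0 = 1) (hd : 1 ≤ H d)
    (hlc : ∀ j, j + 2 ≤ d → H j * H (j + 2) ≤ H (j + 1) ^ 2)
    (hsum : (67/50 : ℝ)^d ≤ ∑ j ∈ Finset.range (d + 1), (d.choose j : ℝ) * H j * (1/4 : ℝ)^j)
    (i : ℕ) (hi : i ≤ d) :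
    min ((109/100 : ℝ)^(d - i)) ((34/25 : ℝ)^i) ≤ H i := by
  rcases Nat.eq_zero_or_pos i with rfl | hi0
  · rw [h0]; exact (min_le_right _ _).trans (by simp)
  rcases hi.eq_or_lt with rfl | hid
  · exact (min_le_left _ _).trans (by simpa using hd)
  have hHi := hpos i hi
  have hHi1 := hpos (i + 1) hid
  obtain ⟨τ, hτ⟩ : ∃ τ, τ = H (i + 1) / H i := ⟨_, rfl⟩
  have hτ0 : 0 < τ := by rw [hτ]; positivity
  have hHτ : H (i + 1) = H i * τ := by rw [hτ]; field_simp
  -- upper ratios
  have hup : ∀ k, i + k + 1 ≤ d → H (i + k + 1) ≤ H (i + k) * τ := by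
    intro k
    induction k with
    | zero => intro _; rw [add_zero, hHτ]
    | succ k ih =>
      intro hk
      have h1 := ih (by omega)
      have h2 := hlc (i + k) (by omega)
      have p0 := hpos (i + k) (by omega)
      have p1 := hpos (i + k + 1) (by omega)
      have e1 : i + (k + 1) + 1 = i + k + 2 := by ring
      have e2 : i + (k + 1) = i + k + 1 := by ring
      rw [e1, e2]
      by_contra hcon
      push Not at hcon
      have h3 : H (i + k) * (H (i + k + 1) * τ) < H (i + k) * H (i + k + 2) :=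
        mul_lt_mul_of_pos_left hcon p0
      have h4 : H (i + k + 1) * H (i + k + 1) ≤ H (i + k + 1) * (H (i + k) * τ) :=
        mul_le_mul_of_nonneg_left h1 p1.le
      nlinarith
  have hlow : ∀ k, k ≤ i → H (i - k) * τ ≤ H (i - k + 1) := by
    intro k
    induction k with
    | zero => intro _; rw [Nat.sub_zero, hHτ]
    | succ k ih =>
      intro hk
      have h1 := ih (by omega)
      have h2 := hlc (i - (k + 1)) (by omega)
      have e1 : i - (k + 1) + 1 = i - k := by omega
      have e2 : i - (k + 1) + 2 = i - k + 1 := by omega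
      rw [e1, e2] at h2
      rw [e1]
      have p0 := hpos (i - (k + 1)) (by omega)
      have p1 := hpos (i - k) (by omega)
      by_contra hcon
      push Not at hcon
      have h3 : H (i - k) * H (i - k) < H (i - k) * (H (i - (k + 1)) * τ) :=
        mul_lt_mul_of_pos_left hcon p1
      have h4 : H (i - (k + 1)) * (H (i - k) * τ) ≤ H (i - (k + 1)) * H (i - k + 1) :=
        mul_le_mul_of_nonneg_left h1 p0.le
      nlinarith
  have hA : ∀ j, j ≤ d → H j * τ ^ i ≤ H i * τ ^ j := by
    intro j hj
    rcases le_total i j with hij | hij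
    · obtain ⟨k, rfl⟩ := Nat.exists_eq_add_of_le hij
      have : ∀ k, i + k ≤ d → H (i + k) ≤ H i * τ ^ k := by
        intro k
        induction k with
        | zero => intro _; simp
        | succ k ih =>
          intro hk
          have h1 := hup k (by omega)
          have h2 := ih (by omega)
          calc H (i + (k + 1)) = H (i + k + 1) := by ring_nf
            _ ≤ H (i + k) * τ := h1
            _ ≤ (H i * τ ^ k) * τ := mul_le_mul_of_nonneg_right h2 hτ0.le
            _ = H i * τ ^ (k + 1) := by ring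
      rw [pow_add]
      calc H (i + k) * τ ^ i ≤ (H i * τ ^ k) * τ ^ i :=
            mul_le_mul_of_nonneg_right (this k hj) (by positivity)
        _ = _ := by ring
    · obtain ⟨k, hk⟩ := Nat.exists_eq_add_of_le hij
      have : ∀ k, k ≤ i → H (i - k) * τ ^ k ≤ H i := by
        intro k
        induction k with
        | zero => intro _; simp
        | succ k ih =>
          intro hk
          have h1 := hlow (k + 1) hk
          have h2 := ih (by omega)
          have e1 : i - (k + 1) + 1 = i - k := by omega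
          rw [e1] at h1
          calc H (i - (k + 1)) * τ ^ (k + 1) = (H (i - (k + 1)) * τ) * τ ^ k := by ring
            _ ≤ H (i - k) * τ ^ k := mul_le_mul_of_nonneg_right h1 (by positivity)
            _ ≤ H i := h2
      have h3 := this k (by omega)
      have e : i - k = j := by omega
      rw [e] at h3
      rw [hk, pow_add]
      calc H j * (τ ^ j * τ ^ k) = (H j * τ ^ k) * τ ^ j := by ring
        _ ≤ H i * τ ^ j := mul_le_mul_of_nonneg_right h3 (by positivity)
        _ = H (j + k) * τ ^ j := by rw [← hk]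
  rcases le_or_gt (34 / 25) τ with hc1 | hc1
  · refine (min_le_right _ _).trans ?_
    have h1 := hA 0 (by omega)
    rw [h0, one_mul, pow_zero, mul_one] at h1
    exact (pow_le_pow_left₀ (by norm_num) hc1 i).trans h1
  rcases le_or_gt τ (100 / 109) with hc2 | hc2
  · refine (min_le_left _ _).trans ?_
    have h1 := hA d le_rfl
    obtain ⟨k, hk⟩ := Nat.exists_eq_add_of_le hi
    have e : d - i = k := by omega
    rw [e]
    have h2 : H d ≤ H i * τ ^ k := by
      have h3 : H d * τ ^ i ≤ (H i * τ ^ k) * τ ^ i := by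
        calc H d * τ ^ i ≤ H i * τ ^ d := h1
          _ = _ := by rw [hk, pow_add]; ring
      exact le_of_mul_le_mul_right h3 (by positivity)
    have h3 : τ ^ k ≤ (100 / 109) ^ k := pow_le_pow_left₀ hτ0.le hc2 k
    have h4 : 1 ≤ H i * (100 / 109) ^ k := by
      calc (1 : ℝ) ≤ H d := hd
        _ ≤ H i * τ ^ k := h2
        _ ≤ _ := mul_le_mul_of_nonneg_left h3 hHi.le
    have h5 : (109 / 100 : ℝ) ^ k * (100 / 109) ^ k = 1 := by
      rw [← mul_pow]; norm_num
    calc (109 / 100 : ℝ) ^ k = (109 / 100) ^ k * 1 := by ring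
      _ ≤ (109 / 100) ^ k * (H i * (100 / 109) ^ k) := mul_le_mul_of_nonneg_left h4 (by positivity)
      _ = H i * ((109 / 100 : ℝ) ^ k * (100 / 109) ^ k) := by ring
      _ = H i := by rw [h5, mul_one]
  -- main case
  have hS : (67 / 50 : ℝ) ^ d * τ ^ i ≤ H i * (1 + τ / 4) ^ d := by
    calc (67 / 50 : ℝ) ^ d * τ ^ i
        ≤ (∑ j ∈ Finset.range (d + 1), (d.choose j : ℝ) * H j * (1/4 : ℝ)^j) * τ ^ i :=
          mul_le_mul_of_nonneg_right hsum (by positivity)
      _ = ∑ j ∈ Finset.range (d + 1), (d.choose j : ℝ) * (1/4 : ℝ)^j * (H j * τ ^ i) := by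
          rw [Finset.sum_mul]
          apply Finset.sum_congr rfl
          intro j _
          ring
      _ ≤ ∑ j ∈ Finset.range (d + 1), (d.choose j : ℝ) * (1/4 : ℝ)^j * (H i * τ ^ j) := by
          apply Finset.sum_le_sum
          intro j hj
          apply mul_le_mul_of_nonneg_left _ (by positivity)
          exact hA j (by have := Finset.mem_range.mp hj; omega)
      _ = H i * (1 + τ / 4) ^ d := by
          rw [add_comm (1 : ℝ), add_pow, Finset.mul_sum]
          apply Finset.sum_congr rfl
          intro j _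
          rw [one_pow, mul_one, show τ / 4 = τ * (1 / 4) by ring, mul_pow]
          ring
  have hAB : Real.log (100 / 109) < Real.log (34 / 25) := Real.log_lt_log (by norm_num) (by norm_num)
  have hl1 : Real.log (100 / 109) < Real.log τ := Real.log_lt_log (by norm_num) hc2
  have hl2 : Real.log τ < Real.log (34 / 25) := Real.log_lt_log hτ0 hc1
  obtain ⟨θ, hθ⟩ : ∃ θ, θ = (Real.log τ - Real.log (100 / 109)) / (Real.log (34 / 25) - Real.log (100 / 109)) := ⟨_, rfl⟩
  have hden : 0 < Real.log (34 / 25) - Real.log (100 / 109) := by linarith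
  have hθ0 : 0 ≤ θ := by rw [hθ]; exact div_nonneg (by linarith) hden.le
  have hθ1 : θ ≤ 1 := by rw [hθ, div_le_one hden]; linarith
  have hlogτ : Real.log τ = θ * Real.log (34 / 25) + (1 - θ) * Real.log (100 / 109) := by
    have : θ * (Real.log (34 / 25) - Real.log (100 / 109)) = Real.log τ - Real.log (100 / 109) := by
      rw [hθ]; field_simp
    linarith
  have hτ4 : τ / 4 = (34 / 100 : ℝ) ^ θ * (25 / 109 : ℝ) ^ (1 - θ) := by
    rw [Real.rpow_def_of_pos (by norm_num), Real.rpow_def_of_pos (by norm_num), ← Real.exp_add]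
    have e1 : Real.log (34 / 100) = Real.log (34 / 25) - Real.log 4 := by
      rw [← Real.log_div (by norm_num) (by norm_num)]; norm_num
    have e2 : Real.log (25 / 109) = Real.log (100 / 109) - Real.log 4 := by
      rw [← Real.log_div (by norm_num) (by norm_num)]; norm_num
    rw [e1, e2]
    have e3 : (Real.log (34 / 25) - Real.log 4) * θ + (Real.log (100 / 109) - Real.log 4) * (1 - θ)
      = Real.log τ - Real.log 4 := by rw [hlogτ]; ring
    rw [e3, Real.exp_sub, Real.exp_log hτ0, Real.exp_log (by norm_num)]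
  have hh := holder2 (34 / 100) (25 / 109) θ (by norm_num) (by norm_num) hθ0 hθ1
  rw [← hτ4] at hh
  have hlog1 : Real.log (1 + τ / 4) ≤ θ * Real.log (67 / 50) + (1 - θ) * Real.log (134 / 109) := by
    have h1 := Real.log_le_log (by positivity) hh
    rw [Real.log_mul (Real.rpow_pos_of_pos (by norm_num) _).ne' (Real.rpow_pos_of_pos (by norm_num) _).ne',
      Real.log_rpow (by norm_num), Real.log_rpow (by norm_num)] at h1
    norm_num at h1 ⊢
    exact h1
  have he : Real.log (134 / 109) = Real.log (67 / 50) + Real.log (100 / 109) := by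
    rw [← Real.log_mul (by norm_num) (by norm_num)]; norm_num
  have hHlog : d * Real.log (67 / 50) + i * Real.log τ ≤ Real.log (H i) + d * Real.log (1 + τ / 4) := by
    have h1 := Real.log_le_log (by positivity) hS
    rw [Real.log_mul (by positivity) (by positivity), Real.log_mul (by positivity) (by positivity),
      Real.log_pow, Real.log_pow, Real.log_pow] at h1
    exact h1
  have hb : Real.log (109 / 100) = - Real.log (100 / 109) := by
    rw [← Real.log_inv]; norm_num
  have hdi : ((d - i : ℕ) : ℝ) = d - i := by rw [Nat.cast_sub hi]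
  have hfin : θ * (i * Real.log (34 / 25)) + (1 - θ) * ((d - i : ℕ) * Real.log (109 / 100)) ≤ Real.log (H i) := by
    rw [hdi, hb]
    have h1 : (d : ℝ) * Real.log (1 + τ / 4) ≤ d * (θ * Real.log (67 / 50) + (1 - θ) * Real.log (134 / 109)) :=
      mul_le_mul_of_nonneg_left hlog1 (by positivity)
    rw [he] at h1
    rw [hlogτ] at hHlog
    nlinarith
  by_contra hcon
  push Not at hcon
  have c1 : H i < (109 / 100 : ℝ) ^ (d - i) := hcon.trans_le (min_le_left _ _)
  have c2 : H i < (34 / 25 : ℝ) ^ i := hcon.trans_le (min_le_right _ _)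
  have l1 := Real.log_lt_log hHi c1
  have l2 := Real.log_lt_log hHi c2
  rw [Real.log_pow] at l1 l2
  rcases hθ0.eq_or_lt with hz | hz
  · rw [← hz] at hfin
    linarith
  · have m1 : θ * Real.log (H i) < θ * (i * Real.log (34 / 25)) := mul_lt_mul_of_pos_left l2 hz
    have m2 : (1 - θ) * Real.log (H i) ≤ (1 - θ) * ((d - i : ℕ) * Real.log (109 / 100)) :=
      mul_le_mul_of_nonneg_left l1.le (by linarith)
    linarith

end RR722.HB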