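import Mathlib
set_option autoImplicit false
namespace RR722

/-- `KC i A n p q`: `n` has an `i`-cascade (Macaulay representation) with top term `C(A+i-1, i)`;
`p` is the same cascade shifted up (`∑ C(a_j, j+1)`), `q` shifted down (`∑ C(a_j, j-1)`). -/
inductive KC : ℕ → ℕ → ℕ → ℕ → ℕ → Prop
  | single (i A : ℕ) (hA : 1 ≤ A) :
      KC (i + 1) A ((A + i).choose (i + 1)) ((A + i).choose (i + 2)) ((A + i).choose i)
  | cons (i A A' r p q : ℕ) (h : KC (i + 1) A' r p q) (hA : A' ≤ A) :
      KC (i + 2) A ((A + i + 1).choose (i + 2) + r) ((A + i + 1).choose (i + 3) + p)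
        ((A + i + 1).choose (i + 1) + q)

end RR722
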