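import Mathlib
import Pool.Agent.Helper722.RR.KCDef
set_option autoImplicit false
namespace RR722

namespace KC3515

theorem hockey (x j d : ℕ) :
    d * (x + j).choose j + (x + j).choose (j + 1) ≤ (x + d + j).choose (j + 1) := by
  induction d with
  | zero => simp
  | succ d ih =>
    have e : x + (d + 1) + j = (x + d + j) + 1 := by ring
    rw [e, Nat.choose_succ_succ']
    have h1 : (x + j).choose j ≤ (x + d + j).choose j :=
      Nat.choose_le_choose j (by omega)
    have h2 : (d + 1) * (x + j).choose j = d * (x + j).choose j + (x + j).choose j := by ring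
    omega

/-- `(i+1) C(A+i,i+1) = A C(A+i,i)` -/
theorem top_eq (A i : ℕ) :
    (i + 1) * (A + i).choose (i + 1) = A * (A + i).choose i := by
  have h := Nat.choose_succ_right_eq (A + i) i
  have e : A + i - i = A := by omega
  rw [e] at h
  nlinarith [h]

theorem A_pos {i A n p q : ℕ} (h : KC i A n p q) : 1 ≤ A := by
  induction h with
  | single i A hA => exact hA
  | cons i A A' r p q h hA ih => omega

theorem n_lt {i A n p q : ℕ} (h : KC i A n p q) : n < (A + i).choose i := by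
  induction h with
  | single i A hA =>
    have e : A + (i + 1) = (A + i) + 1 := by ring
    rw [e, Nat.choose_succ_succ']
    have : 0 < (A + i).choose i := Nat.choose_pos (by omega)
    omega
  | cons i A A' r p q h hA ih =>
    have e : A + (i + 2) = (A + i + 1) + 1 := by ring
    rw [e, Nat.choose_succ_succ' (A + i + 1) (i + 1)]
    have h1 : (A' + (i + 1)).choose (i + 1) ≤ (A + i + 1).choose (i + 1) :=
      Nat.choose_le_choose _ (by omega)
    have e2 : i + 1 + 1 = i + 2 := by ring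
    rw [e2]
    omega

theorem aux {i A n p q : ℕ} (h : KC i A n p q) :
    ∀ N : ℕ, N * q + 1 ≤ i * n + (N + i).choose i := by
  induction h with
  | single i A hA =>
    intro N
    rw [top_eq]
    have hp : 0 < (N + (i + 1)).choose (i + 1) := Nat.choose_pos (by omega)
    rcases Nat.le_total N A with hN | hN
    · have : N * (A + i).choose i ≤ A * (A + i).choose i := Nat.mul_le_mul_right _ hN
      omega
    · obtain ⟨d, rfl⟩ := Nat.exists_eq_add_of_le hN
      have h1 := hockey A i d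
      have h2 : (A + d) * (A + i).choose i = A * (A + i).choose i + d * (A + i).choose i := by
        ring
      have e : A + d + (i + 1) = (A + d + i) + 1 := by ring
      rw [e, Nat.choose_succ_succ', h2]
      have h3 : 0 < (A + d + i).choose i := Nat.choose_pos (by omega)
      omega
  | cons i A A' r p q h hA ih =>
    intro N
    have ihN := ih N
    have ht := top_eq A (i + 1)
    have e1 : A + (i + 1) = A + i + 1 := by ring
    rw [e1] at ht
    have e2 : (i + 1 + 1) = i + 2 := by ring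
    rw [e2] at ht
    have e3 : N + (i + 2) = (N + (i + 1)) + 1 := by ring
    rw [e3, Nat.choose_succ_succ' (N + (i + 1)) (i + 1)]
    have key : N * (A + i + 1).choose (i + 1) ≤
        A * (A + i + 1).choose (i + 1) + (N + (i + 1)).choose (i + 1 + 1) := by
      rcases Nat.le_total N A with hN | hN
      · have : N * (A + i + 1).choose (i + 1) ≤ A * (A + i + 1).choose (i + 1) :=
          Nat.mul_le_mul_right _ hN
        omega
      · obtain ⟨d, rfl⟩ := Nat.exists_eq_add_of_le hN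
        have h1 := hockey A (i + 1) d
        rw [e1] at h1
        have h2 : (A + d) * (A + i + 1).choose (i + 1) =
            A * (A + i + 1).choose (i + 1) + d * (A + i + 1).choose (i + 1) := by
          ring
        rw [h2]
        omega
    nlinarith [key, ihN, ht]

end KC3515

theorem KC.F2 {i A n p q : ℕ} (h : KC i A n p q) : i * n ≤ q * (A + 1) ∧ q ≤ i * n := by
  induction h with
  | single i A hA =>
    rw [KC3515.top_eq]
    constructor
    · nlinarith [Nat.zero_le ((A + i).choose i)]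
    · exact Nat.le_mul_of_pos_left _ hA
  | cons i A A' r p q h hA ih =>
    obtain ⟨ih1, ih2⟩ := ih
    have hA' := KC3515.A_pos h
    have hn := KC3515.n_lt h
    have ht := KC3515.top_eq A (i + 1)
    have e1 : A + (i + 1) = A + i + 1 := by ring
    rw [e1] at ht
    have e2 : (i + 1 + 1) = i + 2 := by ring
    rw [e2] at ht
    have h1 : (A' + (i + 1)).choose (i + 1) ≤ (A + i + 1).choose (i + 1) :=
      Nat.choose_le_choose _ (by omega)
    have hr : r ≤ (A + i + 1).choose (i + 1) := by omega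
    have hq : q * (A' + 1) ≤ q * (A + 1) := Nat.mul_le_mul_left _ (by omega)
    constructor
    · nlinarith
    · have : (A + i + 1).choose (i + 1) ≤ A * (A + i + 1).choose (i + 1) :=
        Nat.le_mul_of_pos_left _ (by omega)
      nlinarith

theorem KC.F1 {i A n p q : ℕ} (h : KC i A n p q) : A * q ≤ i * n + q := by
  cases h with
  | single i A hA =>
    rw [KC3515.top_eq]
    exact Nat.le_add_right _ _
  | cons i A A' r p q h hA =>
    have hA' := KC3515.A_pos h
    have ht := KC3515.top_eq A (i + 1)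
    have e1 : A + (i + 1) = A + i + 1 := by ring
    rw [e1] at ht
    have e2 : (i + 1 + 1) = i + 2 := by ring
    rw [e2] at ht
    have h2 := KC3515.aux h (A - 1)
    obtain ⟨a, rfl⟩ : ∃ a, A = a + 1 := ⟨A - 1, by omega⟩
    have e3 : a + 1 - 1 = a := by omega
    rw [e3] at h2
    have h3 : (a + (i + 1)).choose (i + 1) ≤ (a + 1 + i + 1).choose (i + 1) :=
      Nat.choose_le_choose _ (by omega)
    nlinarith

theorem KC3515.lvl1 {A n p q : ℕ} (h : KC 1 A n p q) :
    1 ≤ A ∧ n = A ∧ 2 * p + A = A * A ∧ q = 1 := by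
  cases h with
  | single i A hA =>
    refine ⟨hA, ?_, ?_, ?_⟩
    · simp
    · have h := Nat.choose_succ_right_eq (A + 0) 1
      simp only [Nat.add_zero, Nat.choose_one_right] at h
      obtain ⟨a, rfl⟩ : ∃ a, A = a + 1 := ⟨A - 1, by omega⟩
      simp only [Nat.add_zero, Nat.zero_add]
      have e : a + 1 - 1 = a := by omega
      rw [e] at h
      have h' : (a + 1).choose 2 * 2 = (a + 1) * a := h
      nlinarith
    · simp

/-- level-two cascades: `n = C(A+1,2) + b`, with `b = 0, q = A+1` or `1 ≤ b ≤ A, q = A + 2`. -/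
theorem KC3515.lvl2 {A n p q : ℕ} (h : KC 2 A n p q) :
    1 ≤ A ∧ ((2 * n = A * A + A ∧ 6 * p + A = A * A * A ∧ q = A + 1) ∨
      ∃ b : ℕ, 1 ≤ b ∧ b ≤ A ∧ 2 * n = A * A + A + 2 * b ∧
        6 * p + A + 3 * b = A * A * A + 3 * (b * b) ∧ q = A + 2) := by
  have hc2 : ∀ a : ℕ, (a + 1 + 1).choose 2 * 2 = (a + 1 + 1) * (a + 1) := by
    intro a
    have h := Nat.choose_succ_right_eq (a + 1 + 1) 1
    simp only [Nat.choose_one_right] at h
    exact h
  have hc3 : ∀ a : ℕ, (a + 1 + 1).choose 3 * 3 = (a + 1 + 1).choose 2 * a := by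
    intro a
    have h := Nat.choose_succ_right_eq (a + 1 + 1) 2
    have e : a + 1 + 1 - 2 = a := by omega
    rw [e] at h
    exact h
  cases h with
  | single i A hA =>
    refine ⟨hA, Or.inl ?_⟩
    obtain ⟨a, rfl⟩ : ∃ a, A = a + 1 := ⟨A - 1, by omega⟩
    have h2 := hc2 a
    have h3 := hc3 a
    refine ⟨?_, ?_, ?_⟩
    · show 2 * (a + 1 + 1).choose 2 = _
      nlinarith
    · show 6 * (a + 1 + 1).choose 3 + _ = _
      nlinarith
    · simp
  | cons i A A' r p q h hA =>
    obtain ⟨h1, h2, h3, h4⟩ := KC3515.lvl1 h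
    refine ⟨by omega, Or.inr ⟨A', h1, hA, ?_⟩⟩
    obtain ⟨a, rfl⟩ : ∃ a, A = a + 1 := ⟨A - 1, by omega⟩
    have k2 := hc2 a
    have k3 := hc3 a
    refine ⟨?_, ?_, ?_⟩
    · show 2 * ((a + 1 + 1).choose 2 + r) = _
      subst h2
      nlinarith
    · show 6 * ((a + 1 + 1).choose 3 + p) + _ + _ = _
      nlinarith
    · subst h4
      simp

theorem KC.F1_three {A n p q : ℕ} (h : KC 3 A n p q) : 2 * A * q ≤ 6 * n + q := by
  cases h with
  | single i A hA =>
    have ht := KC3515.top_eq A 2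
    show 2 * A * (A + 2).choose 2 ≤ 6 * (A + 2).choose 3 + (A + 2).choose 2
    nlinarith
  | cons i A A' r p q h hA =>
    have ht := KC3515.top_eq A 2
    have hQ : (A + 2).choose 2 * 2 = (A + 2) * (A + 1) := by
      have h := Nat.choose_succ_right_eq (A + 2) 1
      simp only [Nat.choose_one_right] at h
      exact h
    show 2 * A * ((A + 2).choose 2 + q) ≤ 6 * ((A + 2).choose 3 + r) + ((A + 2).choose 2 + q)
    have ht' : 3 * (A + 2).choose 3 = A * (A + 2).choose 2 := ht
    have key : 4 * (A * q) ≤ 12 * r + (A + 2) * (A + 1) + 2 * q := by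
      obtain ⟨hx, h1 | h1⟩ := KC3515.lvl2 h
      · obtain ⟨e1, e2, e3⟩ := h1
        subst e3
        zify at e1 ⊢
        nlinarith [sq_nonneg (2 * (A : ℤ) - 4 * A' - 1), sq_nonneg (A' : ℤ)]
      · obtain ⟨b, hb1, hb2, e1, e2, e3⟩ := h1
        subst e3
        zify at e1 hb1 hx ⊢
        nlinarith [sq_nonneg (2 * (A : ℤ) - 4 * A' - 5), sq_nonneg ((A' : ℤ) - 1),
          sq_nonneg (A' : ℤ)]
    nlinarith

theorem KC.psi_two {A n p q : ℕ} (h : KC 2 A n p q) :
    2 * n ^ 2 * (3 * A) ≤ 3 * A * (3 * p * q) + 8 * n ^ 2 := by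
  obtain ⟨hA, h1 | h1⟩ := KC3515.lvl2 h
  · obtain ⟨e1, e2, e3⟩ := h1
    subst e3
    zify at e1 e2 hA ⊢
    have en : (2 * (n : ℤ)) ^ 2 = ((A : ℤ) * A + A) ^ 2 := by rw [e1]
    have ep : 6 * (p : ℤ) = (A : ℤ) * A * A - A := by linarith
    have k : 4 * (3 * (A : ℤ) * (3 * p * (A + 1)) + 8 * n ^ 2 - 2 * n ^ 2 * (3 * A)) =
        6 * A * (A + 1) * (6 * p) + (8 - 6 * A) * (2 * n) ^ 2 := by ring
    have k2 : 6 * (A : ℤ) * (A + 1) * (6 * p) + (8 - 6 * A) * (2 * n) ^ 2 =
        2 * (A : ℤ) ^ 2 * (A + 1) ^ 2 := by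
      rw [ep, en]; ring
    have k3 : 0 ≤ 2 * (A : ℤ) ^ 2 * (A + 1) ^ 2 := by positivity
    linarith
  · obtain ⟨b, hb1, hb2, e1, e2, e3⟩ := h1
    subst e3
    zify at e1 e2 hA hb1 hb2 ⊢
    have en : (2 * (n : ℤ)) ^ 2 = ((A : ℤ) * A + A + 2 * b) ^ 2 := by rw [e1]
    have ep : 6 * (p : ℤ) = (A : ℤ) * A * A + 3 * (b * b) - A - 3 * b := by linarith
    have k : 4 * (3 * (A : ℤ) * (3 * p * (A + 2)) + 8 * n ^ 2 - 2 * n ^ 2 * (3 * A)) =
        6 * A * (A + 2) * (6 * p) + (8 - 6 * A) * (2 * n) ^ 2 := by ring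
    have k2 : 6 * (A : ℤ) * (A + 2) * (6 * p) + (8 - 6 * A) * (2 * n) ^ 2 =
        2 * ((A : ℤ) ^ 2 * (2 * A - 3 * b) ^ 2 + 2 * A ^ 3 - 5 * b * A ^ 2 + 6 * b ^ 2 * A
          - 2 * A ^ 2 - 2 * b * A + 16 * b ^ 2) := by
      rw [ep, en]; ring
    have k3 : 0 ≤ (A : ℤ) ^ 2 * (2 * A - 3 * b) ^ 2 + 2 * A ^ 3 - 5 * b * A ^ 2 + 6 * b ^ 2 * A
          - 2 * A ^ 2 - 2 * b * A + 16 * b ^ 2 := by
      have hsq : 0 ≤ (A : ℤ) ^ 2 * (2 * A - 3 * b) ^ 2 := by positivity
      generalize (A : ℤ) = a at *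
      generalize (b : ℤ) = c at *
      have hf : 0 ≤ (6 * a + 16) * c ^ 2 - (5 * a ^ 2 + 2 * a) * c + 2 * a ^ 3 - 2 * a ^ 2 := by
        rcases (show a = 1 ∨ 2 ≤ a by omega) with h1 | h2
        · have hc : c = 1 := by omega
          subst h1; subst hc; norm_num
        · by_contra hneg
          push Not at hneg
          have h4 : 4 * (6 * a + 16) *
              ((6 * a + 16) * c ^ 2 - (5 * a ^ 2 + 2 * a) * c + 2 * a ^ 3 - 2 * a ^ 2) =
              (2 * (6 * a + 16) * c - (5 * a ^ 2 + 2 * a)) ^ 2 +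
                a ^ 2 * (23 * a ^ 2 + 60 * a - 132) := by ring
          have h5 : 4 * (6 * a + 16) *
              ((6 * a + 16) * c ^ 2 - (5 * a ^ 2 + 2 * a) * c + 2 * a ^ 3 - 2 * a ^ 2) < 0 :=
            mul_neg_of_pos_of_neg (by linarith) hneg
          have h6 : 0 ≤ 23 * a ^ 2 + 60 * a - 132 := by nlinarith
          have h7 : 0 ≤ a ^ 2 * (23 * a ^ 2 + 60 * a - 132) := mul_nonneg (sq_nonneg a) h6
          have h8 := sq_nonneg (2 * (6 * a + 16) * c - (5 * a ^ 2 + 2 * a))
          linarith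
      nlinarith
    linarith

theorem KC.lam_two {A n p q : ℕ} (h : KC 2 A n p q) :
    6 * n ^ 2 ≤ 9 * p * q + 4 * n * q := by
  obtain ⟨hA, h1 | h1⟩ := KC3515.lvl2 h
  · obtain ⟨e1, e2, e3⟩ := h1
    subst e3
    zify at e1 e2 hA ⊢
    have en : (2 * (n : ℤ)) ^ 2 = ((A : ℤ) * A + A) ^ 2 := by rw [e1]
    have ep : 6 * (p : ℤ) = (A : ℤ) * A * A - A := by linarith
    have k : 2 * (9 * (p : ℤ) * (A + 1) + 4 * n * (A + 1) - 6 * n ^ 2) =
        3 * (A + 1) * (6 * p) + 4 * (A + 1) * (2 * n) - 3 * (2 * n) ^ 2 := by ring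
    have k2 : 3 * ((A : ℤ) + 1) * (6 * p) + 4 * (A + 1) * (2 * n) - 3 * (2 * n) ^ 2 =
        (A : ℤ) * (A + 1) ^ 2 := by
      rw [ep, en, e1]; ring
    have k3 : 0 ≤ (A : ℤ) * (A + 1) ^ 2 := by positivity
    linarith
  · obtain ⟨b, hb1, hb2, e1, e2, e3⟩ := h1
    subst e3
    zify at e1 e2 hA hb1 hb2 ⊢
    have en : (2 * (n : ℤ)) ^ 2 = ((A : ℤ) * A + A + 2 * b) ^ 2 := by rw [e1]
    have ep : 6 * (p : ℤ) = (A : ℤ) * A * A + 3 * (b * b) - A - 3 * b := by linarith
    have k : 2 * (9 * (p : ℤ) * (A + 2) + 4 * n * (A + 2) - 6 * n ^ 2) =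
        3 * (A + 2) * (6 * p) + 4 * (A + 2) * (2 * n) - 3 * (2 * n) ^ 2 := by ring
    have k2 : 3 * (3 * ((A : ℤ) + 2) * (6 * p) + 4 * (A + 2) * (2 * n) - 3 * (2 * n) ^ 2) =
        ((3 * b - 2 * A : ℤ) - 1) * (A * (3 * (3 * b - 2 * A) - 2) + 2 * (3 * b - 2 * A)) := by
      rw [ep, en, e1]; ring
    have k3 : 0 ≤ ((3 * b - 2 * A : ℤ) - 1) *
        (A * (3 * (3 * b - 2 * A) - 2) + 2 * (3 * b - 2 * A)) := by
      generalize (3 * b - 2 * A : ℤ) = t
      rcases le_or_gt 1 t with ht | ht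
      · apply mul_nonneg (by linarith)
        have : 0 ≤ (A : ℤ) * (3 * t - 2) := mul_nonneg (by positivity) (by linarith)
        linarith
      · have ht' : t ≤ 0 := by omega
        apply mul_nonneg_of_nonpos_of_nonpos (by linarith)
        have : (A : ℤ) * (3 * t - 2) ≤ 0 :=
          mul_nonpos_of_nonneg_of_nonpos (by positivity) (by linarith)
        linarith
    linarith

end RR722
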