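import Mathlib
import Pool.Agent.Helper722.RR.KCDef
set_option autoImplicit false
namespace RR722

theorem KC.top_pos {i A n p q : ℕ} (h : KC i A n p q) : 1 ≤ i ∧ 1 ≤ A := by
  induction h with
  | single i A hA => exact ⟨by omega, hA⟩
  | cons i A A' r p q h hA ih => exact ⟨by omega, ih.2.trans hA⟩

theorem KC.bounds {i A n p q : ℕ} (h : KC i A n p q) :
    (A + i - 1).choose i ≤ n ∧ n < (A + i).choose i := by
  induction h with
  | single i A hA =>
    have e : A + (i + 1) - 1 = A + i := by omega
    have e2 : A + (i + 1) = (A + i) + 1 := by omega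
    rw [e, e2, Nat.choose_succ_succ']
    have := Nat.choose_pos (n := A + i) (k := i) (by omega)
    omega
  | cons i A A' r p q h hA ih =>
    have e : A + (i + 2) - 1 = A + i + 1 := by omega
    have e2 : A + (i + 2) = (A + i + 1) + 1 := by omega
    rw [e, e2, Nat.choose_succ_succ' (A + i + 1) (i + 1)]
    have h1 : (A' + (i + 1)).choose (i + 1) ≤ (A + i + 1).choose (i + 1) :=
      Nat.choose_le_choose _ (by omega)
    have h2 := ih.2
    have e5 : (A + i + 1).choose (i + 1 + 1) = (A + i + 1).choose (i + 2) := rfl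
    constructor
    · exact Nat.le_add_right _ _
    · omega

theorem KC.inv {k A n p q : ℕ} (h : KC (k + 1) A n p q) :
    (1 ≤ A ∧ n = (A + k).choose (k + 1) ∧ p = (A + k).choose (k + 2) ∧ q = (A + k).choose k) ∨
    ∃ i A' r p1 q1, k = i + 1 ∧ KC (i + 1) A' r p1 q1 ∧ A' ≤ A ∧
      n = (A + i + 1).choose (i + 2) + r ∧ p = (A + i + 1).choose (i + 3) + p1 ∧
      q = (A + i + 1).choose (i + 1) + q1 := by
  cases h with
  | single i A hA => exact Or.inl ⟨hA, rfl, rfl, rfl⟩
  | cons i A A' r p q h hA => exact Or.inr ⟨i, A', r, p, q, rfl, h, hA, rfl, rfl, rfl⟩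

theorem KC.pq_up {i A n p q : ℕ} (h : KC i A n p q) :
    p ≤ (A + i).choose (i + 1) ∧ q ≤ (A + i).choose (i - 1) := by
  induction h with
  | single i A hA =>
    have e2 : A + (i + 1) = (A + i) + 1 := by omega
    have e3 : i + 1 - 1 = i := by omega
    rw [e2, e3]
    constructor
    · rw [Nat.choose_succ_succ' (A + i) (i + 1)]
      exact Nat.le_add_left _ _
    · exact Nat.choose_le_choose _ (by omega)
  | cons i A A' r p q h hA ih =>
    have e2 : A + (i + 2) = (A + i + 1) + 1 := by omega
    have e3 : i + 2 - 1 = i + 1 := by omega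
    have e4 : i + 1 - 1 = i := by omega
    rw [e4] at ih
    rw [e2, e3]
    have h1 : (A' + (i + 1)).choose (i + 1 + 1) ≤ (A + i + 1).choose (i + 2) :=
      Nat.choose_le_choose _ (by omega)
    have h2 : (A' + (i + 1)).choose i ≤ (A + i + 1).choose i :=
      Nat.choose_le_choose _ (by omega)
    constructor
    · rw [Nat.choose_succ_succ' (A + i + 1) (i + 2)]
      have := ih.1
      have e5 : (A + i + 1).choose (i + 2 + 1) = (A + i + 1).choose (i + 3) := rfl
      omega
    · rw [Nat.choose_succ_succ' (A + i + 1) i]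
      have := ih.2
      omega

theorem KC.pq_low {i A n p q : ℕ} (h : KC i A n p q) :
    (A + i - 1).choose (i + 1) ≤ p ∧ (A + i - 1).choose (i - 1) ≤ q := by
  cases h with
  | single i A hA =>
    have e : A + (i + 1) - 1 = A + i := by omega
    have e3 : i + 1 - 1 = i := by omega
    rw [e, e3]
    exact ⟨le_rfl, le_rfl⟩
  | cons i A A' r p q h hA =>
    have e : A + (i + 2) - 1 = A + i + 1 := by omega
    have e3 : i + 2 - 1 = i + 1 := by omega
    rw [e, e3]
    exact ⟨Nat.le_add_right _ _, Nat.le_add_right _ _⟩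

theorem exists_top (i n : ℕ) (hn : 1 ≤ n) :
    ∃ A, 1 ≤ A ∧ (A + i).choose (i + 1) ≤ n ∧ n < (A + i + 1).choose (i + 1) := by
  have hex : ∃ B, n < (B + i + 1).choose (i + 1) := by
    refine ⟨n, ?_⟩
    have h1 : ∀ m : ℕ, m < (m + i + 1).choose (i + 1) := by
      intro m
      induction m with
      | zero => simp
      | succ m ih =>
        have e : m + 1 + i + 1 = (m + i + 1) + 1 := by omega
        rw [e, Nat.choose_succ_succ']
        have := Nat.choose_pos (n := m + i + 1) (k := i) (by omega)
        omega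
    exact h1 n
  classical
  have hf := Nat.find_spec hex
  have hmin := fun m hm => Nat.find_min hex (m := m) hm
  set B := Nat.find hex with hB
  have hBpos : 1 ≤ B := by
    by_contra h0
    have : B = 0 := by omega
    rw [this] at hf
    simp at hf
    omega
  refine ⟨B, hBpos, ?_, hf⟩
  have h2 := hmin (B - 1) (by omega)
  have e : B - 1 + i + 1 = B + i := by omega
  rw [e] at h2
  exact not_lt.mp h2

theorem KC.exists_rep_aux : ∀ (i n : ℕ), 1 ≤ n → ∃ A p q, KC (i + 1) A n p q := by
  intro i
  induction i with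
  | zero =>
    intro n hn
    have := KC.single 0 n hn
    simp only [Nat.add_zero, Nat.choose_one_right, zero_add] at this
    exact ⟨n, _, _, this⟩
  | succ i ih =>
    intro n hn
    obtain ⟨A, hA, h1, h2⟩ := exists_top (i + 1) n hn
    by_cases h0 : n = (A + (i + 1)).choose (i + 1 + 1)
    · exact ⟨A, _, _, h0 ▸ KC.single (i + 1) A hA⟩
    · set r := n - (A + (i + 1)).choose (i + 1 + 1) with hr
      have hr1 : 1 ≤ r := by omega
      obtain ⟨A', p, q, h⟩ := ih r hr1
      have hb := h.bounds.1
      have e : A' + (i + 1) - 1 = A' + i := by omega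
      rw [e] at hb
      have hr2 : r < (A + i + 1).choose (i + 1) := by
        rw [Nat.choose_succ_succ' (A + (i + 1)) (i + 1)] at h2
        have e6 : (A + (i + 1)).choose (i + 1) = (A + i + 1).choose (i + 1) := rfl
        omega
      have hAA : A' ≤ A := by
        by_contra hcon
        have : (A + i + 1).choose (i + 1) ≤ (A' + i).choose (i + 1) :=
          Nat.choose_le_choose _ (by omega)
        omega
      have hc := KC.cons i A A' r p q h hAA
      have e7 : (A + i + 1).choose (i + 2) + r = n := by
        have e6 : (A + (i + 1)).choose (i + 1 + 1) = (A + i + 1).choose (i + 2) := rfl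
        omega
      rw [e7] at hc
      exact ⟨A, _, _, hc⟩

theorem KC.exists_rep (i n : ℕ) (hi : 1 ≤ i) (hn : 1 ≤ n) : ∃ A p q, KC i A n p q := by
  obtain ⟨k, rfl⟩ : ∃ k, i = k + 1 := ⟨i - 1, by omega⟩
  exact KC.exists_rep_aux k n hn

theorem KC.mono_aux : ∀ {i A n p q A' n' p' q' : ℕ}, KC i A n p q → KC i A' n' p' q' →
    n ≤ n' → p ≤ p' ∧ q ≤ q' := by
  intro i
  induction i with
  | zero =>
    intro A n p q A' n' p' q' h
    exact absurd h.top_pos.1 (by omega)
  | succ k ih =>
    intro A n p q A' n' p' q' h h' hn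
    rcases lt_trichotomy A A' with hlt | heq | hgt
    · have h1 := h.pq_up
      have h2 := h'.pq_low
      have e : A' + (k + 1) - 1 = A' + k := by omega
      have e3 : k + 1 - 1 = k := by omega
      rw [e, e3] at h2
      rw [e3] at h1
      have h3 : (A + (k + 1)).choose (k + 1 + 1) ≤ (A' + k).choose (k + 1 + 1) :=
        Nat.choose_le_choose _ (by omega)
      have h4 : (A + (k + 1)).choose k ≤ (A' + k).choose k :=
        Nat.choose_le_choose _ (by omega)
      exact ⟨h1.1.trans (h3.trans h2.1), h1.2.trans (h4.trans h2.2)⟩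
    · subst heq
      rcases h.inv with ⟨_, hn1, hp1, hq1⟩ | ⟨i, A1, r, p1, q1, hk, hc, _, hn1, hp1, hq1⟩
      · have h2 := h'.pq_low
        have e : A + (k + 1) - 1 = A + k := by omega
        have e3 : k + 1 - 1 = k := by omega
        rw [e, e3] at h2
        rw [hp1, hq1]
        exact h2
      · subst hk
        have hr1 : 1 ≤ r := by
          have hb := hc.bounds.1
          have hp := hc.top_pos.2
          have := Nat.choose_pos (n := A1 + (i + 1) - 1) (k := i + 1) (by omega)
          omega
        rcases h'.inv with ⟨_, hn2, _, _⟩ | ⟨i2, A2, r2, p2, q2, hk2, hc2, _, hn2, hp2, hq2⟩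
        · have e : A + (i + 1) = A + i + 1 := by omega
          rw [e] at hn2
          have e5 : (A + i + 1).choose (i + 1 + 1) = (A + i + 1).choose (i + 2) := rfl
          omega
        · have : i2 = i := by omega
          subst this
          have hrr : r ≤ r2 := by omega
          have := ih hc hc2 hrr
          omega
    · exfalso
      have h1 := h.bounds.1
      have h2 := h'.bounds.2
      have e : A + (k + 1) - 1 = A + k := by omega
      rw [e] at h1
      have h3 : (A' + (k + 1)).choose (k + 1) ≤ (A + k).choose (k + 1) :=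
        Nat.choose_le_choose _ (by omega)
      omega

theorem KC.mono {i A n p q A' n' p' q' : ℕ} (h : KC i A n p q) (h' : KC i A' n' p' q')
    (hn : n ≤ n') : p ≤ p' ∧ q ≤ q' := KC.mono_aux h h' hn

theorem KC.up_zero {i A n p q : ℕ} (h : KC i A n p q) : A = 1 → p = 0 := by
  induction h with
  | single i A hA =>
    intro h1
    subst h1
    exact Nat.choose_eq_zero_of_lt (by omega)
  | cons i A A' r p q h hA ih =>
    intro h1
    subst h1
    have h2 := h.top_pos.2
    have h3 := ih (by omega)
    rw [h3, Nat.choose_eq_zero_of_lt (by omega)]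

theorem KC.lift {i A n p q : ℕ} (h : KC i A n p q) : 2 ≤ A →
    ∃ p2 q2, KC (i + 1) (A - 1) p p2 q2 ∧ q2 ≤ n := by
  induction h with
  | single i A hA =>
    intro h2
    have hc := KC.single (i + 1) (A - 1) (by omega)
    have e : A - 1 + (i + 1) = A + i := by omega
    rw [e] at hc
    exact ⟨_, _, hc, le_rfl⟩
  | cons i A A' r p q h hA ih =>
    intro h2
    by_cases h3 : 2 ≤ A'
    · obtain ⟨p2, q2, hc, hq⟩ := ih h3
      have hc2 := KC.cons (i + 1) (A - 1) (A' - 1) p p2 q2 hc (by omega)
      have e : A - 1 + (i + 1) + 1 = A + i + 1 := by omega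
      rw [e] at hc2
      refine ⟨_, _, hc2, ?_⟩
      exact Nat.add_le_add_left hq _
    · have h4 := h.top_pos.2
      have h5 := h.up_zero (by omega)
      have hc2 := KC.single (i + 2) (A - 1) (by omega)
      have e : A - 1 + (i + 2) = A + i + 1 := by omega
      rw [e] at hc2
      rw [h5, Nat.add_zero]
      exact ⟨_, _, hc2, Nat.le_add_right _ _⟩

/-- If `m ≤ up_i(n)` then `low_{i+1}(m) ≤ n`. -/
theorem KC.low_le {i A n p q A' m p' q' : ℕ} (h : KC i A n p q) (h' : KC (i + 1) A' m p' q')
    (hm : m ≤ p) : q' ≤ n := by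
  have hA := h.top_pos.2
  by_cases h2 : 2 ≤ A
  · obtain ⟨p2, q2, hc, hq⟩ := h.lift h2
    exact (KC.mono h' hc hm).2.trans hq
  · exfalso
    have h3 := h.up_zero (by omega)
    have h4 := h'.bounds.1
    have h5 := h'.top_pos.2
    have := Nat.choose_pos (n := A' + (i + 1) - 1) (k := i + 1) (by omega)
    omega

end RR722
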