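import Mathlib
set_option autoImplicit false
namespace RR722

/-- The normalised step quantity. -/
noncomputable def D1 (i A lam lam' x Z : ℝ) : ℝ :=
  (i + 1) * Z + (i - 1) * (A ^ 2 + lam * A - (1 + (i + 1) * lam' - i * lam) / x) / Z
    + lam * A * x - 2 * i * A - 1 / x - (1 + (i + 1) * lam' - i * lam)

/-- the step with `p'` bounded through the induction hypothesis. -/
theorem X_of_D1 {i A lam lam' Q r p' q' : ℝ} (hi : 1 < i) (hQ : 0 < Q) (hr : 0 < r) (hq : 0 < q')
    (IH : (i - 1) * r ^ 2 ≤ i * p' * q' + (1 + lam') * r * q')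
    (hD : 0 ≤ D1 i A lam lam' (Q / r) ((i - 1) * r / q')) :
    i * (A * Q / i + r) ^ 2 ≤ (i + 1) * ((A - 1) * (A * Q / i) / (i + 1) + p') * (Q + q')
      + (1 + lam) * (A * Q / i + r) * (Q + q') := by
  have hi0 : 0 < i := by linarith
  have hi1 : 0 < i - 1 := by linarith
  have key : D1 i A lam lam' (Q / r) ((i - 1) * r / q') * (q' * Q * r) =
      q' * (lam * A * Q ^ 2 + (A + lam) * A * Q * q' + i * (1 + lam) * r * (Q + q')
        - 2 * i * A * r * Q - i ^ 2 * r ^ 2)
        + (i + 1) * (Q + q') * ((i - 1) * r ^ 2 - (1 + lam') * r * q') := by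
    unfold D1
    field_simp
    ring
  have h1 : 0 ≤ D1 i A lam lam' (Q / r) ((i - 1) * r / q') * (q' * Q * r) := by positivity
  rw [key] at h1
  have h2 : (i + 1) * (Q + q') * ((i - 1) * r ^ 2 - (1 + lam') * r * q') ≤
      (i + 1) * (Q + q') * (i * p' * q') := by
    apply mul_le_mul_of_nonneg_left _ (by positivity)
    linarith
  have h3 : 0 ≤ (lam * A * Q ^ 2 + (A + lam) * A * Q * q' + i * (1 + lam) * r * (Q + q')
        - 2 * i * A * r * Q - i ^ 2 * r ^ 2) + (i + 1) * (Q + q') * (i * p') := by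
    have h4 : 0 ≤ q' * ((lam * A * Q ^ 2 + (A + lam) * A * Q * q' + i * (1 + lam) * r * (Q + q')
        - 2 * i * A * r * Q - i ^ 2 * r ^ 2) + (i + 1) * (Q + q') * (i * p')) := by
      nlinarith
    exact nonneg_of_mul_nonneg_right h4 hq
  have h5 : i * ((i + 1) * ((A - 1) * (A * Q / i) / (i + 1) + p') * (Q + q')
      + (1 + lam) * (A * Q / i + r) * (Q + q') - i * (A * Q / i + r) ^ 2) =
      (lam * A * Q ^ 2 + (A + lam) * A * Q * q' + i * (1 + lam) * r * (Q + q')
        - 2 * i * A * r * Q - i ^ 2 * r ^ 2) + (i + 1) * (Q + q') * (i * p') := by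
    field_simp
    ring
  have h6 := nonneg_of_mul_nonneg_right (h5 ▸ h3 : 0 ≤ i * _) hi0
  linarith

/-- `D1` rewritten through `z = A - Z`, `u = 1/x`. -/
theorem D1_eq {i A lam lam' x Z : ℝ} (hx : x ≠ 0) (hZ : Z ≠ 0) :
    D1 i A lam lam' x Z = (i - 1) * (A - Z) ^ 2 / Z - 2 * (A - Z) + (i - 1) * (lam * A) / Z
      + lam * A * x - (1 + (i + 1) * lam' - i * lam) - 1 / x
      - (i - 1) * (1 + (i + 1) * lam' - i * lam) * (1 / x) / Z := by
  unfold D1
  field_simp
  ring

end RR722
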