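import Mathlib
import Pool.Agent.Helper722.RR.StepReal
set_option autoImplicit false
namespace RR722.DB

theorem D1_big
    (E_big : ∀ (i A' t z : ℝ) (_hi : 6 ≤ i) (_hA' : 2 ≤ A') (_ht : t = 0 ∨ 1 ≤ t)
      (_hA2 : A' = 2 ∨ 3 ≤ A') (_hz1 : z ≤ t + 1) (_hz2 : t - 1 ≤ z),
      0 ≤ (i - 1) * z ^ 2 / (A' + t - z) - 2 * z + (5/6) * ((A' + t) / (A' + t - z)) + (A' + t) / i
        + (i - 1) * t / i - 2/5)
    (i A' t x Z : ℝ) (hi : 6 ≤ i) (hA' : 2 ≤ A') (ht : t = 0 ∨ 1 ≤ t) (hA2 : A' = 2 ∨ 3 ≤ A')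
    (hZ1 : A' - 1 ≤ Z) (hZ2 : Z ≤ A' + 1) (hx : A' + t + (i - 1) * t ≤ x * (A' + t)) :
    0 ≤ D1 i (A' + t) (1/i + 4 / (A' + t)) (1/(i - 1) + 4 / A') x Z := by
  have ht0 : 0 ≤ t := by rcases ht with h | h <;> linarith
  have hAp : 0 < A' := by linarith
  have hA : 0 < A' + t := by linarith
  have hZ : 0 < Z := by linarith
  have hi0 : 0 < i := by linarith
  have hi1 : 0 < i - 1 := by linarith
  set A := A' + t with hAdef
  have hx1 : 1 ≤ x := by
    by_contra hcon
    push Not at hcon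
    have h1 : x * A < 1 * A := mul_lt_mul_of_pos_right hcon hA
    have h2 : 0 ≤ (i - 1) * t := mul_nonneg hi1.le ht0
    linarith
  have hx0 : 0 < x := by linarith
  have hE := E_big i A' t (A - Z) hi hA' ht hA2 (by linarith) (by linarith)
  have hZe : A' + t - (A - Z) = Z := by rw [hAdef]; ring
  rw [hZe, ← hAdef] at hE
  rw [D1_eq hx0.ne' hZ.ne']
  set u := 1 / x with hu
  have hu0 : 0 < u := by positivity
  have hu1 : u ≤ 1 := by
    rw [hu, div_le_one hx0]; exact hx1
  have hux : u * x = 1 := by rw [hu]; field_simp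
  have huA : u * (A + (i - 1) * t) ≤ A := by
    have h1 := mul_le_mul_of_nonneg_left hx hu0.le
    have h2 : u * (x * A) = A := by rw [← mul_assoc, hux, one_mul]
    rw [h2] at h1
    exact h1
  have hlam : (1 / i + 4 / A) * A = A / i + 4 := by field_simp
  set K := 1 + (i + 1) * (1 / (i - 1) + 4 / A') - i * (1 / i + 4 / A) with hK
  have hKe : K = (i + 1) / (i - 1) + 4 / A' + 4 * i * t / (A * A') := by
    rw [hK]
    have : A' = A - t := by rw [hAdef]; ring
    have h1 : 4 * i * t / (A * A') = 4 * i / A' - 4 * i / A := by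
      rw [div_sub_div _ _ hAp.ne' hA.ne']
      rw [div_eq_div_iff (by positivity) (by positivity)]
      rw [this]
      ring
    rw [h1]
    field_simp
    ring
  -- (1)
  have s1 : A / i + 4 + (i - 1) * t / i + 4 * (i - 1) * t / A ≤ (A / i + 4) * x := by
    have h1 : (A / i + 4) * ((A + (i - 1) * t) / A) ≤ (A / i + 4) * x := by
      apply mul_le_mul_of_nonneg_left _ (by positivity)
      rw [div_le_iff₀ hA]
      exact hx
    refine le_trans (le_of_eq ?_) h1
    field_simp
    ring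
  -- (2)
  have s2 : K ≤ 7 / 5 + 2 + 2 * i * t / A := by
    rw [hKe]
    have h1 : (i + 1) / (i - 1) ≤ 7 / 5 := by
      rw [div_le_div_iff₀ hi1 (by norm_num)]
      linarith
    have h2 : 4 / A' ≤ 2 := by
      rw [div_le_iff₀ hAp]; linarith
    have h3 : 4 * i * t / (A * A') ≤ 2 * i * t / A := by
      rw [div_le_div_iff₀ (by positivity) hA]
      have : 0 ≤ 2 * i * t * A * (A' - 2) :=
        mul_nonneg (by positivity) (by linarith)
      linarith
    linarith
  -- (3)
  have s3 : (i - 1) * K * u ≤ (i + 1) + 2 * i := by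
    have e1 : (i - 1) * K * u = (i + 1) * u + (4 * (i - 1) * u + 4 * i * (((i - 1) * t * u) / A)) / A' := by
      rw [hKe]
      field_simp
      ring
    have h1 : (i - 1) * t * u / A ≤ 1 - u := by
      rw [div_le_iff₀ hA]
      linarith
    have h2 : (4 * (i - 1) * u + 4 * i * (((i - 1) * t * u) / A)) / A' ≤ 2 * i := by
      rw [div_le_iff₀ hAp]
      have h3 : 4 * i * (((i - 1) * t * u) / A) ≤ 4 * i * (1 - u) :=
        mul_le_mul_of_nonneg_left h1 (by positivity)
      have h4 : 2 * i * 2 ≤ 2 * i * A' := mul_le_mul_of_nonneg_left hA' (by positivity)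
      linarith
    have h5 : (i + 1) * u ≤ (i + 1) * 1 := mul_le_mul_of_nonneg_left hu1 (by linarith)
    rw [e1]
    linarith
  have s3' : (i - 1) * K * u / Z ≤ (3 * i + 1) / Z := by
    apply div_le_div_of_nonneg_right _ hZ.le
    linarith
  have s4 : (5 / 6) * (A / Z) ≤ (i - 1) * (A / i + 4) / Z - (3 * i + 1) / Z := by
    rw [← sub_div, ← mul_div_assoc]
    apply div_le_div_of_nonneg_right _ hZ.le
    have h1 : (5 / 6) * A ≤ (i - 1) * (A / i) := by
      rw [← mul_div_assoc, le_div_iff₀ hi0]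
      have h2 : 0 ≤ A * (i - 6) := mul_nonneg hA.le (by linarith)
      linarith
    have h3 : (i - 1) * (A / i + 4) = (i - 1) * (A / i) + 4 * (i - 1) := by ring
    rw [h3]
    linarith
  have s5 : 0 ≤ 4 * (i - 1) * t / A - 2 * i * t / A := by
    rw [← sub_div]
    apply div_nonneg _ hA.le
    have h2 : 0 ≤ t * (i - 2) := mul_nonneg ht0 (by linarith)
    linarith
  rw [hlam]
  have goal : (i - 1) * (A - Z) ^ 2 / Z - 2 * (A - Z) + (5 / 6) * (A / Z) + A / i
        + (i - 1) * t / i - 2/5 ≤ (i - 1) * (A - Z) ^ 2 / Z - 2 * (A - Z) + (i - 1) * (A / i + 4) / Z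
      + (A / i + 4) * x - K - u - (i - 1) * K * u / Z := by
    linarith
  exact hE.trans goal

end RR722.DB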