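import Mathlib
import Pool.Agent.Helper722.RR.StepReal
set_option autoImplicit false
namespace RR722.D5

theorem D1_five (A' t x Z : ℝ) (hA' : 2 ≤ A') (ht : t = 0 ∨ 1 ≤ t) (hZ1 : A' - 1 ≤ Z)
    (hZ2 : Z ≤ A' + 1) (hx : A' + t + 4 * t ≤ x * (A' + t)) :
    0 ≤ D1 5 (A' + t) (1/5 + 3 / (A' + t)) (1/4 + 9 / (5 * A')) x Z := by
  have ht0 : 0 ≤ t := by
    rcases ht with h | h <;> linarith
  have hZ : 1 ≤ Z := by linarith
  have hZpos : 0 < Z := by linarith
  obtain ⟨A, hAdef⟩ : ∃ A, A = A' + t := ⟨_, rfl⟩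
  rw [← hAdef] at hx ⊢
  have hA : 2 ≤ A := by linarith
  have hApos : 0 < A := by linarith
  have hA'pos : 0 < A' := by linarith
  have hx1 : 1 ≤ x := by
    by_contra hlt
    push Not at hlt
    nlinarith
  have hxpos : 0 < x := by linarith
  rw [D1_eq hxpos.ne' hZpos.ne']
  obtain ⟨u, hu⟩ : ∃ u, u = 1 / x := ⟨_, rfl⟩
  rw [← hu]
  have hux : u * x = 1 := by
    rw [hu, one_div, inv_mul_cancel₀ hxpos.ne']
  have hupos : 0 < u := by rw [hu]; positivity
  have hu1 : u ≤ 1 := by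
    rw [hu, div_le_one hxpos]
    exact hx1
  have huA : u * (A + 4 * t) ≤ A := by
    have h1 : u * (A + 4 * t) ≤ u * (x * A) := mul_le_mul_of_nonneg_left hx hupos.le
    calc u * (A + 4 * t) ≤ u * (x * A) := h1
      _ = (u * x) * A := by ring
      _ = A := by rw [hux, one_mul]
  have hlam : (1 / 5 + 3 / A) * A = A / 5 + 3 := by
    field_simp
  rw [hlam]
  obtain ⟨K, hK⟩ : ∃ K, K = 1 + (5 + 1) * (1 / 4 + 9 / (5 * A')) - 5 * (1 / 5 + 3 / A) := ⟨_, rfl⟩
  rw [← hK]
  have hKeq : K * (A * A') = 3 / 2 * (A * A') - 21 / 5 * A + 15 * t := by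
    have ht' : t = A - A' := by linarith
    rw [hK, ht']
    field_simp
    ring
  have hK12 : 4 * K * u ≤ 12 := by
    have hAA : 0 < A * A' := by positivity
    have h1 : (4 * K * u) * (A * A') ≤ 12 * (A * A') := by
      have h2 : (4 * K * u) * (A * A') = 4 * u * (K * (A * A')) := by ring
      rw [h2, hKeq]
      have h3 : 6 * u * A' + 15 - 31.8 * u ≤ 12 * A' := by nlinarith
      have h4 : 60 * t * u ≤ 15 * A * (1 - u) := by nlinarith
      have h5 : A * (6 * u * A' + 15 - 31.8 * u) ≤ A * (12 * A') :=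
        mul_le_mul_of_nonneg_left h3 hApos.le
      nlinarith
    exact le_of_mul_le_mul_right h1 hAA
  have hKA : K * A ≤ 3 / 2 * A + 7.5 * t := by
    have h1 : (K * A) * A' ≤ (3 / 2 * A + 7.5 * t) * A' := by
      have h2 : (K * A) * A' = K * (A * A') := by ring
      rw [h2, hKeq]
      nlinarith
    exact le_of_mul_le_mul_right h1 hA'pos
  have T1 : A / 5 + 4 * t / 5 + 1 / 2 ≤ (A / 5 + 3) * x - K - u := by
    have h1 : (A / 5 + 4 * t / 5 + 1 / 2) * A ≤ ((A / 5 + 3) * x - K - u) * A := by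
      have h2 : (A / 5 + 3) * (A + 4 * t) ≤ (A / 5 + 3) * (x * A) :=
        mul_le_mul_of_nonneg_left hx (by positivity)
      have h3 : u * A ≤ A := by nlinarith
      nlinarith
    exact le_of_mul_le_mul_right h1 hApos
  have T2 : (4 / 5 * A) / Z ≤ (5 - 1) * (A / 5 + 3) / Z - (5 - 1) * K * u / Z := by
    rw [← sub_div]
    apply div_le_div_of_nonneg_right _ hZpos.le
    linarith
  have T3 : 0 ≤ (5 - 1) * (A - Z) ^ 2 / Z - 2 * (A - Z) + (4 / 5 * A) / Z
      + (A / 5 + 4 * t / 5 + 1 / 2) := by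
    rcases le_or_gt (A - Z) 0 with hz | hz
    · have h1 : 0 ≤ (5 - 1) * (A - Z) ^ 2 / Z := by
        apply div_nonneg _ hZpos.le
        nlinarith [sq_nonneg (A - Z)]
      have h2 : 0 ≤ (4 / 5 * A) / Z := by positivity
      have h3 : 0 ≤ A / 5 + 4 * t / 5 + 1 / 2 := by positivity
      linarith
    · obtain ⟨z, hzdef⟩ : ∃ z, z = A - Z := ⟨_, rfl⟩
      rw [← hzdef] at hz ⊢
      have hZA : Z ≤ A := by linarith
      have hzt : z ≤ t + 1 := by linarith
      have h1 : (4 * z ^ 2) / A ≤ (5 - 1) * z ^ 2 / Z := by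
        have : (5 - 1 : ℝ) * z ^ 2 = 4 * z ^ 2 := by ring
        rw [this]
        exact div_le_div_of_nonneg_left (by positivity) hZpos hZA
      have h2 : 4 / 5 ≤ (4 / 5 * A) / Z := by
        rw [le_div_iff₀ hZpos]
        nlinarith
      have h3 : 0 ≤ (4 * z ^ 2) / A - 2 * z + 4 / 5 + (A / 5 + 4 * t / 5 + 1 / 2) := by
        have h4 : (4 * z ^ 2) / A - 2 * z + 4 / 5 + (A / 5 + 4 * t / 5 + 1 / 2)
            = ((A - 5 * z) ^ 2 - 5 * z ^ 2 + 4 * t * A + 6.5 * A) / (5 * A) := by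
          field_simp
          ring
        rw [h4]
        apply div_nonneg _ (by positivity)
        have htA : 0 ≤ t * A := mul_nonneg ht0 hApos.le
        rcases le_or_gt (A / 2) z with h5 | h5
        · have h6 : (3 * z) ^ 2 ≤ (5 * z - A) ^ 2 :=
            pow_le_pow_left₀ (by linarith) (by linarith) 2
          have h7 : (A - 5 * z) ^ 2 = (5 * z - A) ^ 2 := by ring
          have h8 : (3 * z) ^ 2 = 9 * z ^ 2 := by ring
          have h9 : 0 ≤ z ^ 2 := sq_nonneg z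
          rw [h7]
          linarith
        · have h6 : z * z ≤ (A / 2) * (t + 1) :=
            mul_le_mul h5.le hzt hz.le (by linarith)
          have h7 : z ^ 2 = z * z := sq z
          have h8 : 0 ≤ (A - 5 * z) ^ 2 := sq_nonneg _
          rw [h7]
          linarith
      linarith
  have e1 : (5 - 1) * (A - Z) ^ 2 / Z - 2 * (A - Z) + (5 - 1) * (A / 5 + 3) / Z
      + (A / 5 + 3) * x - K - u - (5 - 1) * K * u / Z
      = ((5 - 1) * (A - Z) ^ 2 / Z - 2 * (A - Z) + (4 / 5 * A) / Z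
      + (A / 5 + 4 * t / 5 + 1 / 2)) + (((A / 5 + 3) * x - K - u) - (A / 5 + 4 * t / 5 + 1 / 2))
      + (((5 - 1) * (A / 5 + 3) / Z - (5 - 1) * K * u / Z) - (4 / 5 * A) / Z) := by ring
  rw [e1]
  linarith

end RR722.D5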