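import Mathlib
import Pool.Agent.Helper722.RR.StepReal
set_option autoImplicit false
namespace RR722.D4

theorem G_nonneg {z Z t : ℝ} (hZ : 1 ≤ Z) (hz1 : t - 1 ≤ z) (hz2 : z ≤ t + 1)
    (ht : t = 0 ∨ 1 ≤ t) :
    0 ≤ 3 * z ^ 2 - 7 / 4 * z * Z + Z ^ 2 / 4 + 3 / 4 * t * Z - 7 / 60 * Z + 3 / 4 * z + 2 / 5 := by
  rcases ht with rfl | ht
  · rcases le_total z (-1 / 15) with h | h
    · nlinarith [mul_nonneg (by linarith : (0:ℝ) ≤ -1/15 - z) (by linarith : 0 ≤ Z),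
        sq_nonneg (z + 1/8), sq_nonneg Z]
    · nlinarith [sq_nonneg (Z / 2 - (7 / 4 * z + 7 / 60)), mul_nonneg (by linarith : (0:ℝ) ≤ z + 1/15)
        (by linarith : (0:ℝ) ≤ 1 - z)]
  · have hz0 : 0 ≤ z := by linarith
    rcases le_total z 2 with h2 | h2
    · have h1 : Z ≤ t * Z := by nlinarith
      rcases le_total z (1 / 4) with h | h
      · nlinarith [mul_nonneg (by linarith : (0:ℝ) ≤ 1/4 - z) (by linarith : 0 ≤ Z),
          sq_nonneg z, sq_nonneg Z]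
      · nlinarith [sq_nonneg (Z / 2 + (19 / 30 - 7 / 4 * z)),
          mul_nonneg (by linarith : (0:ℝ) ≤ z - 1/4) (by linarith : (0:ℝ) ≤ 2 - z)]
    · have h1 : (z - 1) * Z ≤ t * Z := by nlinarith
      nlinarith [sq_nonneg (Z / 2 - (z + 13 / 15)), mul_nonneg (by linarith : (0:ℝ) ≤ z - 2)
        (by linarith : (0:ℝ) ≤ z - 2)]

theorem D1_four (A' t x Z : ℝ) (hA' : 2 ≤ A') (ht : t = 0 ∨ 1 ≤ t) (hZ1 : A' - 1 ≤ Z)
    (hZ2 : Z ≤ A' + 1) (hx : A' + t + 3 * t ≤ x * (A' + t)) :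
    0 ≤ D1 4 (A' + t) (1/4 + 9 / (5 * (A' + t))) (1/3 + 6 / (5 * A')) x Z := by
  have ht0 : 0 ≤ t := by rcases ht with rfl | h <;> linarith
  set A := A' + t with hA
  have hA2 : 2 ≤ A := by linarith
  have hA0 : 0 < A := by linarith
  have hA'0 : 0 < A' := by linarith
  have hZ0 : 0 < Z := by linarith
  have hx0 : 0 < x := by
    by_contra h
    push Not at h
    nlinarith
  have hG := G_nonneg (z := A - Z) (Z := Z) (t := t) (by linarith) (by linarith) (by linarith) ht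
  rw [D1_eq hx0.ne' hZ0.ne']
  -- abbreviations
  obtain ⟨u, hu⟩ : ∃ u, u = 1 / x := ⟨_, rfl⟩
  obtain ⟨a, ha⟩ : ∃ a, a = 1 / A' := ⟨_, rfl⟩
  obtain ⟨s, hs⟩ : ∃ s, s = 1 / A := ⟨_, rfl⟩
  have hu0 : 0 < u := by rw [hu]; positivity
  have ha0 : 0 < a := by rw [ha]; positivity
  have hs0 : 0 < s := by rw [hs]; positivity
  have ha2 : a ≤ 1 / 2 := by rw [ha]; exact one_div_le_one_div_of_le (by norm_num) hA'
  have hux : u * x = 1 := by rw [hu]; field_simp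
  have haA : a * A' = 1 := by rw [ha]; field_simp
  have hsA : s * A = 1 := by rw [hs]; field_simp
  have hts : t * s * a = a - s := by
    have h1 : t = A - A' := by rw [hA]; ring
    rw [h1, ha, hs]; field_simp
  have hx1 : 1 + 3 * (t * s) ≤ x := by
    have h1 : (A + 3 * t) * s ≤ x * A * s := mul_le_mul_of_nonneg_right hx hs0.le
    have h2 : x * A * s = x := by rw [mul_assoc, mul_comm A, hsA, mul_one]
    have h3 : (A + 3 * t) * s = 1 + 3 * (t * s) := by rw [add_mul, mul_comm A, hsA]; ring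
    rw [h2, h3] at h1; exact h1
  have hts0 : 0 ≤ t * s := by positivity
  have hu1 : u ≤ 1 := by nlinarith
  have htu : 3 * (t * s) * u ≤ 1 - u := by
    have h1 : (1 + 3 * (t * s)) * u ≤ x * u := mul_le_mul_of_nonneg_right hx1 hu0.le
    nlinarith
  have hlamA : (1/4 + 9 / (5 * A)) * A = A / 4 + 9 / 5 := by field_simp; try ring
  have hK : 1 + ((4:ℝ) + 1) * (1/3 + 6 / (5 * A')) - 4 * (1/4 + 9 / (5 * A)) =
      5 / 3 + 6 * a - 36 / 5 * s := by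
    rw [ha, hs]; field_simp; ring
  obtain ⟨K, hKdef⟩ : ∃ K, K = 5 / 3 + 6 * a - 36 / 5 * s := ⟨_, rfl⟩
  have hK1 : K ≤ 5 / 3 + 18 / 5 * (t * s) := by
    have h1 : K = 5 / 3 - 6 / 5 * a + 36 / 5 * (t * s * a) := by rw [hKdef, hts]; ring
    rw [h1]
    nlinarith [mul_le_mul_of_nonneg_left ha2 hts0]
  have hK2 : 3 * K * u ≤ 5 := by
    have h1 : 3 * K * u = 5 * u - 18 / 5 * a * u + 36 / 5 * (3 * (t * s) * u) * a := by
      have : K = 5 / 3 - 6 / 5 * a + 36 / 5 * (t * s * a) := by rw [hKdef, hts]; ring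
      rw [this]; ring
    have h2 : 3 * (t * s) * u * a ≤ (1 - u) * a := mul_le_mul_of_nonneg_right htu ha0.le
    have h3 : (1 - u) * a ≤ (1 - u) * (1 / 2) := mul_le_mul_of_nonneg_left ha2 (by linarith)
    have h4 : 0 ≤ a * u := by positivity
    rw [h1]
    nlinarith
  rw [hlamA, hK, ← hKdef, ← hu]
  have hlx : A / 4 + 3 / 4 * t + 9 / 5 + 27 / 5 * (t * s) ≤ (A / 4 + 9 / 5) * x := by
    have h1 : (A / 4 + 9 / 5) * (1 + 3 * (t * s)) ≤ (A / 4 + 9 / 5) * x :=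
      mul_le_mul_of_nonneg_left hx1 (by linarith)
    have h2 : (A / 4 + 9 / 5) * (1 + 3 * (t * s)) =
        A / 4 + 9 / 5 + 3 / 4 * t * (s * A) + 27 / 5 * (t * s) := by ring
    rw [h2, hsA] at h1
    linarith
  have key : 0 ≤ Z * ((4 - 1) * (A - Z) ^ 2 / Z - 2 * (A - Z) + (4 - 1) * (A / 4 + 9 / 5) / Z
      + (A / 4 + 9 / 5) * x - K - u - (4 - 1) * K * u / Z) := by
    have e1 : Z * ((4 - 1) * (A - Z) ^ 2 / Z - 2 * (A - Z) + (4 - 1) * (A / 4 + 9 / 5) / Z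
      + (A / 4 + 9 / 5) * x - K - u - (4 - 1) * K * u / Z) =
      3 * (A - Z) ^ 2 - 2 * (A - Z) * Z + 3 * (A / 4 + 9 / 5) - 3 * K * u +
        Z * ((A / 4 + 9 / 5) * x - K - u) := by
      field_simp; ring
    rw [e1]
    have h5 : A / 4 + 3 / 4 * t - 13 / 15 ≤ (A / 4 + 9 / 5) * x - K - u := by linarith
    have h6 := mul_le_mul_of_nonneg_left h5 hZ0.le
    have e2 : 3 * (A - Z) ^ 2 - 2 * (A - Z) * Z + 3 * (A / 4 + 9 / 5) - 5 +
        Z * (A / 4 + 3 / 4 * t - 13 / 15) =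
        3 * (A - Z) ^ 2 - 7 / 4 * (A - Z) * Z + Z ^ 2 / 4 + 3 / 4 * t * Z - 7 / 60 * Z +
          3 / 4 * (A - Z) + 2 / 5 := by ring
    linarith
  exact (mul_nonneg_iff_of_pos_left hZ0).1 key

end RR722.D4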