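import Mathlib
import Pool.Agent.Helper722.RR.StepReal
set_option autoImplicit false
namespace RR722.D3

theorem h170_poly3 (A Z t : ℝ) (hA : 2 ≤ A) (hZ : 1 ≤ Z)
    (ht : (t = 0 ∧ -1 ≤ A - Z ∧ A - Z ≤ 1) ∨ (1 ≤ t ∧ t - 1 ≤ A - Z ∧ A - Z ≤ t + 1)) :
    0 ≤ (30 * (A - Z) ^ 2 - 25 * (A - Z) * Z + 5 * Z ^ 2 + 10 * t * Z - 7 * Z + 10 * (A - Z) - 4) * A
      + (36 * t + 54) * Z + 108 := by
  rcases ht with ⟨ht, h1, h2⟩ | ⟨ht, h1, h2⟩
  · subst ht
    obtain ⟨z, rfl⟩ : ∃ z, Z = A - z := ⟨A - Z, by ring⟩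
    have e0 : A - (A - z) = z := by ring
    rw [e0] at h1 h2 ⊢
    have e : (30 * z ^ 2 - 25 * z * (A - z) + 5 * (A - z) ^ 2 + 10 * 0 * (A - z) - 7 * (A - z) + 10 * z - 4) * A
      + (36 * 0 + 54) * (A - z) + 108 = 60 * A * z ^ 2 - z * (35 * A ^ 2 - 17 * A + 54) +
        (5 * A ^ 3 - 7 * A ^ 2 + 50 * A + 108) := by ring
    rw [e]
    by_cases hA5 : A ≤ 5
    · have h3 : 0 ≤ A * (7931 * A - 490 * A ^ 2 - 25 * A ^ 3) := by
        have : 0 ≤ 7931 - 490 * A - 25 * A ^ 2 := by nlinarith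
        have h4 : A * (7931 * A - 490 * A ^ 2 - 25 * A ^ 3) = A ^ 2 * (7931 - 490 * A - 25 * A ^ 2) := by ring
        rw [h4]; positivity
      have h5 : 240 * A * (60 * A * z ^ 2 - z * (35 * A ^ 2 - 17 * A + 54) +
        (5 * A ^ 3 - 7 * A ^ 2 + 50 * A + 108)) = (120 * A * z - (35 * A ^ 2 - 17 * A + 54)) ^ 2 +
          (A * (7931 * A - 490 * A ^ 2 - 25 * A ^ 3) + 27756 * A - 2916) := by ring
      have h6 : 0 ≤ 240 * A * (60 * A * z ^ 2 - z * (35 * A ^ 2 - 17 * A + 54) +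
        (5 * A ^ 3 - 7 * A ^ 2 + 50 * A + 108)) := by
        rw [h5]
        have := sq_nonneg (120 * A * z - (35 * A ^ 2 - 17 * A + 54))
        linarith
      exact nonneg_of_mul_nonneg_right h6 (by positivity)
    · push Not at hA5
      have h3 : 60 * A * z ^ 2 - z * (35 * A ^ 2 - 17 * A + 54) +
        (5 * A ^ 3 - 7 * A ^ 2 + 50 * A + 108) = (5 * A ^ 3 - 42 * A ^ 2 + 127 * A + 54) +
          (1 - z) * (35 * A ^ 2 - 17 * A + 54 - 60 * A * (z + 1)) := by ring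
      rw [h3]
      have h4 : 0 ≤ 35 * A ^ 2 - 17 * A + 54 - 60 * A * (z + 1) := by
        have : A * (z + 1) ≤ A * 2 := mul_le_mul_of_nonneg_left (by linarith) (by linarith)
        nlinarith
      have h5 : 0 ≤ (1 - z) * (35 * A ^ 2 - 17 * A + 54 - 60 * A * (z + 1)) :=
        mul_nonneg (by linarith) h4
      have h6 : 0 ≤ 5 * A ^ 3 - 42 * A ^ 2 + 127 * A + 54 := by
        have : 5 * A ^ 3 - 42 * A ^ 2 + 127 * A + 54 = A * (5 * (A - 21 / 5) ^ 2 + 194 / 5) + 54 := by ring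
        rw [this]; positivity
      linarith
  · have hz0 : 0 ≤ A - Z := by linarith
    obtain ⟨z, rfl⟩ : ∃ z, A = Z + z := ⟨A - Z, by ring⟩
    have e0 : Z + z - Z = z := by ring
    rw [e0] at h1 h2 hz0 ⊢
    by_cases hz2 : 2 ≤ z
    · have h3 : (z - 1) * Z ≤ t * Z := mul_le_mul_of_nonneg_right (by linarith) (by linarith)
      have h4 : 0 ≤ 30 * z ^ 2 - 25 * z * Z + 5 * Z ^ 2 + 10 * t * Z - 7 * Z + 10 * z - 4 := by
        nlinarith [sq_nonneg (10 * Z - (15 * z + 17))]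
      positivity
    · push Not at hz2
      have h3 : 1 * Z ≤ t * Z := mul_le_mul_of_nonneg_right ht (by linarith)
      have h4 : 0 ≤ (30 * z ^ 2 - 25 * z * Z + 5 * Z ^ 2 + 10 * t * Z - 7 * Z + 10 * z - 4) + 54 := by
        nlinarith [sq_nonneg (10 * Z - (25 * z - 3))]
      have h5 : 0 ≤ ((30 * z ^ 2 - 25 * z * Z + 5 * Z ^ 2 + 10 * t * Z - 7 * Z + 10 * z - 4) + 54) * (Z + z) :=
        mul_nonneg h4 (by linarith)
      nlinarith

theorem D1_three (A' t x Z : ℝ) (hA' : 2 ≤ A') (ht : t = 0 ∨ 1 ≤ t) (hZ1 : A' - 1 ≤ Z)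
    (hZ2 : Z ≤ A' + 1) (hx : A' + t + 2 * t ≤ x * (A' + t)) :
    0 ≤ D1 3 (A' + t) (1/3 + 6 / (5 * (A' + t))) (1/3) x Z := by
  have ht0 : 0 ≤ t := by rcases ht with h | h <;> linarith
  have hZ : 1 ≤ Z := by linarith
  have hp := h170_poly3 (A' + t) Z t (by linarith) hZ (by
    rcases ht with h | h
    · left; refine ⟨h, ?_, ?_⟩ <;> linarith
    · right; refine ⟨h, ?_, ?_⟩ <;> linarith)
  have hA : 2 ≤ A' + t := by linarith
  set A := A' + t with hAdef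
  have hA0 : 0 < A := by linarith
  have hx1 : 1 ≤ x := by
    by_contra hc
    push Not at hc
    have : x * A < 1 * A := mul_lt_mul_of_pos_right hc hA0
    linarith
  have hx0 : 0 < x := by linarith
  have hZ0 : 0 < Z := by linarith
  rw [D1_eq hx0.ne' hZ0.ne']
  set u := 1 / x with hu
  have hu0 : 0 < u := by positivity
  have hu1 : u ≤ 1 := by rw [hu, div_le_one hx0]; exact hx1
  set q := 1 / A with hq
  have hq0 : 0 < q := by positivity
  have hAq : A * q = 1 := by rw [hq]; field_simp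
  have hq2 : q ≤ 1 / 2 := by rw [hq]; exact one_div_le_one_div_of_le (by norm_num) hA
  have e1 : (1 / 3 + 6 / (5 * A)) * A = A / 3 + 6 / 5 := by field_simp
  have e2 : 1 + (3 + 1) * (1 / 3) - 3 * (1 / 3 + 6 / (5 * A)) = 4 / 3 - 18 / 5 * q := by
    rw [hq]; field_simp; ring
  rw [e1, e2]
  have hx2 : 1 + 2 * t * q ≤ x := by
    have h1 : (A + 2 * t) * q ≤ x * A * q := mul_le_mul_of_nonneg_right (by linarith) hq0.le
    have h2 : (A + 2 * t) * q = 1 + 2 * t * q := by linear_combination hAq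
    have h3 : x * A * q = x := by linear_combination x * hAq
    linarith
  have hN : 0 ≤ 2 * (A - Z) ^ 2 - 2 * (A - Z) * Z + 2 * (A / 3 + 6 / 5) +
      (A / 3 + 6 / 5) * x * Z - (4 / 3 - 18 / 5 * q) * Z - u * Z - 2 * (4 / 3 - 18 / 5 * q) * u := by
    have h1 : (A / 3 + 6 / 5) * (1 + 2 * t * q) * Z ≤ (A / 3 + 6 / 5) * x * Z := by
      apply mul_le_mul_of_nonneg_right _ hZ0.le
      apply mul_le_mul_of_nonneg_left hx2 (by positivity)
    have h2 : u * (Z + 2 * (4 / 3 - 18 / 5 * q)) ≤ 1 * (Z + 2 * (4 / 3 - 18 / 5 * q)) :=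
      mul_le_mul_of_nonneg_right hu1 (by linarith)
    have h3 : 0 ≤ 2 * (A - Z) ^ 2 - 2 * (A - Z) * Z + 2 * (A / 3 + 6 / 5) +
      (A / 3 + 6 / 5) * (1 + 2 * t * q) * Z - (4 / 3 - 18 / 5 * q) * Z - Z - 2 * (4 / 3 - 18 / 5 * q) := by
      have h4 : 15 * (2 * (A - Z) ^ 2 - 2 * (A - Z) * Z + 2 * (A / 3 + 6 / 5) +
        (A / 3 + 6 / 5) * (1 + 2 * t * q) * Z - (4 / 3 - 18 / 5 * q) * Z - Z - 2 * (4 / 3 - 18 / 5 * q)) =
        q * ((30 * (A - Z) ^ 2 - 25 * (A - Z) * Z + 5 * Z ^ 2 + 10 * t * Z - 7 * Z + 10 * (A - Z) - 4) * A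
          + (36 * t + 54) * Z + 108) := by
        rw [hq]; field_simp; ring
      have h5 := mul_nonneg hq0.le hp
      linarith
    linarith
  have hfin : (3 - 1) * (A - Z) ^ 2 / Z - 2 * (A - Z) + (3 - 1) * (A / 3 + 6 / 5) / Z
      + (A / 3 + 6 / 5) * x - (4 / 3 - 18 / 5 * q) - u - (3 - 1) * (4 / 3 - 18 / 5 * q) * u / Z =
      (2 * (A - Z) ^ 2 - 2 * (A - Z) * Z + 2 * (A / 3 + 6 / 5) +
      (A / 3 + 6 / 5) * x * Z - (4 / 3 - 18 / 5 * q) * Z - u * Z - 2 * (4 / 3 - 18 / 5 * q) * u) / Z := by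
    field_simp
    ring
  rw [hfin]
  exact div_nonneg hN hZ0.le

end RR722.D3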