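import Mathlib
import Pool.Agent.Helper722.RR.StepReal
set_option autoImplicit false
namespace RR722

theorem E_big (i A' t z : ℝ) (hi : 6 ≤ i) (hA' : 2 ≤ A') (ht : t = 0 ∨ 1 ≤ t)
    (hA2 : A' = 2 ∨ 3 ≤ A') (hz1 : z ≤ t + 1) (hz2 : t - 1 ≤ z) :
    0 ≤ (i - 1) * z ^ 2 / (A' + t - z) - 2 * z + (5/6) * ((A' + t) / (A' + t - z)) + (A' + t) / i
      + (i - 1) * t / i - 2/5 := by
  have ht0 : 0 ≤ t := by rcases ht with h | h <;> linarith
  have hZ : 0 < A' + t - z := by linarith
  have hi0 : 0 < i := by linarith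
  rcases le_or_gt z 0 with hz | hz
  · have h1 : 0 ≤ (i - 1) * z ^ 2 / (A' + t - z) := by
      apply div_nonneg _ hZ.le
      nlinarith [sq_nonneg z]
    have h2 : (2/3 : ℝ) ≤ (A' + t) / (A' + t - z) := by
      rw [le_div_iff₀ hZ]; linarith
    have h3 : 0 ≤ (A' + t) / i := by positivity
    have h4 : 0 ≤ (i - 1) * t / i := by
      apply div_nonneg _ hi0.le
      nlinarith
    linarith
  · have hA : 0 < A' + t := by linarith
    have h1 : (i - 1) * z ^ 2 / (A' + t) ≤ (i - 1) * z ^ 2 / (A' + t - z) := by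
      apply div_le_div_of_nonneg_left _ hZ (by linarith)
      nlinarith [sq_nonneg z]
    have h2 : (1 : ℝ) ≤ (A' + t) / (A' + t - z) := by
      rw [le_div_iff₀ hZ]; linarith
    have h3 : 0 ≤ (i - 1) * z ^ 2 / (A' + t) - 2 * z + (A' + t) / i + (i - 1) * t / i + 13/30 := by
      have e : (i - 1) * z ^ 2 / (A' + t) - 2 * z + (A' + t) / i + (i - 1) * t / i + 13/30 =
          (((A' + t) - i * z) ^ 2 - i * z ^ 2 + (i - 1) * t * (A' + t) + 13/30 * i * (A' + t)) /
            (i * (A' + t)) := by
        field_simp; ring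
      rw [e]
      apply div_nonneg _ (by positivity)
      rcases le_or_gt ((A' + t) / 2) z with h5 | h5
      · -- (i z - A) >= (i-2) z
        have h6 : (i - 2) * z ≤ i * z - (A' + t) := by linarith
        have h7 : ((i - 2) * z) ^ 2 ≤ (i * z - (A' + t)) ^ 2 := by
          apply pow_le_pow_left₀ _ h6
          nlinarith
        have h8 : i * z ^ 2 ≤ ((i - 2) * z) ^ 2 := by
          nlinarith [sq_nonneg z]
        nlinarith [mul_nonneg ht0 hA.le]
      · rcases ht with h0 | h0
        · subst h0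
          rcases hA2 with h9 | h9
          · subst h9
            nlinarith [sq_nonneg (5 * z - 2), sq_nonneg z]
          · have h10 : z ^ 2 ≤ 1 := by nlinarith
            have h11 : i * z ^ 2 ≤ i * 1 := mul_le_mul_of_nonneg_left h10 hi0.le
            have h12 : i * 3 ≤ i * A' := mul_le_mul_of_nonneg_left h9 hi0.le
            have h13 := sq_nonneg (A' + 0 - i * z)
            linarith
        · have h6 : z ^ 2 ≤ (t + 1) * ((A' + t) / 2) := by nlinarith
          have h7 : i * z ^ 2 ≤ i * ((t + 1) * ((A' + t) / 2)) := mul_le_mul_of_nonneg_left h6 hi0.le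
          have h8 : (5/6 * i) * (t * (A' + t)) ≤ (i - 1) * (t * (A' + t)) :=
            mul_le_mul_of_nonneg_right (by linarith) (mul_nonneg ht0 hA.le)
          have h9 : (i * (A' + t)) * ((t + 1) / 2) ≤ (i * (A' + t)) * (5/6 * t + 13/30) :=
            mul_le_mul_of_nonneg_left (by linarith) (by positivity)
          have h10 := sq_nonneg (A' + t - i * z)
          linarith
    linarith

end RR722
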