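import Mathlib
set_option autoImplicit false
namespace RR722.XO

theorem xo_aux {i A lam Q r p' q' : ℝ} (hi : 3 ≤ i) (hA : 1 ≤ A) (hlam : 0 ≤ lam)
    (hQ : 0 < Q) (hr : 0 < r) (hp : 0 ≤ p') (hq : (i - 1) * r ≤ 2 * q')
    (hD : 0 ≤ lam * A * Q ^ 2 + (i * (1 + lam) + (A + lam) * A * (i - 1) / 2 - 2 * i * A) * r * Q
      + (i * (i - 1) * (1 + lam) / 2 - i ^ 2) * r ^ 2) :
    i * (A * Q / i + r) ^ 2 ≤
      (i + 1) * ((A - 1) * (A * Q / i) / (i + 1) + p') * (Q + q')
      + (1 + lam) * (A * Q / i + r) * (Q + q') := by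
  have hi0 : 0 < i := by linarith
  have hq0 : 0 ≤ q' := by nlinarith
  have hQq : 0 ≤ Q + q' := by linarith
  obtain ⟨s, hs⟩ : ∃ s, s = q' - (i - 1) * r / 2 := ⟨_, rfl⟩
  have hs0 : 0 ≤ s := by rw [hs]; linarith
  have hq' : q' = (i - 1) * r / 2 + s := by rw [hs]; ring
  have key : (A * Q + i * r) ^ 2 ≤ ((A + lam) * A * Q + i * (1 + lam) * r) * (Q + q') := by
    have h1 : 0 ≤ ((A + lam) * A * Q + i * (1 + lam) * r) * s := by positivity
    rw [hq']
    nlinarith
  have h2 : i * (i * (A * Q / i + r) ^ 2) = (A * Q + i * r) ^ 2 := by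
    field_simp
  have h3 : i * ((i + 1) * ((A - 1) * (A * Q / i) / (i + 1) + p') * (Q + q')
      + (1 + lam) * (A * Q / i + r) * (Q + q')) =
      ((A + lam) * A * Q + i * (1 + lam) * r) * (Q + q') + i * (i + 1) * p' * (Q + q') := by
    have : i + 1 ≠ 0 := by linarith
    field_simp
    ring
  have h4 : 0 ≤ i * (i + 1) * p' * (Q + q') := by positivity
  have h5 : i * (i * (A * Q / i + r) ^ 2) ≤ i * ((i + 1) * ((A - 1) * (A * Q / i) / (i + 1) + p') *
      (Q + q') + (1 + lam) * (A * Q / i + r) * (Q + q')) := by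
    rw [h2, h3]; linarith
  exact le_of_mul_le_mul_left h5 hi0

theorem xo_D {i A lam Q r L T : ℝ} (hi : 3 ≤ i) (hA : 1 ≤ A) (hL : L = lam * i * A)
    (hT : T = A * Q - r * (i * A - i + 1))
    (hE : 0 ≤ 2 * L * A * (T + r * (i * A - i + 1)) ^ 2 +
      2 * (i * (i * A + L) + (A * i * A + L) * A * (i - 1) / 2 - 2 * i * i * A * A) * A *
        (T + r * (i * A - i + 1)) * r
      + 2 * (i * (i - 1) * (i * A + L) / 2 - i * i * i * A) * A * A * r ^ 2) :
    0 ≤ lam * A * Q ^ 2 + (i * (1 + lam) + (A + lam) * A * (i - 1) / 2 - 2 * i * A) * r * Q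
      + (i * (i - 1) * (1 + lam) / 2 - i ^ 2) * r ^ 2 := by
  have hi0 : 0 < i := by linarith
  have hA0 : 0 < A := by linarith
  have h1 : T + r * (i * A - i + 1) = A * Q := by rw [hT]; ring
  rw [h1, hL] at hE
  have h2 : 2 * (lam * i * A) * A * (A * Q) ^ 2 +
      2 * (i * (i * A + lam * i * A) + (A * i * A + lam * i * A) * A * (i - 1) / 2 - 2 * i * i * A * A) * A *
        (A * Q) * r
      + 2 * (i * (i - 1) * (i * A + lam * i * A) / 2 - i * i * i * A) * A * A * r ^ 2 =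
      (2 * i * A ^ 3) * (lam * A * Q ^ 2 + (i * (1 + lam) + (A + lam) * A * (i - 1) / 2 - 2 * i * A) * r * Q
      + (i * (i - 1) * (1 + lam) / 2 - i ^ 2) * r ^ 2) := by ring
  rw [h2] at hE
  have h3 : 0 < 2 * i * A ^ 3 := by positivity
  exact nonneg_of_mul_nonneg_right hE h3

/-- The step when the remainder has top parameter 1 (so that p' = 0 is all we use). -/
theorem X_one (i A : ℕ) (hi : 3 ≤ i) (hA : 1 ≤ A) (lam Q r p' q' : ℝ)
    (hlam : lam = if i = 3 then 1/3 + 6 / (5 * (A : ℝ)) else if i = 4 then 1/4 + 9 / (5 * (A : ℝ))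
      else if i = 5 then 1/5 + 3 / (A : ℝ) else 1 / (i : ℝ) + 4 / (A : ℝ))
    (hQ : 0 < Q) (hr : 0 < r) (hp : 0 ≤ p') (hq : ((i : ℝ) - 1) * r ≤ 2 * q')
    (hx : r * (A + ((i : ℝ) - 1) * ((A : ℝ) - 1)) ≤ A * Q) :
    (i : ℝ) * (A * Q / i + r) ^ 2 ≤
      ((i : ℝ) + 1) * (((A : ℝ) - 1) * (A * Q / i) / ((i : ℝ) + 1) + p') * (Q + q')
      + (1 + lam) * (A * Q / i + r) * (Q + q') := by
  have hiR : (3:ℝ) ≤ i := by exact_mod_cast hi
  have hAR : (1:ℝ) ≤ A := by exact_mod_cast hA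
  have hA0 : (0:ℝ) < A := by linarith
  obtain ⟨T, hT⟩ : ∃ T : ℝ, T = A * Q - r * ((i:ℝ) * A - i + 1) := ⟨_, rfl⟩
  have hT0 : 0 ≤ T := by
    rw [hT]
    have : r * ((A:ℝ) + ((i : ℝ) - 1) * ((A : ℝ) - 1)) = r * ((i:ℝ) * A - i + 1) := by ring
    linarith
  have hlam0 : 0 ≤ lam := by
    rw [hlam]; split_ifs <;> positivity
  apply xo_aux hiR hAR hlam0 hQ hr hp hq
  have hr0 := hr.le
  by_cases h3 : i = 3
  · subst h3
    rw [if_pos rfl] at hlam
    apply xo_D (L := (A:ℝ) + 18 / 5) hiR hAR (by rw [hlam]; push_cast; field_simp; ring) hT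
    clear hT hx hlam hlam0
    rcases Nat.lt_or_ge A 2 with h | h
    · have : A = 1 := by omega
      subst this
      push_cast
      ring_nf
      positivity
    · obtain ⟨b, rfl⟩ := Nat.exists_eq_add_of_le' h
      push_cast
      ring_nf
      positivity
  rw [if_neg h3] at hlam
  by_cases h4 : i = 4
  · subst h4
    rw [if_pos rfl] at hlam
    apply xo_D (L := (A:ℝ) + 36 / 5) hiR hAR (by rw [hlam]; push_cast; field_simp; ring) hT
    clear hT hx hlam hlam0
    rcases Nat.lt_or_ge A 2 with h | h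
    · have : A = 1 := by omega
      subst this
      push_cast
      ring_nf
      positivity
    · obtain ⟨b, rfl⟩ := Nat.exists_eq_add_of_le' h
      push_cast
      ring_nf
      positivity
  rw [if_neg h4] at hlam
  by_cases h5 : i = 5
  · subst h5
    rw [if_pos rfl] at hlam
    apply xo_D (L := (A:ℝ) + 15) hiR hAR (by rw [hlam]; push_cast; field_simp; ring) hT
    clear hT hx hlam hlam0
    rcases Nat.lt_or_ge A 2 with h | h
    · have : A = 1 := by omega
      subst this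
      push_cast
      ring_nf
      positivity
    · obtain ⟨b, rfl⟩ := Nat.exists_eq_add_of_le' h
      push_cast
      ring_nf
      positivity
  rw [if_neg h5] at hlam
  obtain ⟨k, rfl⟩ := Nat.exists_eq_add_of_le' (show 6 ≤ i by omega)
  apply xo_D (L := (A:ℝ) + 4 * ((k + 6 : ℕ) : ℝ)) hiR hAR (by
    rw [hlam]
    have : ((k + 6 : ℕ) : ℝ) ≠ 0 := by positivity
    field_simp) hT
  clear hT hx hlam hlam0
  rcases Nat.lt_or_ge A 2 with h | h
  · have : A = 1 := by omega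
    subst this
    push_cast
    ring_nf
    positivity
  · obtain ⟨b, rfl⟩ := Nat.exists_eq_add_of_le' h
    push_cast
    ring_nf
    positivity

end RR722.XO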