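import Mathlib
import Pool.Agent.Helper722.RR.KCDef
import Pool.Agent.Helper722.RR.KCNum
import Pool.Agent.Helper722.RR.KCBounds
import Pool.Agent.Helper722.RR.StepReal
import Pool.Agent.Helper722.RR.D1Three
import Pool.Agent.Helper722.RR.D1Four
import Pool.Agent.Helper722.RR.D1Five
import Pool.Agent.Helper722.RR.D1Big
import Pool.Agent.Helper722.RR.EBig
import Pool.Agent.Helper722.RR.XOne
set_option autoImplicit false
namespace RR722

noncomputable def lamv (i A : ℕ) : ℝ :=
  if i = 2 then 1/3 else if i = 3 then 1/3 + 6 / (5 * (A : ℝ)) else if i = 4 then 1/4 + 9 / (5 * (A : ℝ))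
  else if i = 5 then 1/5 + 3 / (A : ℝ) else 1 / (i : ℝ) + 4 / (A : ℝ)

theorem lamv_nonneg (i A : ℕ) : 0 ≤ lamv i A := by
  unfold lamv; split_ifs <;> positivity

/-- Bernoulli type comparison of binomial coefficients. -/
theorem choose_bern (a m t : ℕ) :
    ((a + m).choose m : ℝ) * (a + t + m * t) ≤ (a + t) * ((a + t + m).choose m : ℝ) := by
  induction t with
  | zero => simp; linarith
  | succ t ih =>
    have h1 : ((a + (t + 1) + m).choose m : ℝ) * (a + t + 1) =
        ((a + t + m).choose m : ℝ) * (a + t + 1 + m) := by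
      have := Nat.add_one_mul_choose_eq (a + t + m) (a + t)
      have e1 : (a + (t + 1) + m).choose m = (a + t + m + 1).choose (a + t + 1) := by
        rw [show a + (t + 1) + m = a + t + m + 1 by ring]
        rw [← Nat.choose_symm_of_eq_add (show a + t + m + 1 = (a + t + 1) + m by ring)]
      have e2 : (a + t + m).choose m = (a + t + m).choose (a + t) := by
        rw [← Nat.choose_symm_of_eq_add (show a + t + m = (a + t) + m by ring)]
      rw [e1, e2]
      have h3 : ((a : ℝ) + t + m + 1) * ((a + t + m).choose (a + t) : ℝ) =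
        ((a + t + m + 1).choose (a + t + 1) : ℝ) * ((a : ℝ) + t + 1) := by exact_mod_cast this
      linarith
    push_cast
    have hs : (0 : ℝ) ≤ a + t := by positivity
    rcases eq_or_lt_of_le hs with h0 | h0
    · have ha : (a : ℝ) = 0 := by
        have : (0:ℝ) ≤ a := by positivity
        have : (0:ℝ) ≤ t := by positivity
        linarith
      have ht : (t : ℝ) = 0 := by linarith
      have ha' : a = 0 := by exact_mod_cast ha
      have ht' : t = 0 := by exact_mod_cast ht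
      subst ha' ht'
      simp at h1 ⊢
      rw [h1]
    · have h2 : ((a + m).choose m : ℝ) * (a + t + m * t) * (a + t + 1 + m) ≤
          (a + t) * (((a + (t + 1) + m).choose m : ℝ) * (a + t + 1)) := by
        rw [h1]
        have := mul_le_mul_of_nonneg_right ih (show (0 : ℝ) ≤ a + t + 1 + m by positivity)
        linarith
      have h3 : (a + t : ℝ) * (a + t + 1 + m * (t + 1)) ≤ (a + t + m * t) * (a + t + 1 + m) := by
        have : (0 : ℝ) ≤ m * t + m * m * t := by positivity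
        nlinarith
      have h4 : (a + t : ℝ) * (((a + m).choose m : ℝ) * (a + (t + 1) + m * (t + 1))) ≤
          (a + t) * ((a + (t + 1)) * ((a + (t + 1) + m).choose m : ℝ)) := by
        have := mul_le_mul_of_nonneg_left h3 (show (0 : ℝ) ≤ ((a + m).choose m : ℝ) by positivity)
        nlinarith
      exact le_of_mul_le_mul_left h4 h0

theorem choose_BQ (A j : ℕ) :
    ((A + j + 1).choose (j + 2) : ℝ) = A * ((A + j + 1).choose (j + 1) : ℝ) / ((j + 2 : ℕ) : ℝ) := by
  have h := Nat.choose_succ_right_eq (A + j + 1) (j + 1)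
  rw [show A + j + 1 - (j + 1) = A by omega] at h
  have h2 : ((A + j + 1).choose (j + 2) : ℝ) * ((j + 2 : ℕ) : ℝ) =
      ((A + j + 1).choose (j + 1) : ℝ) * A := by exact_mod_cast h
  rw [eq_div_iff (by positivity)]
  linarith

theorem choose_PB (A j : ℕ) (hA : 1 ≤ A) :
    ((A + j + 1).choose (j + 3) : ℝ) =
      ((A : ℝ) - 1) * ((A + j + 1).choose (j + 2) : ℝ) / (((j + 2 : ℕ) : ℝ) + 1) := by
  have h := Nat.choose_succ_right_eq (A + j + 1) (j + 2)
  rw [show A + j + 1 - (j + 2) = A - 1 by omega] at h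
  have h2 : ((A + j + 1).choose (j + 3) : ℝ) * ((j : ℝ) + 3) =
      ((A + j + 1).choose (j + 2) : ℝ) * ((A - 1 : ℕ) : ℝ) := by exact_mod_cast h
  rw [Nat.cast_sub hA] at h2
  push_cast at h2
  push_cast
  rw [eq_div_iff (by positivity)]
  linarith

theorem KC.rpos {i A n p q : ℕ} (h : KC i A n p q) : 0 < n ∧ 0 < q := by
  have h1 := h.bounds
  have h2 := h.top_pos
  have h3 : 0 < (A + i - 1).choose i := Nat.choose_pos (by omega)
  have h4 : 0 < n := lt_of_lt_of_le h3 h1.1
  refine ⟨h4, ?_⟩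
  have h5 := h.F2.1
  by_contra h6
  have h7 : q = 0 := by omega
  rw [h7] at h5
  have : 0 < i * n := Nat.mul_pos h2.1 h4
  omega

theorem KC.kappa {j A A' r p q : ℕ} (h : KC (j + 1) A' r p q) (hA : A' ≤ A) :
    (r : ℝ) * (A + ((j : ℝ) + 1) * ((A : ℝ) - A')) ≤ A * ((A + j + 1).choose (j + 1) : ℝ) := by
  obtain ⟨t, rfl⟩ := Nat.exists_eq_add_of_le hA
  have h1 := choose_bern A' (j + 1) t
  have h2 : (r : ℝ) ≤ ((A' + (j + 1)).choose (j + 1) : ℝ) := by exact_mod_cast h.bounds.2.le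
  have h3 : (0 : ℝ) ≤ A' + t + (j + 1) * t := by positivity
  have h4 := mul_le_mul_of_nonneg_right h2 h3
  rw [show A' + t + (j + 1) = A' + t + j + 1 by ring] at h1
  push_cast at h1 ⊢
  calc (r : ℝ) * (A' + t + ((j : ℝ) + 1) * ((A' + t : ℝ) - A')) = r * (A' + t + (j + 1) * t) := by ring
    _ ≤ _ := h4
    _ ≤ _ := h1

theorem KC.step_core {j A A' r p q : ℕ} (h : KC (j + 1) A' r p q) (hA : A' ≤ A)
    (lam lam' : ℝ)
    (IH : ((j : ℝ) + 1) * (r : ℝ) ^ 2 ≤ ((j : ℝ) + 2) * p * q + (1 + lam') * r * q)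
    (HD : ∀ x Z : ℝ, (A' : ℝ) - 1 ≤ Z → Z ≤ A' + 1 →
      (A : ℝ) + ((j : ℝ) + 1) * ((A : ℝ) - A') ≤ x * A →
      0 ≤ D1 ((j + 2 : ℕ) : ℝ) A lam lam' x Z) :
    ((j + 2 : ℕ) : ℝ) * (((A + j + 1).choose (j + 2) + r : ℕ) : ℝ) ^ 2 ≤
      (((j + 2 : ℕ) : ℝ) + 1) * (((A + j + 1).choose (j + 3) + p : ℕ) : ℝ) *
        (((A + j + 1).choose (j + 1) + q : ℕ) : ℝ) +
      (1 + lam) * (((A + j + 1).choose (j + 2) + r : ℕ) : ℝ) *
        (((A + j + 1).choose (j + 1) + q : ℕ) : ℝ) := by
  have hA1 : 1 ≤ A := h.top_pos.2.trans hA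
  have hQ : (0 : ℝ) < ((A + j + 1).choose (j + 1) : ℝ) := by
    exact_mod_cast Nat.choose_pos (by omega)
  have hr : (0 : ℝ) < r := by exact_mod_cast h.rpos.1
  have hq : (0 : ℝ) < q := by exact_mod_cast h.rpos.2
  have hA0 : (0 : ℝ) < A := by exact_mod_cast hA1
  have F1 : (A' : ℝ) * q ≤ ((j : ℝ) + 1) * r + q := by exact_mod_cast h.F1
  have F2 : ((j : ℝ) + 1) * r ≤ q * ((A' : ℝ) + 1) := by exact_mod_cast h.F2.1
  have hD := HD (((A + j + 1).choose (j + 1) : ℝ) / r) ((((j + 2 : ℕ) : ℝ) - 1) * r / q)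
    (by
      rw [le_div_iff₀ hq]; push_cast; linarith)
    (by
      rw [div_le_iff₀ hq]; push_cast; linarith)
    (by
      rw [div_mul_eq_mul_div, le_div_iff₀ hr]
      have := h.kappa hA
      linarith)
  have hmain := X_of_D1 (i := ((j + 2 : ℕ) : ℝ)) (A := A) (lam := lam) (lam' := lam')
    (Q := ((A + j + 1).choose (j + 1) : ℝ)) (r := r) (p' := p) (q' := q)
    (by push_cast; linarith [(Nat.cast_nonneg j : (0 : ℝ) ≤ j)]) hQ hr hq
    (by push_cast; linarith) hD
  push_cast at hmain ⊢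
  have e1 := choose_BQ A j
  have e2 := choose_PB A j hA1
  rw [e1] at e2
  push_cast at e1 e2
  rw [e1, e2]
  exact hmain

theorem KC.lam_cons {j A A' r p q : ℕ} (hj : 1 ≤ j) (h : KC (j + 1) A' r p q) (hA : A' ≤ A)
    (ih : ((j + 1 : ℕ) : ℝ) * (r : ℝ) ^ 2 ≤
      (((j + 1 : ℕ) : ℝ) + 1) * p * q + (1 + lamv (j + 1) A') * r * q) :
    ((j + 2 : ℕ) : ℝ) * (((A + j + 1).choose (j + 2) + r : ℕ) : ℝ) ^ 2 ≤
      (((j + 2 : ℕ) : ℝ) + 1) * (((A + j + 1).choose (j + 3) + p : ℕ) : ℝ) *
        (((A + j + 1).choose (j + 1) + q : ℕ) : ℝ) +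
      (1 + lamv (j + 2) A) * (((A + j + 1).choose (j + 2) + r : ℕ) : ℝ) *
        (((A + j + 1).choose (j + 1) + q : ℕ) : ℝ) := by
  have hA'1 := h.top_pos.2
  have hA1 : 1 ≤ A := hA'1.trans hA
  have hr : (0 : ℝ) < r := by exact_mod_cast h.rpos.1
  have hq : (0 : ℝ) < q := by exact_mod_cast h.rpos.2
  push_cast at ih
  rcases Nat.lt_or_ge A' 2 with h2 | h2
  · -- A' = 1
    have hA'e : A' = 1 := by omega
    subst hA'e
    have F2 : ((j : ℝ) + 1) * r ≤ q * (((1 : ℕ) : ℝ) + 1) := by exact_mod_cast h.F2.1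
    have hk := h.kappa hA
    have hmain := XO.X_one (j + 2) A (by omega) hA1 (lamv (j + 2) A)
      ((A + j + 1).choose (j + 1) : ℝ) r p q
      (by
        unfold lamv
        rw [if_neg (by omega : ¬ (j + 2 = 2))])
      (by exact_mod_cast Nat.choose_pos (by omega)) hr (by positivity)
      (by push_cast at F2 ⊢; linarith)
      (by push_cast at hk ⊢; linarith)
    have e1 := choose_BQ A j
    have e2 := choose_PB A j hA1
    rw [e1] at e2
    push_cast at e1 e2 hmain ⊢
    rw [e1, e2]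
    exact hmain
  · have hA'2 : (2 : ℝ) ≤ A' := by exact_mod_cast h2
    obtain ⟨t, rfl⟩ := Nat.exists_eq_add_of_le hA
    have ht : ((t : ℝ) = 0 ∨ (1 : ℝ) ≤ t) := by
      rcases Nat.eq_zero_or_pos t with h0 | h0
      · left; exact_mod_cast h0
      · right; exact_mod_cast h0
    have hA3 : ((A' : ℝ) = 2 ∨ (3 : ℝ) ≤ A') := by
      rcases Nat.lt_or_ge A' 3 with h0 | h0
      · left; exact_mod_cast (by omega : A' = 2)
      · right; exact_mod_cast h0
    rcases (by omega : j = 1 ∨ j = 2 ∨ j = 3 ∨ 4 ≤ j) with h3 | h3 | h3 | h3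
    · subst h3
      have e3 : lamv (1 + 2) (A' + t) = 1/3 + 6 / (5 * ((A' : ℝ) + t)) := by
        unfold lamv; push_cast; simp
      have e4 : lamv (1 + 1) A' = 1/3 := by unfold lamv; simp
      rw [e3]; rw [e4] at ih
      refine h.step_core hA _ (1/3) (by push_cast at ih ⊢; linarith) ?_
      intro x Z hZ1 hZ2 hx
      push_cast at hx ⊢
      have := D3.D1_three A' t x Z hA'2 ht hZ1 hZ2 (by linarith)
      norm_num at this ⊢
      exact this
    · subst h3
      have e3 : lamv (2 + 2) (A' + t) = 1/4 + 9 / (5 * ((A' : ℝ) + t)) := by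
        unfold lamv; push_cast; simp
      have e4 : lamv (2 + 1) A' = 1/3 + 6 / (5 * (A' : ℝ)) := by unfold lamv; simp
      rw [e3]; rw [e4] at ih
      refine h.step_core hA _ (1/3 + 6 / (5 * (A' : ℝ))) (by push_cast at ih ⊢; linarith) ?_
      intro x Z hZ1 hZ2 hx
      push_cast at hx ⊢
      have := D4.D1_four A' t x Z hA'2 ht hZ1 hZ2 (by linarith)
      norm_num at this ⊢
      exact this
    · subst h3
      have e3 : lamv (3 + 2) (A' + t) = 1/5 + 3 / ((A' : ℝ) + t) := by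
        unfold lamv; push_cast; simp
      have e4 : lamv (3 + 1) A' = 1/4 + 9 / (5 * (A' : ℝ)) := by unfold lamv; simp
      rw [e3]; rw [e4] at ih
      refine h.step_core hA _ (1/4 + 9 / (5 * (A' : ℝ))) (by push_cast at ih ⊢; linarith) ?_
      intro x Z hZ1 hZ2 hx
      push_cast at hx ⊢
      have := D5.D1_five A' t x Z hA'2 ht hZ1 hZ2 (by linarith)
      norm_num at this ⊢
      exact this
    · have hjR : (4 : ℝ) ≤ j := by exact_mod_cast h3
      have e3 : lamv (j + 2) (A' + t) = 1/((j : ℝ) + 2) + 4 / ((A' : ℝ) + t) := by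
        unfold lamv
        rw [if_neg (by omega), if_neg (by omega), if_neg (by omega), if_neg (by omega)]
        push_cast; ring
      have e4 : lamv (j + 1) A' ≤ 1/((j : ℝ) + 1) + 4 / (A' : ℝ) := by
        unfold lamv
        rw [if_neg (by omega), if_neg (by omega), if_neg (by omega)]
        split_ifs with h5
        · have : j = 4 := by omega
          subst this
          have : (3 : ℝ) / A' ≤ 4 / A' := by
            apply div_le_div_of_nonneg_right _ (by positivity); norm_num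
          norm_num; linarith
        · push_cast; linarith
      have ih' : ((j : ℝ) + 1) * (r : ℝ) ^ 2 ≤ ((j : ℝ) + 2) * p * q +
          (1 + (1/((j : ℝ) + 1) + 4 / (A' : ℝ))) * r * q := by
        have h6 : lamv (j + 1) A' * (r * q) ≤ (1/((j : ℝ) + 1) + 4 / (A' : ℝ)) * (r * q) :=
          mul_le_mul_of_nonneg_right e4 (by positivity)
        linarith
      rw [e3]
      refine h.step_core hA _ (1/((j : ℝ) + 1) + 4 / (A' : ℝ)) ih' ?_
      intro x Z hZ1 hZ2 hx
      have := DB.D1_big E_big ((j : ℝ) + 2) A' t x Z (by linarith) hA'2 ht hA3 hZ1 hZ2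
        (by push_cast at hx; linarith)
      push_cast
      rw [show (j : ℝ) + 2 - 1 = j + 1 by ring] at this
      exact this

/-- The `λ`-lemma: a lower bound for the product of the upper and lower shadow of a cascade. -/
theorem KC.lam {i A n p q : ℕ} (h : KC i A n p q) (hi : 2 ≤ i) :
    (i : ℝ) * (n : ℝ) ^ 2 ≤ ((i : ℝ) + 1) * p * q + (1 + lamv i A) * n * q := by
  induction h with
  | single i A hA =>
    have hQ : (0 : ℝ) < ((A + i).choose i : ℝ) := by exact_mod_cast Nat.choose_pos (by omega)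
    obtain ⟨j, rfl⟩ : ∃ j, i = j + 1 := ⟨i - 1, by omega⟩
    have e1 := choose_BQ A j
    have e2 := choose_PB A j hA
    rw [e1] at e2
    have hA0 : (0 : ℝ) < A := by exact_mod_cast hA
    have hl := lamv_nonneg (j + 1 + 1) A
    rw [show A + (j + 1) = A + j + 1 by ring, show j + 1 + 2 = j + 3 by ring,
      show j + 1 + 1 = j + 2 by ring] at *
    rw [e1, e2]
    push_cast
    set Q : ℝ := ((A + j + 1).choose (j + 1) : ℝ)
    have hj : (0 : ℝ) < (j : ℝ) + 2 := by positivity
    have key : ((j : ℝ) + 2 + 1) * (((A : ℝ) - 1) * (A * Q / (j + 2)) / (j + 2 + 1)) * Q +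
        (1 + lamv (j + 2) A) * (A * Q / (j + 2)) * Q - (j + 2) * (A * Q / (j + 2)) ^ 2 =
        lamv (j + 2) A * A * Q ^ 2 / (j + 2) := by
      field_simp; ring
    have : 0 ≤ lamv (j + 2) A * A * Q ^ 2 / (j + 2) := by positivity
    linarith
  | cons i A A' r p q h hA ih =>
    rcases Nat.eq_zero_or_pos i with h0 | h0
    · subst h0
      have h2 : KC 2 A ((A + 0 + 1).choose (0 + 2) + r) ((A + 0 + 1).choose (0 + 3) + p)
        ((A + 0 + 1).choose (0 + 1) + q) := KC.cons 0 A A' r p q h hA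
      have h3 := h2.lam_two
      have h4 : (6 : ℝ) * (((A + 0 + 1).choose (0 + 2) + r : ℕ) : ℝ) ^ 2 ≤
        9 * (((A + 0 + 1).choose (0 + 3) + p : ℕ) : ℝ) * (((A + 0 + 1).choose (0 + 1) + q : ℕ) : ℝ)
        + 4 * (((A + 0 + 1).choose (0 + 2) + r : ℕ) : ℝ) *
          (((A + 0 + 1).choose (0 + 1) + q : ℕ) : ℝ) := by exact_mod_cast h3
      have e4 : lamv (0 + 2) A = 1/3 := by unfold lamv; simp
      rw [e4]
      push_cast at h4 ⊢
      linarith
    · exact KC.lam_cons h0 h hA (ih (by omega))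

end RR722
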