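import Mathlib
set_option autoImplicit false
open Polynomial
namespace RR722.NF

private theorem splits_derivative' {f : ℝ[X]} (hf : f.Splits) : f.derivative.Splits := by
  rcases Nat.eq_zero_or_pos f.natDegree with h0 | h0
  · rw [derivative_of_natDegree_zero h0]
    exact Splits.zero
  · rw [splits_iff_card_roots] at hf ⊢
    have h1 := card_roots_le_derivative f
    have h2 := card_roots' f.derivative
    have h3 := natDegree_derivative_lt h0.ne'
    omega

private theorem splits_iterate' {f : ℝ[X]} (hf : f.Splits) (k : ℕ) :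
    (derivative^[k] f).Splits := by
  induction k with
  | zero => exact hf
  | succ k ih =>
    rw [Function.iterate_succ_apply']
    exact splits_derivative' ih

private theorem alg (M t c a p f2 H G0 G1 G2 : ℝ) (hM : 0 ≤ M) (ht : 0 < t) (hc : 0 < c)
    (ha : 0 ≤ a) (hp : 0 < p) (hH : 0 ≤ H)
    (e0 : c * p = -t * G0) (e1 : c * a = G0 - t * G1) (e2 : c * f2 = G1 - t * G2)
    (hN : 2 * M * (G0 * G2) ≤ (M - 1) * G1 ^ 2) (hl : t * H ≤ p * (M + 1)) :
    2 * M * (M + 1) * p * f2 + (a + H) ^ 2 ≤ (M * a) ^ 2 := by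
  obtain ⟨ρ, hρ⟩ : ∃ ρ, ρ = p / t := ⟨_, rfl⟩
  have hρt : ρ * t = p := by rw [hρ]; field_simp
  have hρ0 : 0 < ρ := by rw [hρ]; positivity
  have hG0 : G0 = -(c * ρ) := by
    have : t * G0 = t * (-(c * ρ)) := by rw [← hρt] at e0; linarith
    exact mul_left_cancel₀ ht.ne' this
  have hG1 : t * G1 = -(c * (a + ρ)) := by
    rw [hG0] at e1
    linarith
  have k1 : t ^ 2 * (G0 * G2) = c ^ 2 * (ρ * (a + ρ) + p * f2) := by
    have h1 : t ^ 2 * (G0 * G2) = (t * G0) * (t * G2) := by ring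
    have h2 : t * G2 = G1 - c * f2 := by linarith
    have h3 : t * G0 = -(c * p) := by linarith
    rw [h1, h2, h3]
    have h4 : p * G1 = -(c * ρ * (a + ρ)) := by
      rw [← hρt]
      linear_combination ρ * hG1
    linear_combination (-c) * h4
  have k2 : t ^ 2 * G1 ^ 2 = c ^ 2 * (a + ρ) ^ 2 := by
    have : t ^ 2 * G1 ^ 2 = (t * G1) ^ 2 := by ring
    rw [this, hG1]
    ring
  have k3 : 2 * M * (ρ * (a + ρ) + p * f2) ≤ (M - 1) * (a + ρ) ^ 2 := by
    have h1 : t ^ 2 * (2 * M * (G0 * G2)) ≤ t ^ 2 * ((M - 1) * G1 ^ 2) :=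
      mul_le_mul_of_nonneg_left hN (by positivity)
    have h2 : c ^ 2 * (2 * M * (ρ * (a + ρ) + p * f2)) ≤ c ^ 2 * ((M - 1) * (a + ρ) ^ 2) := by
      have e1' : t ^ 2 * (2 * M * (G0 * G2)) = c ^ 2 * (2 * M * (ρ * (a + ρ) + p * f2)) := by
        linear_combination (2 * M) * k1
      have e2' : t ^ 2 * ((M - 1) * G1 ^ 2) = c ^ 2 * ((M - 1) * (a + ρ) ^ 2) := by
        linear_combination (M - 1) * k2
      rw [e1', e2'] at h1
      exact h1
    exact le_of_mul_le_mul_left h2 (by positivity)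
  have hr : H ≤ (M + 1) * ρ := by
    have : t * H ≤ t * ((M + 1) * ρ) := by
      calc t * H ≤ p * (M + 1) := hl
        _ = t * ((M + 1) * ρ) := by rw [← hρt]; ring
    exact le_of_mul_le_mul_left this ht
  have k4 : (M + 1) * (2 * M * (ρ * (a + ρ) + p * f2)) ≤ (M + 1) * ((M - 1) * (a + ρ) ^ 2) :=
    mul_le_mul_of_nonneg_left k3 (by linarith)
  have k5 : (a + H) ^ 2 ≤ (a + (M + 1) * ρ) ^ 2 := by
    apply pow_le_pow_left₀ (by linarith)
    linarith
  nlinarith [k4, k5]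

/-- The improved Newton inequality for g = (1-t)h (assuming the root location lemma and Newton at 0). -/
theorem N_full
    (newton0_deg : ∀ f : ℝ[X], f.Splits → ∀ n : ℕ, f.natDegree ≤ n →
      2 * (n : ℝ) * (f.coeff 0 * f.coeff 2) ≤ ((n : ℝ) - 1) * f.coeff 1 ^ 2)
    (h : ℝ[X]) (hs : h.Splits) (hpos : ∀ j, j ≤ h.natDegree → 0 < h.coeff j)
    (i : ℕ) (hi : 2 ≤ i) (hid : i + 1 ≤ h.natDegree)
    (hg1 : h.coeff (i - 2) < h.coeff (i - 1)) (hg2 : h.coeff (i - 1) < h.coeff i)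
    (root_loc : ∃ t : ℝ, 0 < t ∧ (derivative^[i - 1] ((1 - X) * h)).eval t = 0 ∧
      t * (h.coeff (i - 1) * ((h.natDegree : ℝ) + 1)) ≤
        (h.coeff (i - 1) - h.coeff (i - 2)) * ((h.natDegree : ℝ) - i + 2)) :
    (i : ℝ) * (i + 1) * ((h.natDegree : ℝ) - i + 1) * ((h.natDegree : ℝ) - i + 2) *
        (h.coeff (i - 1) - h.coeff (i - 2)) * (h.coeff (i + 1) - h.coeff i) +
      ((i : ℝ) * (h.coeff i - h.coeff (i - 1)) + ((h.natDegree : ℝ) + 1) * h.coeff (i - 1)) ^ 2 ≤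
    (((h.natDegree : ℝ) - i + 1) * i * (h.coeff i - h.coeff (i - 1))) ^ 2 := by
  obtain ⟨k, rfl⟩ : ∃ k, i = k + 2 := ⟨i - 2, by omega⟩
  obtain ⟨t, ht, hroot, hloc⟩ := root_loc
  rw [show k + 2 - 1 = k + 1 by omega] at *
  rw [show k + 2 - 2 = k by omega] at *
  set d := h.natDegree with hd
  set g : ℝ[X] := (1 - X) * h with hgdef
  set F : ℝ[X] := derivative^[k + 1] g with hF
  have hgc : ∀ j, g.coeff (j + 1) = h.coeff (j + 1) - h.coeff j := by
    intro j
    rw [hgdef, sub_mul, one_mul, coeff_sub, coeff_X_mul]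
  have h1X : (1 - X : ℝ[X]).Splits := by
    have e : (1 - X : ℝ[X]) = C (-1) * (X + C (-1)) := by
      simp only [map_neg, map_one]
      ring
    rw [e]
    exact (Splits.X_add_C _).C_mul _
  have hgs : g.Splits := h1X.mul hs
  have hFs : F.Splits := splits_iterate' hgs _
  -- coefficients of F
  have hc : (0 : ℝ) < ((k + 1).factorial : ℝ) := by exact_mod_cast Nat.factorial_pos _
  have hF0 : F.coeff 0 = ((k + 1).factorial : ℝ) * (h.coeff (k + 1) - h.coeff k) := by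
    rw [hF, coeff_iterate_derivative, zero_add, hgc, Nat.descFactorial_self, nsmul_eq_mul]
  have hF1 : F.coeff 1 = ((k + 1).factorial : ℝ) *
      (((k + 2 : ℕ) : ℝ) * (h.coeff (k + 2) - h.coeff (k + 1))) := by
    rw [hF, coeff_iterate_derivative, show 1 + (k + 1) = (k + 1) + 1 by ring, hgc]
    have e : (k + 1 + 1).descFactorial (k + 1) = (k + 1).factorial * (k + 2) := by
      have h1 := Nat.factorial_mul_descFactorial (show k + 1 ≤ k + 1 + 1 by omega)
      rw [show k + 1 + 1 - (k + 1) = 1 by omega, Nat.factorial_one, one_mul] at h1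
      rw [h1, Nat.factorial_succ (k + 1)]
      ring
    rw [e, nsmul_eq_mul]
    push_cast
    ring
  have hF2 : F.coeff 2 = ((k + 1).factorial : ℝ) *
      ((((k + 2 : ℕ) : ℝ) * (((k + 2 : ℕ) : ℝ) + 1) / 2) *
        (h.coeff (k + 2 + 1) - h.coeff (k + 2))) := by
    rw [hF, coeff_iterate_derivative, show 2 + (k + 1) = (k + 2) + 1 by ring, hgc]
    have e : 2 * (k + 2 + 1).descFactorial (k + 1) = (k + 1).factorial * (k + 2) * (k + 3) := by
      have h1 := Nat.factorial_mul_descFactorial (show k + 1 ≤ k + 2 + 1 by omega)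
      rw [show k + 2 + 1 - (k + 1) = 2 by omega, Nat.factorial_two] at h1
      rw [h1, Nat.factorial_succ (k + 2), Nat.factorial_succ (k + 1)]
      ring
    have e' : (2 : ℝ) * ((k + 2 + 1).descFactorial (k + 1) : ℝ) =
        ((k + 1).factorial : ℝ) * (k + 2) * (k + 3) := by exact_mod_cast e
    rw [nsmul_eq_mul]
    push_cast
    linear_combination (1 / 2) * (h.coeff (k + 2 + 1) - h.coeff (k + 2)) * e'
  have hF0pos : 0 < F.coeff 0 := by
    rw [hF0]
    exact mul_pos hc (sub_pos.2 hg1)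
  have hFne : F ≠ 0 := by
    intro h0
    rw [h0, coeff_zero] at hF0pos
    exact lt_irrefl _ hF0pos
  obtain ⟨G, hG⟩ : X - C t ∣ F := dvd_iff_isRoot.2 hroot
  have hGs : G.Splits := hFs.of_dvd hFne ⟨X - C t, by rw [hG]; ring⟩
  have hGne : G ≠ 0 := by
    rintro rfl
    exact hFne (by rw [hG, mul_zero])
  have hdF : F.natDegree ≤ d + 1 - (k + 1) := by
    refine (natDegree_iterate_derivative g (k + 1)).trans ?_
    apply Nat.sub_le_sub_right
    refine natDegree_mul_le.trans ?_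
    have : (1 - X : ℝ[X]).natDegree ≤ 1 := by
      refine (natDegree_sub_le _ _).trans ?_
      simp
    omega
  have hdG : G.natDegree ≤ d - (k + 1) := by
    have h1 : F.natDegree = 1 + G.natDegree := by
      rw [hG, natDegree_mul (X_sub_C_ne_zero t) hGne, natDegree_X_sub_C]
    omega
  have hN := newton0_deg G hGs (d - (k + 1)) hdG
  have hMc : ((d - (k + 1) : ℕ) : ℝ) = (d : ℝ) - ((k + 2 : ℕ) : ℝ) + 1 := by
    rw [Nat.cast_sub (by omega)]
    push_cast
    ring
  rw [hMc] at hN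
  have e0 : F.coeff 0 = -t * G.coeff 0 := by
    rw [hG, sub_mul, coeff_sub, coeff_X_mul_zero, coeff_C_mul]; ring
  have e1 : F.coeff 1 = G.coeff 0 - t * G.coeff 1 := by
    rw [hG, sub_mul, coeff_sub, coeff_X_mul, coeff_C_mul]
  have e2 : F.coeff 2 = G.coeff 1 - t * G.coeff 2 := by
    rw [hG, sub_mul, coeff_sub, coeff_X_mul, coeff_C_mul]
  rw [hF0] at e0
  rw [hF1] at e1
  rw [hF2] at e2
  have hM0 : (0 : ℝ) ≤ (d : ℝ) - ((k + 2 : ℕ) : ℝ) + 1 := by
    rw [← hMc]
    positivity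
  have key := alg ((d : ℝ) - ((k + 2 : ℕ) : ℝ) + 1) t ((k + 1).factorial : ℝ)
    (((k + 2 : ℕ) : ℝ) * (h.coeff (k + 2) - h.coeff (k + 1)))
    (h.coeff (k + 1) - h.coeff k)
    ((((k + 2 : ℕ) : ℝ) * (((k + 2 : ℕ) : ℝ) + 1) / 2) *
        (h.coeff (k + 2 + 1) - h.coeff (k + 2)))
    (h.coeff (k + 1) * ((d : ℝ) + 1)) _ _ _ hM0 ht hc
    (mul_nonneg (by positivity) (sub_pos.2 hg2).le) (sub_pos.2 hg1)
    (mul_nonneg (hpos (k + 1) (by omega)).le (by positivity)) e0 e1 e2 hN (by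
      refine hloc.trans (le_of_eq ?_)
      ring)
  refine le_trans (le_of_eq ?_) (key.trans (le_of_eq ?_))
  · ring
  · ring

end RR722.NF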