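import Mathlib
set_option autoImplicit false
open Polynomial
namespace RR722.NW

theorem nd_splits_derivative {f : ℝ[X]} (hf : f.Splits) : f.derivative.Splits := by
  rcases Nat.eq_zero_or_pos f.natDegree with h0 | h0
  · rw [derivative_of_natDegree_zero h0]
    exact Splits.zero
  · rw [splits_iff_card_roots] at hf ⊢
    have h1 := card_roots_le_derivative f
    have h2 := card_roots' f.derivative
    have h3 := natDegree_derivative_lt h0.ne'
    omega

theorem nd_splits_iterate {f : ℝ[X]} (hf : f.Splits) (k : ℕ) : (derivative^[k] f).Splits := by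
  induction k with
  | zero => exact hf
  | succ k ih =>
    rw [Function.iterate_succ_apply']
    exact nd_splits_derivative ih

theorem nd_aux (s : Multiset ℝ) :
    2 * (Multiset.card s : ℝ) * ((s.map (fun r => X - C r)).prod.coeff 0 *
      (s.map (fun r => X - C r)).prod.coeff 2) ≤
      ((Multiset.card s : ℝ) - 1) * (s.map (fun r => X - C r)).prod.coeff 1 ^ 2 := by
  induction s using Multiset.induction_on with
  | empty => simp [coeff_one]
  | cons a s ih =>
    rw [Multiset.map_cons, Multiset.prod_cons, Multiset.card_cons]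
    rcases Multiset.empty_or_exists_mem s with rfl | ⟨b, hb⟩
    · simp [coeff_X]
    have hm : 1 ≤ Multiset.card s := Multiset.card_pos_iff_exists_mem.2 ⟨b, hb⟩
    have hm' : (1 : ℝ) ≤ (Multiset.card s : ℝ) := by exact_mod_cast hm
    set m : ℝ := (Multiset.card s : ℝ) with hmdef
    set Q := (s.map (fun r => X - C r)).prod
    have e0 : ((X - C a) * Q).coeff 0 = - a * Q.coeff 0 := by
      rw [sub_mul, coeff_sub, coeff_X_mul_zero, coeff_C_mul]; ring
    have e1 : ((X - C a) * Q).coeff 1 = Q.coeff 0 - a * Q.coeff 1 := by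
      rw [sub_mul, coeff_sub, coeff_X_mul, coeff_C_mul]
    have e2 : ((X - C a) * Q).coeff 2 = Q.coeff 1 - a * Q.coeff 2 := by
      rw [sub_mul, coeff_sub, coeff_X_mul, coeff_C_mul]
    rw [e0, e1, e2]
    push_cast
    rw [← hmdef]
    generalize Q.coeff 0 = q0 at *
    generalize Q.coeff 1 = q1 at *
    generalize Q.coeff 2 = q2 at *
    have h1 := mul_le_mul_of_nonneg_left ih (show (0 : ℝ) ≤ (m + 1) * a ^ 2 by positivity)
    have h2 := sq_nonneg (m * q0 + a * q1)
    have h3 : m * (2 * (m + 1) * (-a * q0 * (q1 - a * q2))) ≤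
        m * ((m + 1 - 1) * (q0 - a * q1) ^ 2) := by nlinarith
    exact le_of_mul_le_mul_left h3 (by linarith)

/-- Newton's inequality at 0 with the sharp degree constant. -/
theorem newton0_deg {f : ℝ[X]} (hf : f.Splits) (n : ℕ) (hn : f.natDegree ≤ n) :
    2 * (n : ℝ) * (f.coeff 0 * f.coeff 2) ≤ ((n : ℝ) - 1) * f.coeff 1 ^ 2 := by
  have hcard : Multiset.card f.roots = f.natDegree := splits_iff_card_roots.1 hf
  have h0 : 2 * (f.natDegree : ℝ) * (f.coeff 0 * f.coeff 2) ≤
      ((f.natDegree : ℝ) - 1) * f.coeff 1 ^ 2 := by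
    have h := nd_aux f.roots
    rw [hcard] at h
    have hc : ∀ i, f.coeff i = f.leadingCoeff * (f.roots.map (fun r => X - C r)).prod.coeff i := by
      intro i
      conv_lhs => rw [hf.eq_prod_roots]
      rw [coeff_C_mul]
    rw [hc 0, hc 1, hc 2]
    have h2 := mul_le_mul_of_nonneg_left h (sq_nonneg f.leadingCoeff)
    nlinarith
  rcases Nat.eq_zero_or_pos f.natDegree with hd | hd
  · have e1 : f.coeff 1 = 0 := coeff_eq_zero_of_natDegree_lt (by omega)
    have e2 : f.coeff 2 = 0 := coeff_eq_zero_of_natDegree_lt (by omega)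
    rw [e1, e2]; simp
  · set m : ℝ := (f.natDegree : ℝ) with hm
    have hm1 : (0 : ℝ) < m := by rw [hm]; exact_mod_cast hd
    have hmn : m ≤ n := by rw [hm]; exact_mod_cast hn
    have hy : 0 ≤ f.coeff 1 ^ 2 := sq_nonneg _
    have h3 : m * (2 * (n : ℝ) * (f.coeff 0 * f.coeff 2)) ≤ m * (((n : ℝ) - 1) * f.coeff 1 ^ 2) := by
      have h4 := mul_le_mul_of_nonneg_left h0 (show (0 : ℝ) ≤ n by linarith)
      nlinarith
    exact le_of_mul_le_mul_left h3 hm1

/-- Newton's inequalities with the sharp degree constants. -/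
theorem newton_deg {f : ℝ[X]} (hf : f.Splits) (d : ℕ) (hd : f.natDegree ≤ d) (k : ℕ) (hk : k + 1 ≤ d) :
    ((k : ℝ) + 2) * ((d : ℝ) - k) * (f.coeff k * f.coeff (k + 2)) ≤
      ((k : ℝ) + 1) * ((d : ℝ) - k - 1) * f.coeff (k + 1) ^ 2 := by
  have hdeg : (derivative^[k] f).natDegree ≤ d - k :=
    (natDegree_iterate_derivative f k).trans (Nat.sub_le_sub_right hd k)
  have h := newton0_deg (nd_splits_iterate hf k) (d - k) hdeg
  rw [coeff_iterate_derivative, coeff_iterate_derivative, coeff_iterate_derivative,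
    Nat.cast_sub (by omega)] at h
  have e0 : (0 + k).descFactorial k = k.factorial := by
    rw [Nat.zero_add, Nat.descFactorial_self]
  have e1 : (1 + k).descFactorial k = (k + 1).factorial := by
    have := Nat.factorial_mul_descFactorial (show k ≤ 1 + k by omega)
    rw [show 1 + k - k = 1 by omega] at this
    rw [show k + 1 = 1 + k by ring, ← this]
    simp
  have e2 : 2 * (2 + k).descFactorial k = (k + 2).factorial := by
    have := Nat.factorial_mul_descFactorial (show k ≤ 2 + k by omega)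
    rw [show 2 + k - k = 2 by omega] at this
    rw [show k + 2 = 2 + k by ring, ← this]
    simp [Nat.factorial]
  rw [e0, e1] at h
  simp only [nsmul_eq_mul] at h
  have e2' : 2 * ((2 + k).descFactorial k : ℝ) = ((k + 2).factorial : ℝ) := by exact_mod_cast e2
  have f1 : ((k + 1).factorial : ℝ) = ((k : ℝ) + 1) * (k.factorial : ℝ) := by
    rw [Nat.factorial_succ]; push_cast; ring
  have f2 : ((k + 2).factorial : ℝ) = ((k : ℝ) + 2) * ((k : ℝ) + 1) * (k.factorial : ℝ) := by
    rw [show k + 2 = (k + 1) + 1 by ring, Nat.factorial_succ, Nat.factorial_succ]; push_cast; ring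
  rw [Nat.zero_add, show 1 + k = k + 1 by ring, show 2 + k = k + 2 by ring] at h
  rw [show 2 + k = k + 2 by ring] at e2'
  have hk' : (0 : ℝ) < (k.factorial : ℝ) := by exact_mod_cast Nat.factorial_pos k
  have h3 : (k.factorial : ℝ) * (k.factorial : ℝ) * ((k : ℝ) + 1) *
      (((k : ℝ) + 2) * ((d : ℝ) - k) * (f.coeff k * f.coeff (k + 2))) ≤
      (k.factorial : ℝ) * (k.factorial : ℝ) * ((k : ℝ) + 1) *
      (((k : ℝ) + 1) * ((d : ℝ) - k - 1) * f.coeff (k + 1) ^ 2) := by
    have h4 : 2 * ((d : ℝ) - k) * ((k.factorial : ℝ) * f.coeff k *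
        (((k + 2).descFactorial k : ℝ) * f.coeff (k + 2))) =
        (k.factorial : ℝ) * (k.factorial : ℝ) * ((k : ℝ) + 1) *
        (((k : ℝ) + 2) * ((d : ℝ) - k) * (f.coeff k * f.coeff (k + 2))) := by
      linear_combination (((d : ℝ) - k) * (k.factorial : ℝ) * f.coeff k * f.coeff (k + 2)) *
        (e2'.trans f2)
    rw [← h4]
    refine h.trans (le_of_eq ?_)
    rw [f1]; ring
  exact le_of_mul_le_mul_left h3 (by positivity)

end RR722.NW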