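import Mathlib
set_option autoImplicit false
open Polynomial
namespace RR722.QU

theorem multi_ineq
    (aux88 : ∀ a : ℝ, 0 ≤ a → (67/50 : ℝ)^88 * a^14 * |a - 1|^9 ≤ (1 + a/4)^88)
    (A : Multiset ℝ) : (∀ a ∈ A, 0 ≤ a) →
    0 ≤ A.prod ∧ 0 ≤ (A.map fun a => |a - 1|).prod ∧ 0 ≤ (A.map fun a => 1 + a / 4).prod ∧
    ((67/50 : ℝ) ^ A.card) ^ 88 * A.prod ^ 14 * (A.map fun a => |a - 1|).prod ^ 9 ≤
      (A.map fun a => 1 + a / 4).prod ^ 88 := by
  induction A using Multiset.induction_on with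
  | empty => intro _; simp
  | cons a A ih =>
    intro hA
    have ha : 0 ≤ a := hA a (Multiset.mem_cons_self a A)
    obtain ⟨h1, h2, h3, h4⟩ := ih (fun b hb => hA b (Multiset.mem_cons_of_mem hb))
    have h5 := aux88 a ha
    simp only [Multiset.prod_cons, Multiset.map_cons, Multiset.card_cons]
    refine ⟨mul_nonneg ha h1, mul_nonneg (abs_nonneg _) h2, mul_nonneg (by positivity) h3, ?_⟩
    calc ((67/50 : ℝ) ^ (A.card + 1)) ^ 88 * (a * A.prod) ^ 14 *
          (|a - 1| * (A.map fun a => |a - 1|).prod) ^ 9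
        = ((67/50 : ℝ)^88 * a^14 * |a - 1|^9) * (((67/50 : ℝ) ^ A.card) ^ 88 * A.prod ^ 14 *
          (A.map fun a => |a - 1|).prod ^ 9) := by
          rw [pow_succ (67/50 : ℝ) A.card, mul_pow _ (67/50 : ℝ) 88, mul_pow a A.prod 14,
            mul_pow |a - 1| _ 9]
          generalize ((67/50 : ℝ) ^ A.card) ^ 88 = X1
          generalize (67/50 : ℝ) ^ 88 = X2
          generalize a ^ 14 = X3
          generalize A.prod ^ 14 = X4
          generalize |a - 1| ^ 9 = X5
          generalize (A.map fun a => |a - 1|).prod ^ 9 = X6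
          ring
      _ ≤ (1 + a/4)^88 * (A.map fun a => 1 + a / 4).prod ^ 88 := by
          refine mul_le_mul h5 h4 ?_ (pow_nonneg (by positivity) 88)
          exact mul_nonneg (mul_nonneg (pow_nonneg (pow_nonneg (by norm_num) _) _) (pow_nonneg h1 _))
            (pow_nonneg h2 _)
      _ = ((1 + a / 4) * (A.map fun a => 1 + a / 4).prod) ^ 88 := by rw [mul_pow]

theorem root_neg (h : ℝ[X]) (hpos : ∀ j, j ≤ h.natDegree → 0 < h.coeff j) {r : ℝ}
    (hr : h.eval r = 0) : r < 0 := by
  by_contra hc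
  push Not at hc
  rw [eval_eq_sum_range] at hr
  have h1 : 0 < ∑ i ∈ Finset.range (h.natDegree + 1), h.coeff i * r ^ i := by
    refine lt_of_lt_of_le (?_ : 0 < h.coeff 0 * r ^ 0) (Finset.single_le_sum (f := fun i => h.coeff i * r ^ i)
      (fun i hi => ?_) (Finset.mem_range.2 (Nat.succ_pos _)))
    · rw [pow_zero, mul_one]
      exact hpos 0 (Nat.zero_le _)
    · have := hpos i (Nat.lt_succ_iff.1 (Finset.mem_range.1 hi))
      positivity
  linarith

theorem eval_quarter
    (aux88 : ∀ a : ℝ, 0 ≤ a → (67/50 : ℝ)^88 * a^14 * |a - 1|^9 ≤ (1 + a/4)^88)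
    (h : ℝ[X]) (hs : h.Splits) (hpos : ∀ j, j ≤ h.natDegree → 0 < h.coeff j) (h0 : h.coeff 0 = 1)
    (hd : 1 ≤ h.coeff h.natDegree) (h1 : 1 ≤ |h.eval (-1)|) :
    (67/50 : ℝ)^h.natDegree ≤ h.eval (1/4) := by
  have hne : h ≠ 0 := by
    rintro rfl
    simp at h0
  have hfac := hs.eq_prod_roots
  set R := h.roots with hR
  have hev : ∀ x : ℝ, h.eval x = h.leadingCoeff * (R.map fun r => x - r).prod := by
    intro x
    conv_lhs => rw [hfac]
    rw [eval_mul, eval_C, eval_multiset_prod, Multiset.map_map]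
    congr 3
    funext r
    simp
  have hneg : ∀ r ∈ R, r < 0 := by
    intro r hr
    exact root_neg h hpos ((mem_roots hne).1 hr)
  have hcard : R.card = h.natDegree := hs.natDegree_eq_card_roots.symm
  set A : Multiset ℝ := R.map fun r => -r⁻¹ with hA
  have hApos : ∀ a ∈ A, 0 ≤ a := by
    intro a ha
    obtain ⟨r, hr, rfl⟩ := Multiset.mem_map.1 ha
    have := inv_lt_zero.2 (hneg r hr)
    linarith
  have hAcard : A.card = h.natDegree := by rw [hA, Multiset.card_map, hcard]
  -- the leading coefficient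
  have hlc : h.leadingCoeff = A.prod := by
    have e0 := hev 0
    rw [← coeff_zero_eq_eval_zero, h0] at e0
    have e1 : (R.map fun r => (0 : ℝ) - r).prod * A.prod = 1 := by
      rw [hA, ← Multiset.prod_map_mul]
      have : R.map (fun r => (0 - r) * -r⁻¹) = R.map (fun _ => (1 : ℝ)) := by
        refine Multiset.map_congr rfl ?_
        intro r hr
        have := (hneg r hr).ne
        field_simp
        ring
      rw [this, Multiset.map_const', Multiset.prod_replicate, one_pow]
    calc h.leadingCoeff = h.leadingCoeff * ((R.map fun r => (0 : ℝ) - r).prod * A.prod) := by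
          rw [e1, mul_one]
      _ = (h.leadingCoeff * (R.map fun r => (0 : ℝ) - r).prod) * A.prod := by ring
      _ = A.prod := by rw [← e0, one_mul]
  have hev2 : ∀ x : ℝ, h.eval x = (A.map fun a => 1 + a * x).prod := by
    intro x
    rw [hev, hlc, hA, ← Multiset.prod_map_mul, Multiset.map_map]
    congr 1
    refine Multiset.map_congr rfl ?_
    intro r hr
    have := (hneg r hr).ne
    simp only [Function.comp_apply]
    field_simp
    ring
  have hm1 : |h.eval (-1)| = (A.map fun a => |a - 1|).prod := by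
    rw [hev2]
    refine (map_multiset_prod (absHom : ℝ →*₀ ℝ) _).trans ?_
    rw [Multiset.map_map]
    congr 1
    refine Multiset.map_congr rfl ?_
    intro a _
    show |1 + a * (-1)| = |a - 1|
    rw [← abs_neg]
    congr 1
    ring
  have h14 : h.eval (1/4) = (A.map fun a => 1 + a / 4).prod := by
    rw [hev2]
    congr 1
    refine Multiset.map_congr rfl ?_
    intro a _
    ring
  obtain ⟨i1, i2, i3, i4⟩ := multi_ineq aux88 A hApos
  rw [← hm1, ← h14, ← hlc, hAcard] at i4
  rw [← h14] at i3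
  refine le_of_pow_le_pow_left₀ (n := 88) (by norm_num) i3 (le_trans ?_ i4)
  have e1 : (1 : ℝ) ≤ h.leadingCoeff ^ 14 := one_le_pow₀ hd
  have e2 : (1 : ℝ) ≤ |h.eval (-1)| ^ 9 := one_le_pow₀ h1
  have e3 : (0 : ℝ) < ((67/50 : ℝ) ^ h.natDegree) ^ 88 := pow_pos (pow_pos (by norm_num) _) _
  calc ((67/50 : ℝ) ^ h.natDegree) ^ 88 = ((67/50 : ℝ) ^ h.natDegree) ^ 88 * 1 * 1 := by ring
    _ ≤ ((67/50 : ℝ) ^ h.natDegree) ^ 88 * h.leadingCoeff ^ 14 * |h.eval (-1)| ^ 9 := by
        refine mul_le_mul (mul_le_mul_of_nonneg_left e1 e3.le) e2 zero_le_one ?_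
        exact mul_nonneg e3.le (zero_le_one.trans e1)

end RR722.QU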