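import Mathlib
set_option autoImplicit false
open Polynomial
namespace RR722.RL

theorem iter_der (h : ℝ[X]) (k : ℕ) :
    derivative^[k + 1] ((1 - X) * h) =
      (1 - X) * derivative^[k + 1] h - ((k : ℝ[X]) + 1) * derivative^[k] h := by
  induction k with
  | zero =>
    simp only [zero_add, Function.iterate_one, Function.iterate_zero, id_eq, derivative_mul,
      derivative_sub, derivative_one, derivative_X, Nat.cast_zero]
    ring
  | succ k ih =>
    rw [Function.iterate_succ_apply', ih]
    simp only [derivative_mul, derivative_sub, derivative_one, derivative_X, derivative_add,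
      derivative_natCast, ← Function.iterate_succ_apply' (f := derivative)]
    push_cast
    ring

theorem coeff_ineq (h : ℝ[X]) (hpos : ∀ j, j ≤ h.natDegree → 0 < h.coeff j)
    (hN : ∀ k, k + 1 ≤ h.natDegree →
      ((k : ℝ) + 2) * ((h.natDegree : ℝ) - k) * (h.coeff k * h.coeff (k + 2)) ≤
        ((k : ℝ) + 1) * ((h.natDegree : ℝ) - k - 1) * h.coeff (k + 1) ^ 2)
    (k : ℕ) (b : ℝ)
    (hb : b * (((h.natDegree : ℝ) - k) * h.coeff k) = ((k : ℝ) + 1) * h.coeff (k + 1)) (j : ℕ)
    (hj : j + k ≤ h.natDegree) :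
    ((j : ℝ) + k + 1) * h.coeff (j + k + 1) ≤ ((h.natDegree : ℝ) - k - j) * b * h.coeff (j + k) := by
  induction j with
  | zero =>
    simp only [zero_add, Nat.cast_zero]
    linarith
  | succ j ih =>
    have ih' := ih (by omega)
    have hKd : j + k + 1 ≤ h.natDegree := by omega
    have hKd' : ((j : ℝ) + k + 1) ≤ h.natDegree := by exact_mod_cast hKd
    have hN' := hN (j + k) hKd
    have hK := hpos (j + k) (by omega)
    have hK1 := hpos (j + k + 1) (by omega)
    push_cast at hN' ⊢
    rw [show j + 1 + k = j + k + 1 by omega, show j + k + 1 + 1 = j + k + 2 by omega]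
    set A := h.coeff (j + k)
    set B := h.coeff (j + k + 1)
    set C := h.coeff (j + k + 2)
    have hD : 0 < ((h.natDegree : ℝ) - k - j) * A := by
      apply mul_pos _ hK
      linarith
    have h1 : ((h.natDegree : ℝ) - (j + k) - 1) * B * (((j : ℝ) + k + 1) * B) ≤
        ((h.natDegree : ℝ) - (j + k) - 1) * B * (((h.natDegree : ℝ) - k - j) * b * A) := by
      apply mul_le_mul_of_nonneg_left ih'
      apply mul_nonneg _ hK1.le
      linarith
    have h2 : (((j : ℝ) + 1 + k + 1) * C) * (((h.natDegree : ℝ) - k - j) * A) ≤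
        (((h.natDegree : ℝ) - k - (j + 1)) * b * B) * (((h.natDegree : ℝ) - k - j) * A) := by
      nlinarith
    exact le_of_mul_le_mul_right h2 hD

theorem psi_ineq (h : ℝ[X]) (hpos : ∀ j, j ≤ h.natDegree → 0 < h.coeff j)
    (hN : ∀ k, k + 1 ≤ h.natDegree →
      ((k : ℝ) + 2) * ((h.natDegree : ℝ) - k) * (h.coeff k * h.coeff (k + 2)) ≤
        ((k : ℝ) + 1) * ((h.natDegree : ℝ) - k - 1) * h.coeff (k + 1) ^ 2)
    (k : ℕ) (b : ℝ)
    (hb : b * (((h.natDegree : ℝ) - k) * h.coeff k) = ((k : ℝ) + 1) * h.coeff (k + 1))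
    (t : ℝ) (ht : 0 ≤ t) :
    (derivative^[k + 1] h).eval t * (1 + b * t) ≤
      ((h.natDegree : ℝ) - k) * b * (derivative^[k] h).eval t := by
  set ψ := derivative^[k] h with hψ
  have hψ' : derivative^[k + 1] h = derivative ψ := by
    rw [Function.iterate_succ_apply']
  set P : ℝ[X] := C (((h.natDegree : ℝ) - k) * b) * ψ - (derivative ψ + C b * (X * derivative ψ))
    with hP
  have hPe : P.eval t = ((h.natDegree : ℝ) - k) * b * ψ.eval t -
      (derivative ψ).eval t * (1 + b * t) := by
    rw [hP]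
    simp only [eval_sub, eval_mul, eval_C, eval_add, eval_X]
    ring
  have hcoef : ∀ j, 0 ≤ P.coeff j := by
    intro j
    have e1 : P.coeff j = ((h.natDegree : ℝ) - k) * b * ψ.coeff j - (ψ.coeff (j + 1) * (j + 1)
        + b * (ψ.coeff j * j)) := by
      rw [hP]
      simp only [coeff_sub, coeff_add, coeff_C_mul, coeff_derivative]
      congr 2
      cases j with
      | zero => simp
      | succ j =>
        rw [coeff_X_mul, coeff_derivative]
        push_cast
        ring
    have e2 : ∀ l, ψ.coeff l = ((l + k).descFactorial k : ℝ) * h.coeff (l + k) := by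
      intro l
      rw [hψ, coeff_iterate_derivative]
      simp
    rw [e1, e2, e2]
    have e3 : (((j + 1 + k).descFactorial k : ℕ) : ℝ) * (j + 1) =
        ((j : ℝ) + k + 1) * ((j + k).descFactorial k : ℕ) := by
      have e4 : (j + 1 + k).descFactorial k * (j + 1) = (j + k + 1) * (j + k).descFactorial k := by
        have e5 := Nat.descFactorial_succ (j + 1 + k) k
        rw [show j + 1 + k - k = j + 1 by omega] at e5
        have e6 := Nat.succ_descFactorial_succ (j + k) k
        rw [show j + 1 + k = j + k + 1 by omega] at e5 ⊢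
        rw [← e6, e5]
        ring
      exact_mod_cast e4
    by_cases hj : j + k ≤ h.natDegree
    · have key := coeff_ineq h hpos hN k b hb j hj
      rw [show j + 1 + k = j + k + 1 by omega] at e3 ⊢
      have hD : (0 : ℝ) ≤ ((j + k).descFactorial k : ℕ) := by positivity
      have key2 := mul_le_mul_of_nonneg_left key hD
      have e7 : ((j + k + 1).descFactorial k : ℝ) * h.coeff (j + k + 1) * ((j : ℝ) + 1) =
          ((j + k).descFactorial k : ℝ) * (((j : ℝ) + k + 1) * h.coeff (j + k + 1)) := by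
        linear_combination (h.coeff (j + k + 1)) * e3
      rw [e7]
      linarith
    · have z1 : h.coeff (j + k) = 0 := coeff_eq_zero_of_natDegree_lt (by omega)
      have z2 : h.coeff (j + 1 + k) = 0 := coeff_eq_zero_of_natDegree_lt (by omega)
      rw [z1, z2]
      simp
  have hnn : 0 ≤ P.eval t := by
    rw [eval_eq_sum_range]
    exact Finset.sum_nonneg fun j _ => mul_nonneg (hcoef j) (pow_nonneg ht j)
  rw [hψ']
  linarith

/-- Location of a positive root of the (i-1)-st derivative of (1-X)h. The second hypothesis says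
that H_j = h_j / C(d,j) is log-concave (Newton's inequalities, proved elsewhere). -/
theorem root_loc (h : ℝ[X]) (hpos : ∀ j, j ≤ h.natDegree → 0 < h.coeff j)
    (hN : ∀ k, k + 1 ≤ h.natDegree →
      ((k : ℝ) + 2) * ((h.natDegree : ℝ) - k) * (h.coeff k * h.coeff (k + 2)) ≤
        ((k : ℝ) + 1) * ((h.natDegree : ℝ) - k - 1) * h.coeff (k + 1) ^ 2)
    (i : ℕ) (hi : 2 ≤ i) (hid : i ≤ h.natDegree) (hg : h.coeff (i - 2) < h.coeff (i - 1)) :
    ∃ t : ℝ, 0 < t ∧ (derivative^[i - 1] ((1 - X) * h)).eval t = 0 ∧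
      t * (h.coeff (i - 1) * ((h.natDegree : ℝ) + 1)) ≤
        (h.coeff (i - 1) - h.coeff (i - 2)) * ((h.natDegree : ℝ) - i + 2) := by
  obtain ⟨k, rfl⟩ : ∃ k, i = k + 2 := ⟨i - 2, by omega⟩
  have s1 : k + 2 - 1 = k + 1 := rfl
  have s2 : k + 2 - 2 = k := rfl
  rw [s1, s2] at *
  set d := h.natDegree with hd
  have hk := hpos k (by omega)
  have hk1 := hpos (k + 1) (by omega)
  have hdk : (k : ℝ) + 2 ≤ d := by exact_mod_cast hid
  have hm : (0 : ℝ) < (d : ℝ) - k := by linarith
  set a0 := h.coeff k with ha0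
  set a1 := h.coeff (k + 1) with ha1
  set b : ℝ := ((k : ℝ) + 1) * a1 / (((d : ℝ) - k) * a0) with hbdef
  have hbpos : 0 < b := by positivity
  have hb : b * (((d : ℝ) - k) * a0) = ((k : ℝ) + 1) * a1 := by
    rw [hbdef]; field_simp
  set t0 : ℝ := (a1 - a0) * ((d : ℝ) - k) / (a1 * ((d : ℝ) + 1)) with ht0
  have hg' : a0 < a1 := hg
  have hdiff : 0 < a1 - a0 := by linarith
  have hd1 : (0 : ℝ) < (d : ℝ) + 1 := by positivity
  have ht0pos : 0 < t0 := by positivity
  have ht0m : t0 * (a1 * ((d : ℝ) + 1)) = (a1 - a0) * ((d : ℝ) - k) := by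
    rw [ht0]; field_simp
  have ht01 : t0 < 1 := by
    rw [ht0, div_lt_one (by positivity)]
    have h1 : (a1 - a0) * ((d : ℝ) - k) < a1 * ((d : ℝ) - k) := by
      apply mul_lt_mul_of_pos_right _ hm
      linarith
    have h2 : a1 * ((d : ℝ) - k) ≤ a1 * ((d : ℝ) + 1) := by
      apply mul_le_mul_of_nonneg_left _ hk1.le
      have : (0 : ℝ) ≤ k := Nat.cast_nonneg k
      linarith
    linarith
  set F := derivative^[k + 1] ((1 - X) * h) with hF
  have hFe : ∀ t, F.eval t = (1 - t) * (derivative^[k + 1] h).eval t -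
      ((k : ℝ) + 1) * (derivative^[k] h).eval t := by
    intro t
    rw [hF, iter_der]
    simp
  have hF0 : 0 < F.eval 0 := by
    rw [← coeff_zero_eq_eval_zero, hF, coeff_iterate_derivative]
    have e : ((1 - X) * h).coeff (0 + (k + 1)) = a1 - a0 := by
      rw [zero_add, sub_mul, one_mul, coeff_sub, coeff_X_mul]
    rw [e]
    simp only [zero_add, Nat.descFactorial_self, nsmul_eq_mul]
    have : (0 : ℝ) < ((k + 1).factorial : ℕ) := by exact_mod_cast Nat.factorial_pos _
    positivity
  have hψpos : 0 ≤ (derivative^[k] h).eval t0 := by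
    rw [eval_eq_sum_range]
    apply Finset.sum_nonneg
    intro j _
    apply mul_nonneg _ (pow_nonneg ht0pos.le j)
    rw [coeff_iterate_derivative, nsmul_eq_mul]
    apply mul_nonneg (by positivity)
    by_cases hj : j + k ≤ d
    · exact (hpos _ hj).le
    · rw [coeff_eq_zero_of_natDegree_lt (by omega)]
  have hFt0 : F.eval t0 ≤ 0 := by
    have key := psi_ineq h hpos hN k b hb t0 ht0pos.le
    have hpos1 : 0 < 1 + b * t0 := by positivity
    have hkey2 : F.eval t0 * (1 + b * t0) ≤ 0 := by
      rw [hFe]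
      have h3 : (1 - t0) * ((derivative^[k + 1] h).eval t0 * (1 + b * t0)) ≤
          (1 - t0) * (((d : ℝ) - k) * b * (derivative^[k] h).eval t0) :=
        mul_le_mul_of_nonneg_left key (by linarith)
      have h4 : (1 - t0) * (((d : ℝ) - k) * b) = ((k : ℝ) + 1) * (1 + b * t0) := by
        have h5 : a0 * ((1 - t0) * (((d : ℝ) - k) * b)) = a0 * (((k : ℝ) + 1) * (1 + b * t0)) := by
          have h6 : ((d : ℝ) - k) * (a0 * b * t0 * ((d : ℝ) + 1)) =
              ((d : ℝ) - k) * (((k : ℝ) + 1) * (a1 - a0)) := by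
            linear_combination (((k : ℝ) + 1)) * ht0m + t0 * ((d : ℝ) + 1) * hb
          have h7 := mul_left_cancel₀ hm.ne' h6
          linear_combination hb - h7
        exact mul_left_cancel₀ hk.ne' h5
      calc ((1 - t0) * (derivative^[k + 1] h).eval t0 -
            ((k : ℝ) + 1) * (derivative^[k] h).eval t0) * (1 + b * t0)
          = (1 - t0) * ((derivative^[k + 1] h).eval t0 * (1 + b * t0)) -
            (((k : ℝ) + 1) * (1 + b * t0)) * (derivative^[k] h).eval t0 := by ring
        _ ≤ (1 - t0) * (((d : ℝ) - k) * b * (derivative^[k] h).eval t0) -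
            (((k : ℝ) + 1) * (1 + b * t0)) * (derivative^[k] h).eval t0 := by linarith
        _ = 0 := by rw [← h4]; ring
    by_contra hcon
    push Not at hcon
    have := mul_pos hcon hpos1
    linarith
  have hivt := intermediate_value_Icc' ht0pos.le (F.continuous.continuousOn (s := Set.Icc 0 t0))
  obtain ⟨t, ⟨ht1, ht2⟩, ht3⟩ := hivt ⟨hFt0, hF0.le⟩
  refine ⟨t, ?_, ht3, ?_⟩
  · rcases ht1.lt_or_eq with h1 | h1
    · exact h1
    · exfalso
      rw [← h1] at ht3
      simp only at ht3
      linarith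
  · have h8 : t * (a1 * ((d : ℝ) + 1)) ≤ t0 * (a1 * ((d : ℝ) + 1)) :=
      mul_le_mul_of_nonneg_right ht2 (by positivity)
    rw [ht0m] at h8
    push_cast
    linarith


end RR722.RL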