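import Mathlib
import Pool.Agent.Helper722.RR.KCDef
import Pool.Agent.Helper722.RR.KCNum
import Pool.Agent.Helper722.RR.KCBounds
import Pool.Agent.Helper722.RR.Lam
import Pool.Agent.Helper722.RR.Newton
import Pool.Agent.Helper722.RR.RootLoc
import Pool.Agent.Helper722.RR.NFull
import Pool.Agent.Helper722.RR.Aux88
import Pool.Agent.Helper722.RR.Quarter
import Pool.Agent.Helper722.RR.HBound
import Pool.Agent.Helper722.RR.Divide
import Pool.Agent.Helper722.RR.GoalDef
set_option autoImplicit false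
namespace RR722

open Polynomial

/-- Contradiction from a failure of Kruskal-Katona, the improved Newton inequality, the
`λ`-lemma and the final inequality. -/
theorem no_fail {i A n p q : ℕ} (h : KC i A n p q) (hi : 2 ≤ i) (M : ℕ) (hM : 2 ≤ M) (X g1 g2 : ℝ)
    (hg1 : (q : ℝ) ≤ g1) (hg2 : (p : ℝ) + 1 ≤ g2)
    (hN : ((i : ℝ) + 1) * (M * (M + 1)) * g1 * g2 ≤ i * (n : ℝ) ^ 2 * (M * (M + 1) - X))
    (hX : 0 < X)
    (hG : Goal i M A X) : False := by
  have hn : (0 : ℝ) < n := by exact_mod_cast h.rpos.1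
  have hq : (0 : ℝ) < q := by exact_mod_cast h.rpos.2
  have hA : (1 : ℝ) ≤ A := by exact_mod_cast h.top_pos.2
  have hiR : (2 : ℝ) ≤ i := by exact_mod_cast hi
  have hMR : (2 : ℝ) ≤ M := by exact_mod_cast hM
  have hY : (0 : ℝ) < M * (M + 1) := by positivity
  set Y : ℝ := M * (M + 1) with hYdef
  have hp : (0 : ℝ) ≤ p := Nat.cast_nonneg p
  -- (i+1) Y p q < i n^2 (Y - X)
  have h1 : ((i : ℝ) + 1) * Y * (p * q) < i * (n : ℝ) ^ 2 * (Y - X) := by
    have h2 : (p : ℝ) * q < g1 * g2 := by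
      have : (q : ℝ) * (p + 1) ≤ g1 * g2 := mul_le_mul hg1 hg2 (by positivity) (by linarith)
      nlinarith
    have h3 := mul_lt_mul_of_pos_left h2 (show (0 : ℝ) < ((i : ℝ) + 1) * Y by positivity)
    nlinarith
  rcases (by omega : i = 2 ∨ 3 ≤ i) with h2 | h2
  · subst h2
    have h3 := h.psi_two
    have h4 : (2 : ℝ) * n ^ 2 * (3 * A) ≤ 3 * A * (3 * p * q) + 8 * n ^ 2 := by exact_mod_cast h3
    unfold Goal at hG
    rw [if_pos rfl] at hG
    push_cast at h1
    have h5 : Y * (2 * n ^ 2 * (3 * A)) ≤ Y * (3 * A * (3 * p * q) + 8 * n ^ 2) :=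
      mul_le_mul_of_nonneg_left h4 hY.le
    have h6 : (3 * (A : ℝ)) * ((2 + 1) * Y * (p * q)) < (3 * A) * (2 * (n : ℝ) ^ 2 * (Y - X)) :=
      mul_lt_mul_of_pos_left h1 (by linarith)
    have h7 : (n : ℝ) ^ 2 * (3 * A * X) < (n : ℝ) ^ 2 * (4 * Y) := by nlinarith
    have h8 := lt_of_mul_lt_mul_left h7 (by positivity)
    linarith
  · have h3 := h.lam hi
    -- i n X < (1+lam) q Y
    have h4 : (n : ℝ) * (i * n * X) < n * ((1 + lamv i A) * q * Y) := by
      have h5 := mul_le_mul_of_nonneg_left h3 hY.le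
      nlinarith
    have h5 : (i : ℝ) * n * X < (1 + lamv i A) * q * Y := lt_of_mul_lt_mul_left h4 hn.le
    have hF1 : (A : ℝ) * q ≤ i * n + q := by exact_mod_cast h.F1
    have hgen : 3 < i → ((A : ℝ) - 1) * X < (1 + lamv i A) * Y := by
      intro _
      have h6 : q * (((A : ℝ) - 1) * X) < q * ((1 + lamv i A) * Y) := by
        have : ((A : ℝ) * q - q) * X ≤ (i * n) * X :=
          mul_le_mul_of_nonneg_right (by linarith) hX.le
        nlinarith
      exact lt_of_mul_lt_mul_left h6 hq.le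
    rcases (by omega : i = 3 ∨ i = 4 ∨ i = 5 ∨ 6 ≤ i) with h7 | h7 | h7 | h7
    · subst h7
      have hF3 : (2 : ℝ) * A * q ≤ 6 * n + q := by exact_mod_cast h.F1_three
      unfold Goal at hG
      rw [if_neg (by norm_num), if_pos rfl] at hG
      have e : lamv 3 A = 1/3 + 6 / (5 * (A : ℝ)) := by unfold lamv; simp
      rw [e] at h5
      have h8 : q * ((2 * (A : ℝ) - 1) * X) < q * (2 * (1 + (1/3 + 6 / (5 * (A : ℝ)))) * Y) := by
        have : ((2 : ℝ) * A * q - q) * X ≤ (6 * n) * X :=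
          mul_le_mul_of_nonneg_right (by linarith) hX.le
        push_cast at h5
        nlinarith
      have h9 := lt_of_mul_lt_mul_left h8 hq.le
      have h10 := mul_lt_mul_of_pos_left h9 (show (0 : ℝ) < 15 * A by linarith)
      have e2 : (15 * (A : ℝ)) * (2 * (1 + (1/3 + 6 / (5 * (A : ℝ)))) * Y) =
          2 * (20 * A + 18) * Y := by
        field_simp; ring
      rw [e2] at h10
      linarith
    · subst h7
      have h8 := hgen (by norm_num)
      unfold Goal at hG
      rw [if_neg (by norm_num), if_neg (by norm_num), if_pos rfl] at hG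
      have e : lamv 4 A = 1/4 + 9 / (5 * (A : ℝ)) := by unfold lamv; simp
      rw [e] at h8
      have h10 := mul_lt_mul_of_pos_left h8 (show (0 : ℝ) < 20 * A by linarith)
      have e2 : (20 * (A : ℝ)) * ((1 + (1/4 + 9 / (5 * (A : ℝ)))) * Y) =
          (25 * A + 36) * Y := by
        field_simp; ring
      rw [e2] at h10
      linarith
    · subst h7
      have h8 := hgen (by norm_num)
      unfold Goal at hG
      rw [if_neg (by norm_num), if_neg (by norm_num), if_neg (by norm_num), if_pos rfl] at hG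
      have e : lamv 5 A = 1/5 + 3 / (A : ℝ) := by unfold lamv; simp
      rw [e] at h8
      have h10 := mul_lt_mul_of_pos_left h8 (show (0 : ℝ) < 5 * A by linarith)
      have e2 : (5 * (A : ℝ)) * ((1 + (1/5 + 3 / (A : ℝ))) * Y) =
          (6 * A + 15) * Y := by
        field_simp; ring
      rw [e2] at h10
      linarith
    · have h8 := hgen (by omega)
      unfold Goal at hG
      rw [if_neg (by omega), if_neg (by omega), if_neg (by omega), if_neg (by omega)] at hG
      have e : lamv i A = 1 / (i : ℝ) + 4 / (A : ℝ) := by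
        unfold lamv
        rw [if_neg (by omega), if_neg (by omega), if_neg (by omega), if_neg (by omega)]
      rw [e] at h8
      have h10 := mul_lt_mul_of_pos_left h8 (show (0 : ℝ) < i * A by positivity)
      have e2 : ((i : ℝ) * A) * ((1 + (1 / (i : ℝ) + 4 / (A : ℝ))) * Y) =
          (i * A + A + 4 * i) * Y := by
        field_simp
        ring
      rw [e2] at h10
      linarith

/-- For a log-concave positive sequence with `H 0 = 1`: `H i ≥ (H i / H (i-1))^i`. -/
theorem ratio_pow (d : ℕ) (H : ℕ → ℝ) (hpos : ∀ j, j ≤ d → 0 < H j) (h0 : H 0 = 1)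
    (hlc : ∀ j, j + 2 ≤ d → H j * H (j + 2) ≤ H (j + 1) ^ 2) (i : ℕ) (hi : 1 ≤ i) (hid : i ≤ d) :
    (H i / H (i - 1)) ^ i ≤ H i := by
  have hstep : ∀ m, ∀ j, j + 1 + m = i → H i / H (i - 1) ≤ H (j + 1) / H j := by
    intro m
    induction m with
    | zero =>
      intro j hj
      have : i = j + 1 := by omega
      subst this
      simp
    | succ m ih =>
      intro j hj
      have h1 := ih (j + 1) (by omega)
      have h2 := hlc j (by omega)
      have hp0 := hpos j (by omega)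
      have hp1 := hpos (j + 1) (by omega)
      refine h1.trans ?_
      rw [div_le_div_iff₀ hp1 hp0]
      nlinarith
  have hmain : ∀ j, j ≤ i → (H i / H (i - 1)) ^ j ≤ H j := by
    intro j
    induction j with
    | zero => intro _; simp [h0]
    | succ j ih =>
      intro hj
      have h1 := ih (by omega)
      have h2 := hstep (i - (j + 1)) j (by omega)
      have hp0 := hpos j (by omega)
      have hr : 0 ≤ H i / H (i - 1) := (div_pos (hpos i hid) (hpos (i - 1) (by omega))).le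
      rw [pow_succ]
      calc (H i / H (i - 1)) ^ j * (H i / H (i - 1)) ≤ H j * (H (j + 1) / H j) :=
            mul_le_mul h1 h2 hr hp0.le
        _ = H (j + 1) := by field_simp
  exact hmain i le_rfl

theorem eval_neg_one_int (p : ℕ[X]) (h : (p.map (Nat.castRingHom ℝ)).eval (-1) ≠ 0) :
    1 ≤ |(p.map (Nat.castRingHom ℝ)).eval (-1)| := by
  have e1 : p.map (Nat.castRingHom ℝ) = (p.map (Nat.castRingHom ℤ)).map (Int.castRingHom ℝ) := by
    rw [Polynomial.map_map]
    congr 1
  have e2 : (p.map (Nat.castRingHom ℝ)).eval (-1) =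
      (((p.map (Nat.castRingHom ℤ)).eval (-1) : ℤ) : ℝ) := by
    rw [e1]
    have := Polynomial.eval_intCast_map (Int.castRingHom ℝ) (p.map (Nat.castRingHom ℤ)) (-1)
    simpa using this
  rw [e2] at h ⊢
  have h2 : (p.map (Nat.castRingHom ℤ)).eval (-1) ≠ 0 := by
    intro h3; rw [h3] at h; simp at h
  have h3 : (1 : ℤ) ≤ |(p.map (Nat.castRingHom ℤ)).eval (-1)| := Int.one_le_abs h2
  exact_mod_cast h3

/-- All analytic information about a real-rooted polynomial that is used. -/
theorem analytic (p : ℕ[X]) (h0 : p.coeff 0 = 1)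
    (hr : (p.map (Nat.castRingHom ℝ)).roots.card = p.natDegree)
    (hne : (p.map (Nat.castRingHom ℝ)).eval (-1) ≠ 0) :
    (∀ i, 1 ≤ i → i ≤ p.natDegree →
      min ((109/100 : ℝ) ^ (p.natDegree - i)) ((34/25 : ℝ) ^ i) * (p.natDegree.choose i : ℝ) ≤
        (p.coeff i : ℝ)) ∧
    (∀ i, 1 ≤ i → i ≤ p.natDegree →
      ((i : ℝ) * p.coeff i / (((p.natDegree : ℝ) - i + 1) * p.coeff (i - 1))) ^ i *
        (p.natDegree.choose i : ℝ) ≤ (p.coeff i : ℝ)) ∧
    (1 ≤ p.natDegree → 2 * (p.natDegree : ℝ) * p.coeff 2 ≤ ((p.natDegree : ℝ) - 1) * (p.coeff 1 : ℝ) ^ 2) ∧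
    (∀ i, 2 ≤ i → i + 1 ≤ p.natDegree → p.coeff (i - 2) < p.coeff (i - 1) →
      p.coeff (i - 1) < p.coeff i →
      (i : ℝ) * (i + 1) * ((p.natDegree : ℝ) - i + 1) * ((p.natDegree : ℝ) - i + 2) *
        ((p.coeff (i - 1) : ℝ) - p.coeff (i - 2)) * ((p.coeff (i + 1) : ℝ) - p.coeff i) +
      ((i : ℝ) * ((p.coeff i : ℝ) - p.coeff (i - 1)) + ((p.natDegree : ℝ) + 1) * p.coeff (i - 1)) ^ 2 ≤
      (((p.natDegree : ℝ) - i + 1) * i * ((p.coeff i : ℝ) - p.coeff (i - 1))) ^ 2) := by
  set P := p.map (Nat.castRingHom ℝ) with hP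
  have hPd : P.natDegree = p.natDegree := DV.natDegree_cast p
  have hc : ∀ i, P.coeff i = (p.coeff i : ℝ) := DV.coeff_cast p
  have hsp : P.Splits := by
    rw [splits_iff_card_roots, hr, hPd]
  have hcpos : ∀ j, j ≤ p.natDegree → 0 < p.coeff j := fun j hj => DV.coeff_pos h0 hr hj
  have hpos : ∀ j, j ≤ P.natDegree → 0 < P.coeff j := by
    intro j hj
    rw [hc]
    exact_mod_cast hcpos j (by rwa [hPd] at hj)
  have hN : ∀ k, k + 1 ≤ P.natDegree →
      ((k : ℝ) + 2) * ((P.natDegree : ℝ) - k) * (P.coeff k * P.coeff (k + 2)) ≤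
        ((k : ℝ) + 1) * ((P.natDegree : ℝ) - k - 1) * P.coeff (k + 1) ^ 2 :=
    fun k hk => NW.newton_deg hsp P.natDegree le_rfl k hk
  have habs := eval_neg_one_int p hne
  rw [← hP] at habs
  have hlead : 1 ≤ P.coeff P.natDegree := by
    rw [hc, hPd]
    exact_mod_cast hcpos _ le_rfl
  have hP0 : P.coeff 0 = 1 := by rw [hc, h0]; simp
  have hq := QU.eval_quarter A88.aux88 P hsp hpos hP0 hlead habs
  rw [hPd] at hpos hN hlead hq
  set d := p.natDegree with hd
  -- normalised coefficients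
  set H : ℕ → ℝ := fun j => P.coeff j / (d.choose j : ℝ) with hH
  have hch : ∀ j, j ≤ d → (0 : ℝ) < (d.choose j : ℝ) := by
    intro j hj; exact_mod_cast Nat.choose_pos hj
  have hHpos : ∀ j, j ≤ d → 0 < H j := fun j hj => div_pos (hpos j hj) (hch j hj)
  have hH0 : H 0 = 1 := by simp [hH, hP0]
  have hHd : 1 ≤ H d := by simp only [hH, Nat.choose_self, Nat.cast_one, div_one]; exact hlead
  have hcc : ∀ j, j + 1 ≤ d → (d.choose (j + 1) : ℝ) * ((j : ℝ) + 1) = (d.choose j : ℝ) * ((d : ℝ) - j) := by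
    intro j hj
    have h1 := Nat.choose_succ_right_eq d j
    have h2 : (d.choose (j + 1) : ℝ) * ((j + 1 : ℕ) : ℝ) = (d.choose j : ℝ) * ((d - j : ℕ) : ℝ) := by
      exact_mod_cast h1
    rw [Nat.cast_sub (by omega)] at h2
    push_cast at h2
    exact h2
  have hlc : ∀ j, j + 2 ≤ d → H j * H (j + 2) ≤ H (j + 1) ^ 2 := by
    intro j hj
    have h1 := hN j (by omega)
    have c0 := hch j (by omega)
    have c1 := hch (j + 1) (by omega)
    have c2 := hch (j + 2) hj
    have e1 := hcc j (by omega)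
    have e2 := hcc (j + 1) (by omega)
    rw [show j + 1 + 1 = j + 2 by ring] at e2
    push_cast at e2
    have hjd : (j : ℝ) + 2 ≤ d := by exact_mod_cast hj
    have hj0 : (0 : ℝ) ≤ j := Nat.cast_nonneg j
    have hx : (0 : ℝ) < (d : ℝ) - j - 1 := by linarith
    have hy : (0 : ℝ) < (d : ℝ) - j := by linarith
    -- C_j C_{j+2} (j+2)(d-j) = C_{j+1}^2 (j+1)(d-j-1)
    have e3 : (d.choose j : ℝ) * (d.choose (j + 2) : ℝ) * (((j : ℝ) + 2) * ((d : ℝ) - j)) =
        (d.choose (j + 1) : ℝ) ^ 2 * (((j : ℝ) + 1) * ((d : ℝ) - j - 1)) := by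
      have e2' : (d.choose (j + 2) : ℝ) * ((j : ℝ) + 2) =
          (d.choose (j + 1) : ℝ) * ((d : ℝ) - j - 1) := by linarith
      calc (d.choose j : ℝ) * (d.choose (j + 2) : ℝ) * (((j : ℝ) + 2) * ((d : ℝ) - j)) =
          ((d.choose j : ℝ) * ((d : ℝ) - j)) * ((d.choose (j + 2) : ℝ) * ((j : ℝ) + 2)) := by ring
        _ = ((d.choose (j + 1) : ℝ) * ((j : ℝ) + 1)) * ((d.choose (j + 1) : ℝ) * ((d : ℝ) - j - 1)) := by
            rw [e2', ← e1]
        _ = _ := by ring
    simp only [hH]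
    rw [div_mul_div_comm, div_pow, div_le_div_iff₀ (by positivity) (by positivity)]
    have hz : (0 : ℝ) < ((j : ℝ) + 1) * ((d : ℝ) - j - 1) := by positivity
    refine le_of_mul_le_mul_right ?_ hz
    calc P.coeff j * P.coeff (j + 2) * (d.choose (j + 1) : ℝ) ^ 2 * (((j : ℝ) + 1) * ((d : ℝ) - j - 1)) =
        P.coeff j * P.coeff (j + 2) * ((d.choose (j + 1) : ℝ) ^ 2 * (((j : ℝ) + 1) * ((d : ℝ) - j - 1))) := by ring
      _ = (((j : ℝ) + 2) * ((d : ℝ) - j) * (P.coeff j * P.coeff (j + 2))) *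
          ((d.choose j : ℝ) * (d.choose (j + 2) : ℝ)) := by rw [← e3]; ring
      _ ≤ (((j : ℝ) + 1) * ((d : ℝ) - j - 1) * P.coeff (j + 1) ^ 2) *
          ((d.choose j : ℝ) * (d.choose (j + 2) : ℝ)) :=
          mul_le_mul_of_nonneg_right h1 (by positivity)
      _ = P.coeff (j + 1) ^ 2 * ((d.choose j : ℝ) * (d.choose (j + 2) : ℝ)) *
          (((j : ℝ) + 1) * ((d : ℝ) - j - 1)) := by ring
  have hsum : (67/50 : ℝ)^d ≤ ∑ j ∈ Finset.range (d + 1), (d.choose j : ℝ) * H j * (1/4 : ℝ)^j := by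
    refine hq.trans (le_of_eq ?_)
    rw [eval_eq_sum_range, hPd]
    apply Finset.sum_congr rfl
    intro j hj
    have hj' : j ≤ d := by simpa [Nat.lt_succ_iff] using hj
    have := hch j hj'
    simp only [hH]
    field_simp
  refine ⟨?_, ?_, ?_, ?_⟩
  · intro i hi hid
    have h1 := HB.H_bound d H hHpos hH0 hHd hlc hsum i hid
    have h2 := mul_le_mul_of_nonneg_right h1 (hch i hid).le
    have h3 : H i * (d.choose i : ℝ) = (p.coeff i : ℝ) := by
      simp only [hH]; rw [hc]; field_simp [(hch i hid).ne']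
    rw [h3] at h2
    exact h2
  · intro i hi hid
    have h1 := ratio_pow d H hHpos hH0 hlc i hi hid
    have h2 := mul_le_mul_of_nonneg_right h1 (hch i hid).le
    have h3 : H i * (d.choose i : ℝ) = (p.coeff i : ℝ) := by
      simp only [hH]; rw [hc]; field_simp [(hch i hid).ne']
    rw [h3] at h2
    have h4 : H i / H (i - 1) = (i : ℝ) * p.coeff i / (((d : ℝ) - i + 1) * p.coeff (i - 1)) := by
      obtain ⟨j, rfl⟩ : ∃ j, i = j + 1 := ⟨i - 1, by omega⟩
      simp only [Nat.add_sub_cancel, hH]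
      rw [hc, hc]
      have e1 := hcc j hid
      have c0 := hch j (by omega)
      have c1 := hch (j + 1) hid
      have hp0 : (0 : ℝ) < (p.coeff j : ℝ) := by exact_mod_cast hcpos j (by omega)
      have hjd : (j : ℝ) + 1 ≤ d := by exact_mod_cast hid
      push_cast
      rw [show (d : ℝ) - ((j : ℝ) + 1) + 1 = d - j by ring]
      have hy : (0 : ℝ) < (d : ℝ) - j := by linarith
      rw [div_div_div_eq, div_eq_div_iff (by positivity) (by positivity)]
      calc (p.coeff (j + 1) : ℝ) * (d.choose j : ℝ) * (((d : ℝ) - j) * (p.coeff j : ℝ)) =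
          (p.coeff (j + 1) : ℝ) * (p.coeff j : ℝ) * ((d.choose j : ℝ) * ((d : ℝ) - j)) := by ring
        _ = (p.coeff (j + 1) : ℝ) * (p.coeff j : ℝ) * ((d.choose (j + 1) : ℝ) * ((j : ℝ) + 1)) := by rw [e1]
        _ = _ := by ring
    rw [h4] at h2
    exact h2
  · intro hd1
    have h1 := hN 0 (by omega)
    rw [hc, hc, hc, h0] at h1
    push_cast at h1
    linarith
  · intro i hi hid hg1 hg2
    have hr1 := RL.root_loc P (by rw [hPd]; exact hpos) (by rw [hPd]; exact hN) i hi
      (by rw [hPd]; omega) (by rw [hc, hc]; exact_mod_cast hg1)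
    have h1 := NF.N_full (fun f hf n hn => NW.newton0_deg hf n hn) P hsp (by rw [hPd]; exact hpos) i hi
      (by rw [hPd]; exact hid) (by rw [hc, hc]; exact_mod_cast hg1)
      (by rw [hc, hc]; exact_mod_cast hg2) hr1
    rw [hPd] at h1
    simp only [hc] at h1
    exact h1

end RR722
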