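import Mathlib
import Pool.Agent.Helper722.RR.KCDef
set_option autoImplicit false
namespace RR722

section aux

open Finset Finset.Colex

/-- the first `m` vertices -/
def seg (N m : ℕ) : Finset (Fin N) := univ.filter fun x => x.val < m

theorem mem_seg {N m : ℕ} {x : Fin N} : x ∈ seg N m ↔ x.val < m := by
  simp [seg]

theorem card_seg {N m : ℕ} (h : m ≤ N) : (seg N m).card = m := by
  unfold seg
  rw [Fin.card_filter_val_lt, min_eq_right h]

theorem shadow_powersetCard_subset {N : ℕ} (S : Finset (Fin N)) (r : ℕ) :
    shadow (powersetCard (r + 1) S) ⊆ powersetCard r S := by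
  intro t ht
  rw [mem_shadow_iff] at ht
  obtain ⟨s, hs, a, ha, rfl⟩ := ht
  rw [mem_powersetCard] at hs ⊢
  refine ⟨(erase_subset _ _).trans hs.1, ?_⟩
  rw [card_erase_of_mem ha, hs.2]
  rfl

theorem subset_seg_of_lt {N m : ℕ} {s t : Finset (Fin N)} (hs : s ⊆ seg N m)
    (h : toColex t < toColex s) : t ⊆ seg N m := by
  rw [toColex_lt_toColex_iff_exists_forall_lt] at h
  obtain ⟨a, ha, _, hb⟩ := h
  intro x hx
  by_cases hxs : x ∈ s
  · exact hs hxs
  · have h1 := hb x hx hxs
    have h2 := mem_seg.1 (hs ha)
    rw [mem_seg]
    exact lt_trans h1 h2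

theorem powersetCard_init {N : ℕ} (m r : ℕ) : IsInitSeg (powersetCard r (seg N m)) r := by
  refine ⟨?_, ?_⟩
  · intro s hs
    exact (mem_powersetCard.1 (mem_coe.1 hs)).2
  · rintro s t hs ⟨hlt, hcard⟩
    rw [mem_powersetCard] at hs ⊢
    exact ⟨subset_seg_of_lt hs.1 hlt, hcard⟩

theorem initSeg_aux {i A n p q : ℕ} (h : KC i A n p q) : ∀ N : ℕ, A + i ≤ N →
    ∃ F : Finset (Finset (Fin N)), IsInitSeg F i ∧ F.card = n ∧ (shadow F).card ≤ q ∧
      ∀ s ∈ F, s ⊆ seg N (A + i) := by
  classical
  induction h with
  | single i A hA =>
    intro N hN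
    refine ⟨powersetCard (i + 1) (seg N (A + i)), powersetCard_init _ _, ?_, ?_, ?_⟩
    · rw [card_powersetCard, card_seg (by omega)]
    · refine (card_le_card (shadow_powersetCard_subset _ _)).trans ?_
      rw [card_powersetCard, card_seg (by omega)]
    · intro s hs x hx
      have := mem_seg.1 ((mem_powersetCard.1 hs).1 hx)
      rw [mem_seg]
      omega
  | cons i A A' r p q h hA ih =>
    intro N hN
    obtain ⟨F', hF', hcard, hsh, hsub⟩ := ih N (by omega)
    set v : Fin N := ⟨A + i + 1, by omega⟩ with hv
    set S := seg N (A + i + 1) with hS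
    have hvS : v ∉ S := by
      rw [hS, mem_seg]; simp [hv]
    have hsubS : ∀ s ∈ F', s ⊆ S := by
      intro s hs x hx
      have := mem_seg.1 (hsub s hs hx)
      rw [hS, mem_seg]
      omega
    have hvs : ∀ s ∈ F', v ∉ s := fun s hs hx => hvS (hsubS s hs hx)
    have hcardS : S.card = A + i + 1 := card_seg (by omega)
    have hinjF : Set.InjOn (fun s : Finset (Fin N) => insert v s) (F' : Set (Finset (Fin N))) := by
      intro s hs t ht hst
      have h1 := hvs s (mem_coe.1 hs)
      have h2 := hvs t (mem_coe.1 ht)
      have h3 : (insert v s).erase v = (insert v t).erase v := by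
        simp only at hst
        rw [hst]
      rwa [erase_insert h1, erase_insert h2] at h3
    set G := F'.image (fun s => insert v s) with hG
    have hdisj : Disjoint (powersetCard (i + 2) S) G := by
      rw [Finset.disjoint_left]
      intro s hs hs2
      rw [hG, mem_image] at hs2
      obtain ⟨t, _, rfl⟩ := hs2
      exact hvS ((mem_powersetCard.1 hs).1 (mem_insert_self v t))
    refine ⟨powersetCard (i + 2) S ∪ G, ⟨?_, ?_⟩, ?_, ?_, ?_⟩
    · intro s hs
      rw [mem_coe, mem_union] at hs
      rcases hs with hs | hs
      · exact (mem_powersetCard.1 hs).2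
      · rw [hG, mem_image] at hs
        obtain ⟨t, ht, rfl⟩ := hs
        have h1 : t.card = i + 1 := hF'.1 (mem_coe.2 ht)
        rw [card_insert_of_notMem (hvs t ht), h1]
    · rintro s t hs ⟨hlt, hct⟩
      rw [mem_union] at hs ⊢
      rcases hs with hs | hs
      · left
        rw [mem_powersetCard] at hs ⊢
        exact ⟨subset_seg_of_lt hs.1 hlt, hct⟩
      · rw [hG, mem_image] at hs
        obtain ⟨s', hs', rfl⟩ := hs
        rw [toColex_lt_toColex_iff_exists_forall_lt] at hlt
        obtain ⟨a, ha, hat, hb⟩ := hlt
        have hav : a.val ≤ v.val := by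
          rw [mem_insert] at ha
          rcases ha with rfl | ha
          · exact le_refl _
          · have := mem_seg.1 (hsubS s' hs' ha)
            have hvv : v.val = A + i + 1 := rfl
            omega
        by_cases hvt : v ∈ t
        · right
          rw [hG, mem_image]
          have hane : a ≠ v := fun h => hat (h ▸ hvt)
          have ha' : a ∈ s' := (mem_insert.1 ha).resolve_left hane
          refine ⟨t.erase v, ?_, insert_erase hvt⟩
          apply hF'.2 hs'
          refine ⟨?_, ?_⟩
          · rw [toColex_lt_toColex_iff_exists_forall_lt]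
            refine ⟨a, ha', fun h => hat (mem_of_mem_erase h), ?_⟩
            intro b hb1 hb2
            rw [mem_erase] at hb1
            apply hb b hb1.2
            rw [mem_insert]
            rintro (h | h)
            · exact hb1.1 h
            · exact hb2 h
          · rw [card_erase_of_mem hvt, hct]
            rfl
        · left
          rw [mem_powersetCard]
          refine ⟨?_, hct⟩
          intro x hx
          have hxv : x ≠ v := fun h => hvt (h ▸ hx)
          by_cases hxs : x ∈ insert v s'
          · exact hsubS s' hs' ((mem_insert.1 hxs).resolve_left hxv)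
          · have h1 : x.val < a.val := hb x hx hxs
            rw [hS, mem_seg]
            have hvv : v.val = A + i + 1 := rfl
            omega
    · rw [card_union_of_disjoint hdisj, card_powersetCard, hcardS, hG, card_image_of_injOn hinjF,
        hcard]
    · have hshsub : shadow (powersetCard (i + 2) S ∪ G) ⊆
          powersetCard (i + 1) S ∪ (shadow F').image (fun s => insert v s) := by
        intro t ht
        rw [mem_shadow_iff] at ht
        obtain ⟨s, hs, a, ha, rfl⟩ := ht
        rw [mem_union] at hs ⊢
        rcases hs with hs | hs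
        · left
          apply shadow_powersetCard_subset
          exact erase_mem_shadow hs ha
        · rw [hG, mem_image] at hs
          obtain ⟨s', hs', rfl⟩ := hs
          by_cases hav : a = v
          · left
            subst hav
            rw [erase_insert (hvs s' hs'), mem_powersetCard]
            exact ⟨hsubS s' hs', hF'.1 (mem_coe.2 hs')⟩
          · right
            rw [mem_image]
            have ha' : a ∈ s' := (mem_insert.1 ha).resolve_left hav
            refine ⟨s'.erase a, erase_mem_shadow hs' ha', ?_⟩
            rw [erase_insert_of_ne (Ne.symm hav)]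
      refine (card_le_card hshsub).trans ((card_union_le _ _).trans ?_)
      rw [card_powersetCard, hcardS]
      have := card_image_le (s := shadow F') (f := fun s => insert v s)
      omega
    · intro s hs x hx
      rw [mem_union] at hs
      rcases hs with hs | hs
      · have := mem_seg.1 ((mem_powersetCard.1 hs).1 hx)
        rw [mem_seg]
        omega
      · rw [hG, mem_image] at hs
        obtain ⟨s', hs', rfl⟩ := hs
        rw [mem_insert] at hx
        rcases hx with rfl | hx
        · rw [mem_seg]
          have hvv : v.val = A + i + 1 := rfl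
          omega
        · have := mem_seg.1 (hsubS s' hs' hx)
          rw [mem_seg]
          omega

end aux

open Finset Finset.Colex in
/-- Colex initial segments realise cascades: size `n`, shadow of size at most `q`. -/
theorem KC.initSeg {i A n p q : ℕ} (h : KC i A n p q) (N : ℕ) (hN : A + i ≤ N) :
    ∃ F : Finset (Finset (Fin N)), IsInitSeg F i ∧ F.card = n ∧ (shadow F).card ≤ q := by
  obtain ⟨F, h1, h2, h3, _⟩ := initSeg_aux h N hN
  exact ⟨F, h1, h2, h3⟩

end RR722
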