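import Mathlib
set_option autoImplicit false
namespace RR722

open Finset Finset.Colex in
/-- A simplicial complex from a chain of colex initial segments. -/
theorem complex_of_initSeg (k N : ℕ) (g : ℕ → ℕ) (h0 : g 0 = 1) (hpos : ∀ i, 1 ≤ i → i ≤ k → 0 < g i)
    (H : ∀ i, 1 ≤ i → i ≤ k → ∃ F : Finset (Finset (Fin N)),
      IsInitSeg F i ∧ F.card = g i ∧ (shadow F).card ≤ g (i - 1)) :
    ∃ K : Finset (Finset (Fin N)),
      (∀ s ∈ K, ∀ t : Finset (Fin N), t ⊆ s → t ∈ K) ∧
      ∀ i : ℕ, (K.filter (fun s => s.card = i)).card = if i ≤ k then g i else 0 := by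
  classical
  have H' : ∀ i, ∃ F : Finset (Finset (Fin N)), 1 ≤ i → i ≤ k →
      (IsInitSeg F i ∧ F.card = g i ∧ (shadow F).card ≤ g (i - 1)) := by
    intro i
    by_cases h : 1 ≤ i ∧ i ≤ k
    · obtain ⟨F, hF⟩ := H i h.1 h.2
      exact ⟨F, fun _ _ => hF⟩
    · exact ⟨∅, fun h1 h2 => absurd ⟨h1, h2⟩ h⟩
  choose F0 hF0 using H'
  let F : ℕ → Finset (Finset (Fin N)) := fun i => if i = 0 then {∅} else F0 i
  have hFz : F 0 = {∅} := rfl
  have hFp : ∀ i, 1 ≤ i → F i = F0 i := by
    intro i hi
    simp only [F]
    rw [if_neg (by omega)]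
  have hcardF : ∀ i, i ≤ k → (F i).card = g i := by
    intro i hi
    rcases Nat.eq_zero_or_pos i with rfl | hi1
    · rw [hFz, h0]; simp
    · rw [hFp i hi1]; exact (hF0 i hi1 hi).2.1
  have hsized : ∀ i, i ≤ k → ∀ s ∈ F i, s.card = i := by
    intro i hi s hs
    rcases Nat.eq_zero_or_pos i with rfl | hi1
    · rw [hFz, Finset.mem_singleton] at hs
      rw [hs]; simp
    · rw [hFp i hi1] at hs
      exact (hF0 i hi1 hi).1.1 hs
  have hshadow : ∀ i, 1 ≤ i → i ≤ k → shadow (F i) ⊆ F (i - 1) := by
    intro i hi1 hik
    rcases Nat.lt_or_ge 1 i with h2 | h2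
    · rw [hFp i hi1, hFp (i - 1) (by omega)]
      obtain ⟨a1, a2, a3⟩ := hF0 i hi1 hik
      obtain ⟨b1, b2, b3⟩ := hF0 (i - 1) (by omega) (by omega)
      rcases a1.shadow.total b1 with h | h
      · exact h
      · have := Finset.eq_of_subset_of_card_le h (by rw [b2]; exact a3)
        rw [this]
    · have hi : i = 1 := by omega
      subst hi
      intro t ht
      rw [Finset.mem_shadow_iff] at ht
      obtain ⟨s, hs, a, ha, rfl⟩ := ht
      have hc := hsized 1 hik s hs
      change s.erase a ∈ F 0
      rw [hFz, Finset.mem_singleton, ← Finset.card_eq_zero, Finset.card_erase_of_mem ha, hc]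
  refine ⟨(Finset.range (k + 1)).biUnion F, ?_, ?_⟩
  · have key : ∀ n : ℕ, ∀ s : Finset (Fin N), s.card = n →
        s ∈ (Finset.range (k + 1)).biUnion F → ∀ t, t ⊆ s →
        t ∈ (Finset.range (k + 1)).biUnion F := by
      intro n
      induction n with
      | zero =>
        intro s hs hsK t ht
        have : s = ∅ := Finset.card_eq_zero.mp hs
        subst this
        rw [Finset.subset_empty.mp ht]; exact hsK
      | succ n ih =>
        intro s hs hsK t ht
        by_cases hts : t = s
        · rw [hts]; exact hsK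
        · have hss : t ⊂ s := Finset.ssubset_iff_subset_ne.mpr ⟨ht, hts⟩
          obtain ⟨a, has, hat⟩ := Finset.exists_of_ssubset hss
          rw [Finset.mem_biUnion] at hsK
          obtain ⟨i, hi, hsi⟩ := hsK
          rw [Finset.mem_range] at hi
          have hci := hsized i (by omega) s hsi
          have hi1 : 1 ≤ i := by omega
          have hmem : s.erase a ∈ F (i - 1) := by
            apply hshadow i hi1 (by omega)
            rw [Finset.mem_shadow_iff]
            exact ⟨s, hsi, a, has, rfl⟩
          refine ih (s.erase a) ?_ ?_ t ?_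
          · rw [Finset.card_erase_of_mem has, hs]; rfl
          · rw [Finset.mem_biUnion]
            exact ⟨i - 1, by rw [Finset.mem_range]; omega, hmem⟩
          · rw [Finset.subset_erase]
            exact ⟨ht, hat⟩
    exact fun s hs t ht => key s.card s rfl hs t ht
  · intro i
    have hfil : ((Finset.range (k + 1)).biUnion F).filter (fun s => s.card = i)
        = if i ≤ k then F i else ∅ := by
      ext s
      rw [Finset.mem_filter, Finset.mem_biUnion]
      split_ifs with h
      · constructor
        · rintro ⟨⟨j, hj, hsj⟩, hc⟩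
          rw [Finset.mem_range] at hj
          have := hsized j (by omega) s hsj
          have hij : j = i := by omega
          rw [← hij]; exact hsj
        · intro hs
          exact ⟨⟨i, by rw [Finset.mem_range]; omega, hs⟩, hsized i h s hs⟩
      · constructor
        · rintro ⟨⟨j, hj, hsj⟩, hc⟩
          rw [Finset.mem_range] at hj
          have := hsized j (by omega) s hsj
          omega
        · intro hs
          simp at hs
    rw [hfil]
    split_ifs with h
    · exact hcardF i h
    · simp

end RR722
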