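import Mathlib
set_option autoImplicit false
namespace RR722.CO

def res {n : ℕ} (S : Finset (Fin (n + 1))) : Finset (Fin n) :=
  Finset.univ.filter fun i : Fin n => i.castSucc ∈ S

def f1 {n : ℕ} (s : Finset (Fin n)) : Finset (Fin (n + 1)) := s.map Fin.castSuccEmb

def f2 {n : ℕ} (s : Finset (Fin n)) : Finset (Fin (n + 1)) := insert (Fin.last n) (f1 s)

lemma mem_res {n : ℕ} {S : Finset (Fin (n + 1))} {i : Fin n} : i ∈ res S ↔ i.castSucc ∈ S := by
  unfold res; simp

lemma last_notMem_f1 {n : ℕ} (s : Finset (Fin n)) : Fin.last n ∉ f1 s := by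
  unfold f1
  rw [Finset.mem_map]
  rintro ⟨i, _, hi⟩
  exact (Fin.castSucc_lt_last i).ne hi

lemma castSucc_mem_f1 {n : ℕ} (s : Finset (Fin n)) (i : Fin n) : i.castSucc ∈ f1 s ↔ i ∈ s := by
  unfold f1
  rw [Finset.mem_map]
  constructor
  · rintro ⟨j, hj, hji⟩
    have : j = i := Fin.castSucc_injective n hji
    exact this ▸ hj
  · intro h; exact ⟨i, h, rfl⟩

lemma res_f1 {n : ℕ} (s : Finset (Fin n)) : res (f1 s) = s := by
  ext i; rw [mem_res, castSucc_mem_f1]

lemma res_f2 {n : ℕ} (s : Finset (Fin n)) : res (f2 s) = s := by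
  ext i
  rw [mem_res]
  unfold f2
  rw [Finset.mem_insert, castSucc_mem_f1]
  constructor
  · rintro (h | h)
    · exact absurd h (Fin.castSucc_lt_last i).ne
    · exact h
  · exact Or.inr

lemma card_f1 {n : ℕ} (s : Finset (Fin n)) : (f1 s).card = s.card := by
  unfold f1; exact Finset.card_map _

lemma card_f2 {n : ℕ} (s : Finset (Fin n)) : (f2 s).card = s.card + 1 := by
  unfold f2
  rw [Finset.card_insert_of_notMem (last_notMem_f1 s), card_f1]

lemma eq_f1 {n : ℕ} (S : Finset (Fin (n + 1))) (h : Fin.last n ∉ S) : S = f1 (res S) := by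
  ext x
  refine Fin.lastCases ?_ (fun i => ?_) x
  · exact ⟨fun h' => absurd h' h, fun h' => absurd h' (last_notMem_f1 _)⟩
  · rw [castSucc_mem_f1, mem_res]

lemma eq_f2 {n : ℕ} (S : Finset (Fin (n + 1))) (h : Fin.last n ∈ S) : S = f2 (res S) := by
  ext x
  unfold f2
  rw [Finset.mem_insert]
  refine Fin.lastCases ?_ (fun i => ?_) x
  · exact ⟨fun _ => Or.inl rfl, fun _ => h⟩
  · rw [castSucc_mem_f1, mem_res]
    constructor
    · exact Or.inr
    · rintro (h | h)
      · exact absurd h (Fin.castSucc_lt_last i).ne
      · exact h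

theorem cone_lemma (n : ℕ) (K : Finset (Finset (Fin n)))
    (hK : ∀ s ∈ K, ∀ t : Finset (Fin n), t ⊆ s → t ∈ K)
    (hne : (K.filter (fun s => s.card = 0)).card = 1) (k : ℕ) (hk : 1 ≤ k) (e : ℕ)
    (he : e ≤ (K.filter (fun s => s.card = k)).card + (K.filter (fun s => s.card = k - 1)).card) :
    ∃ K' : Finset (Finset (Fin (n + 1))),
      (∀ s ∈ K', ∀ t : Finset (Fin (n + 1)), t ⊆ s → t ∈ K') ∧
      ∀ i, (K'.filter (fun s => s.card = i)).card =
        if i = 0 then 1 else if i < k then
          (K.filter (fun s => s.card = i)).card + (K.filter (fun s => s.card = i - 1)).card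
        else if i = k then e else 0 := by
  classical
  let K1 : Finset (Finset (Fin (n + 1))) := Finset.univ.filter fun S => res S ∈ K
  have hmem : ∀ S, S ∈ K1 ↔ res S ∈ K := by intro S; simp [K1]
  have hinj1 : Function.Injective (f1 : Finset (Fin n) → _) := fun a b h => by
    rw [← res_f1 a, h, res_f1]
  have hinj2 : Function.Injective (f2 : Finset (Fin n) → _) := fun a b h => by
    rw [← res_f2 a, h, res_f2]
  have hdown : ∀ s ∈ K1, ∀ t : Finset (Fin (n + 1)), t ⊆ s → t ∈ K1 := by
    intro s hs t hts
    rw [hmem] at hs ⊢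
    refine hK _ hs _ fun i hi => ?_
    rw [mem_res] at hi ⊢
    exact hts hi
  have hcount : ∀ i, 1 ≤ i → (K1.filter (fun s => s.card = i)).card =
      (K.filter (fun s => s.card = i)).card + (K.filter (fun s => s.card = i - 1)).card := by
    intro i hi
    have h1 : K1.filter (fun s => s.card = i) = (K.filter (fun s => s.card = i)).image f1 ∪
        (K.filter (fun s => s.card = i - 1)).image f2 := by
      ext S
      rw [Finset.mem_filter, hmem, Finset.mem_union, Finset.mem_image, Finset.mem_image]
      constructor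
      · rintro ⟨h1, h2⟩
        by_cases hl : Fin.last n ∈ S
        · right
          refine ⟨res S, Finset.mem_filter.2 ⟨h1, ?_⟩, (eq_f2 S hl).symm⟩
          rw [eq_f2 S hl, card_f2] at h2
          omega
        · left
          refine ⟨res S, Finset.mem_filter.2 ⟨h1, ?_⟩, (eq_f1 S hl).symm⟩
          rw [eq_f1 S hl, card_f1] at h2
          exact h2
      · rintro (⟨s, hs, rfl⟩ | ⟨s, hs, rfl⟩)
        · rw [Finset.mem_filter] at hs
          rw [res_f1, card_f1]
          exact hs
        · rw [Finset.mem_filter] at hs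
          rw [res_f2, card_f2]
          exact ⟨hs.1, by omega⟩
    rw [h1, Finset.card_union_of_disjoint, Finset.card_image_of_injective _ hinj1,
      Finset.card_image_of_injective _ hinj2]
    rw [Finset.disjoint_left]
    intro S hS hS'
    rw [Finset.mem_image] at hS hS'
    obtain ⟨s, _, rfl⟩ := hS
    obtain ⟨s', _, h⟩ := hS'
    apply last_notMem_f1 s
    rw [← h]
    exact Finset.mem_insert_self _ _
  have hcount0 : (K1.filter (fun s => s.card = 0)).card = 1 := by
    refine Eq.trans ?_ hne
    rw [← Finset.card_image_of_injective (K.filter (fun s => s.card = 0)) hinj1]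
    congr 1
    ext S
    rw [Finset.mem_filter, hmem, Finset.mem_image]
    constructor
    · rintro ⟨h1, h2⟩
      have hS : S = ∅ := Finset.card_eq_zero.1 h2
      have hl : Fin.last n ∉ S := by rw [hS]; simp
      refine ⟨res S, Finset.mem_filter.2 ⟨h1, ?_⟩, (eq_f1 S hl).symm⟩
      rw [eq_f1 S hl, card_f1] at h2
      exact h2
    · rintro ⟨s, hs, rfl⟩
      rw [Finset.mem_filter] at hs
      rw [res_f1, card_f1]
      exact hs
  obtain ⟨T, hT, hTc⟩ := Finset.exists_subset_card_eq (he.trans (le_of_eq (hcount k hk).symm))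
  have hTm : ∀ S ∈ T, S ∈ K1 ∧ S.card = k := fun S hS => Finset.mem_filter.1 (hT hS)
  refine ⟨K1.filter (fun s => s.card < k) ∪ T, ?_, ?_⟩
  · intro s hs t hts
    rcases hts.eq_or_ssubset with rfl | hlt
    · exact hs
    · have hc := Finset.card_lt_card hlt
      rw [Finset.mem_union, Finset.mem_filter] at hs
      have h1 : s ∈ K1 ∧ s.card ≤ k := by
        rcases hs with hs | hs
        · exact ⟨hs.1, hs.2.le⟩
        · exact ⟨(hTm s hs).1, (hTm s hs).2.le⟩
      exact Finset.mem_union_left _ (Finset.mem_filter.2 ⟨hdown s h1.1 t hts, by omega⟩)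
  · intro i
    rcases lt_trichotomy i k with hik | hik | hik
    · have h1 : (K1.filter (fun s => s.card < k) ∪ T).filter (fun s => s.card = i) =
          K1.filter (fun s => s.card = i) := by
        ext S
        simp only [Finset.mem_filter, Finset.mem_union]
        constructor
        · rintro ⟨h1 | h1, h2⟩
          · exact ⟨h1.1, h2⟩
          · have := (hTm S h1).2
            omega
        · rintro ⟨h1, h2⟩
          exact ⟨Or.inl ⟨h1, by omega⟩, h2⟩
      rw [h1]
      by_cases hi : i = 0
      · subst hi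
        rw [if_pos rfl]; exact hcount0
      · rw [if_neg hi, if_pos hik]
        exact hcount i (by omega)
    · subst hik
      have h1 : (K1.filter (fun s => s.card < i) ∪ T).filter (fun s => s.card = i) = T := by
        ext S
        simp only [Finset.mem_filter, Finset.mem_union]
        constructor
        · rintro ⟨h1 | h1, h2⟩
          · omega
          · exact h1
        · intro h1
          exact ⟨Or.inr h1, (hTm S h1).2⟩
      rw [h1, if_neg (by omega), if_neg (lt_irrefl _), if_pos rfl]
      exact hTc
    · have h1 : (K1.filter (fun s => s.card < k) ∪ T).filter (fun s => s.card = i) = ∅ := by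
        ext S
        simp only [Finset.mem_filter, Finset.mem_union, Finset.notMem_empty, iff_false]
        rintro ⟨h1 | h1, h2⟩
        · omega
        · have := (hTm S h1).2
          omega
      rw [h1, if_neg (by omega), if_neg (by omega), if_neg (by omega)]
      rfl

end RR722.CO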