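import Mathlib
set_option autoImplicit false
open Polynomial
namespace RR722

def RRHyp (p : ℕ[X]) (k : ℕ) : Prop :=
  p.coeff 0 = 1 ∧ (p.map (Nat.castRingHom ℝ)).roots.card = p.natDegree ∧ k ≤ p.natDegree ∧
    ∀ i, i < k → p.coeff i < p.coeff (i + 1)

def RRConcl (p : ℕ[X]) (k : ℕ) : Prop :=
  ∃ (n : ℕ) (K : Finset (Finset (Fin n))),
    (∀ s ∈ K, ∀ t : Finset (Fin n), t ⊆ s → t ∈ K) ∧
    ∀ i : ℕ, (K.filter (fun s => s.card = i)).card =
      if i = 0 then 1 else if i ≤ k then p.coeff i - p.coeff (i - 1) else 0

theorem reduction
    (cone_lemma : ∀ (n : ℕ) (K : Finset (Finset (Fin n)))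
      (_hK : ∀ s ∈ K, ∀ t : Finset (Fin n), t ⊆ s → t ∈ K)
      (_hne : (K.filter (fun s => s.card = 0)).card = 1) (k : ℕ) (_hk : 1 ≤ k) (e : ℕ)
      (_he : e ≤ (K.filter (fun s => s.card = k)).card + (K.filter (fun s => s.card = k - 1)).card),
      ∃ K' : Finset (Finset (Fin (n + 1))),
        (∀ s ∈ K', ∀ t : Finset (Fin (n + 1)), t ⊆ s → t ∈ K') ∧
        ∀ i, (K'.filter (fun s => s.card = i)).card =
          if i = 0 then 1 else if i < k then
            (K.filter (fun s => s.card = i)).card + (K.filter (fun s => s.card = i - 1)).card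
          else if i = k then e else 0)
    (divide : ∀ (p : ℕ[X]) (k : ℕ) (_h0 : p.coeff 0 = 1)
      (_hr : (p.map (Nat.castRingHom ℝ)).roots.card = p.natDegree) (_hkd : k ≤ p.natDegree)
      (_hmono : ∀ i, i < k → p.coeff i < p.coeff (i + 1)) (_hk : 1 ≤ k)
      (_h1 : (p.map (Nat.castRingHom ℝ)).eval (-1) = 0),
      ∃ q : ℕ[X], p = (1 + X) * q ∧ q.natDegree + 1 = p.natDegree ∧ q.coeff 0 = 1 ∧
        (q.map (Nat.castRingHom ℝ)).roots.card = q.natDegree ∧
        (∀ i, i < k - 1 → q.coeff i < q.coeff (i + 1)))
    (H : ∀ p k, RRHyp p k → 1 ≤ k → (p.map (Nat.castRingHom ℝ)).eval (-1) ≠ 0 → RRConcl p k) :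
    ∀ p k, RRHyp p k → RRConcl p k := by
  classical
  suffices hmain : ∀ d, ∀ p : ℕ[X], p.natDegree = d → ∀ k, RRHyp p k → RRConcl p k by
    intro p k
    exact hmain _ p rfl k
  intro d
  induction d using Nat.strong_induction_on with
  | _ d ih =>
  intro p hpd k hyp
  rcases Nat.eq_zero_or_pos k with hk0 | hk
  · subst hk0
    refine ⟨0, {∅}, ?_, ?_⟩
    · intro s hs t hts
      rw [Finset.mem_singleton] at hs
      subst hs
      rw [Finset.subset_empty] at hts
      rw [hts]; simp
    · intro i
      by_cases hi : i = 0
      · subst hi; simp [Finset.filter_singleton]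
      · have : ¬ (i ≤ 0) := by omega
        simp only [hi, this, if_false]
        rw [Finset.card_eq_zero, Finset.filter_eq_empty_iff]
        intro s hs h
        rw [Finset.mem_singleton] at hs
        subst hs
        simp at h
        exact hi h.symm
  · by_cases h1 : (p.map (Nat.castRingHom ℝ)).eval (-1) = 0
    swap
    · exact H p k hyp hk h1
    obtain ⟨hp0, hroots, hkd, hmono⟩ := hyp
    obtain ⟨q, hpq, hqd, hq0, hqr, hqm⟩ := divide p k hp0 hroots hkd hmono hk h1
    have hc : ∀ i, p.coeff (i + 1) = q.coeff (i + 1) + q.coeff i := by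
      intro i
      rw [hpq, add_mul, one_mul, coeff_add, coeff_X_mul]
    -- the complex for `q`
    obtain ⟨n, K, hK, f, hfK, hf0, hfi, hfk⟩ : ∃ (n : ℕ) (K : Finset (Finset (Fin n))),
        (∀ s ∈ K, ∀ t : Finset (Fin n), t ⊆ s → t ∈ K) ∧ ∃ f : ℕ → ℕ,
        (∀ i, (K.filter (fun s => s.card = i)).card = f i) ∧ f 0 = 1 ∧
        (∀ i, 1 ≤ i → i < k → f i = q.coeff i - q.coeff (i - 1)) ∧
        p.coeff k - p.coeff (k - 1) ≤ f k + f (k - 1) := by
      by_cases hcase : q.coeff (k - 1) < q.coeff k
      · have hyp' : RRHyp q k := by
          refine ⟨hq0, hqr, ?_, ?_⟩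
          · apply le_natDegree_of_ne_zero
            omega
          · intro i hi
            by_cases h2 : i < k - 1
            · exact hqm i h2
            · have h3 : i = k - 1 := by omega
              have h4 : i + 1 = k := by omega
              rw [h4, h3]; exact hcase
        obtain ⟨n, K, hK, hKf⟩ := ih q.natDegree (by omega) q rfl k hyp'
        refine ⟨n, K, hK, _, fun i => hKf i, by simp, ?_, ?_⟩
        · intro i hi hik
          have e1 : i ≠ 0 := by omega
          have e2 : i ≤ k := by omega
          simp [e1, e2]
        · have e1 : k ≠ 0 := by omega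
          simp only [e1, if_false, le_refl, if_true]
          rcases Nat.lt_or_ge 1 k with hk1 | hk1
          · have e3 : k - 1 ≠ 0 := by omega
            have e4 : k - 1 ≤ k := by omega
            simp only [e3, e4, if_false, if_true]
            obtain ⟨j, rfl⟩ : ∃ j, k = j + 2 := ⟨k - 2, by omega⟩
            have g1 := hc (j + 1)
            have g2 := hc j
            have g3 := hqm j (by omega)
            have e5 : j + 2 - 1 = j + 1 := by omega
            have e6 : j + 1 - 1 = j := by omega
            rw [e5] at hcase ⊢
            rw [e6]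
            have e7 : j + 1 + 1 = j + 2 := rfl
            rw [e7] at g1
            omega
          · have e3 : k = 1 := by omega
            subst e3
            have g1 := hc 0
            simp only [zero_add] at g1
            simp only [Nat.sub_self, if_true] at hcase ⊢
            omega
      · have hyp' : RRHyp q (k - 1) := by
          refine ⟨hq0, hqr, by omega, hqm⟩
        obtain ⟨n, K, hK, hKf⟩ := ih q.natDegree (by omega) q rfl (k - 1) hyp'
        refine ⟨n, K, hK, _, fun i => hKf i, by simp, ?_, ?_⟩
        · intro i hi hik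
          have e1 : i ≠ 0 := by omega
          have e2 : i ≤ k - 1 := by omega
          simp [e1, e2]
        · have e1 : k ≠ 0 := by omega
          have e2 : ¬ k ≤ k - 1 := by omega
          simp only [e1, e2, if_false, le_refl, if_true, zero_add]
          rcases Nat.lt_or_ge 1 k with hk1 | hk1
          · have e3 : k - 1 ≠ 0 := by omega
            simp only [e3, if_false]
            obtain ⟨j, rfl⟩ : ∃ j, k = j + 2 := ⟨k - 2, by omega⟩
            have g1 := hc (j + 1)
            have g2 := hc j
            have g3 := hqm j (by omega)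
            have e5 : j + 2 - 1 = j + 1 := by omega
            have e6 : j + 1 - 1 = j := by omega
            rw [e5] at hcase ⊢
            rw [e6]
            have e7 : j + 1 + 1 = j + 2 := rfl
            rw [e7] at g1
            omega
          · have e3 : k = 1 := by omega
            subst e3
            have g1 := hc 0
            simp only [zero_add] at g1
            simp only [Nat.sub_self, if_true] at hcase ⊢
            omega
    obtain ⟨K', hK', hK'f⟩ := cone_lemma n K hK (by rw [hfK, hf0]) k hk
      (p.coeff k - p.coeff (k - 1)) (by rw [hfK, hfK]; exact hfk)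
    refine ⟨n + 1, K', hK', fun i => ?_⟩
    rw [hK'f i]
    rcases Nat.eq_zero_or_pos i with hi | hi
    · simp [hi]
    · have e1 : i ≠ 0 := by omega
      simp only [e1, if_false]
      rcases lt_trichotomy i k with hik | hik | hik
      · have e2 : i ≤ k := hik.le
        simp only [hik, e2, if_true]
        rw [hfK, hfK, hfi i hi hik]
        rcases Nat.lt_or_ge 1 i with hi1 | hi1
        · rw [hfi (i - 1) (by omega) (by omega)]
          obtain ⟨j, rfl⟩ : ∃ j, i = j + 2 := ⟨i - 2, by omega⟩
          have g1 := hc (j + 1)
          have g2 := hc j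
          have g3 := hqm j (by omega)
          have g4 := hqm (j + 1) (by omega)
          have e5 : j + 2 - 1 = j + 1 := by omega
          have e6 : j + 1 - 1 = j := by omega
          rw [e5, e6]
          have e7 : j + 1 + 1 = j + 2 := rfl
          rw [e7] at g1 g4
          omega
        · have e3 : i = 1 := by omega
          subst e3
          have g1 := hc 0
          simp only [zero_add] at g1
          have g3 := hqm 0 (by omega)
          simp only [zero_add] at g3
          simp only [Nat.sub_self]
          rw [hf0]
          omega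
      · subst hik
        simp
      · have e2 : ¬ i < k := by omega
        have e3 : ¬ i ≤ k := by omega
        have e4 : i ≠ k := by omega
        simp [e2, e3, e4]

end RR722
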