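import Mathlib
import Pool.Agent.Helper722.RR.Analytic
import Pool.Agent.Helper722.RR.ColexKC
import Pool.Agent.Helper722.RR.Complex
import Pool.Agent.Helper722.RR.Cone
import Pool.Agent.Helper722.RR.Divide
import Pool.Agent.Helper722.RR.Reduction
set_option autoImplicit false
namespace RR722

open Polynomial

/-- The statement of the final inequality (proved in `P7`). -/
def P7Stmt : Prop := ∀ (i M A : ℕ) (w : ℝ) (_hi : 2 ≤ i) (_hM : 2 ≤ M) (_hA : 1 ≤ A) (_hw : 0 < w)
    (_hs : (M : ℝ) + (1 + w * (M + i)) ^ 2 < M * (M + 1))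
    (_heta : ((M + i - 1).choose i : ℝ) * (1 + i * w) ^ (i - 1) < (M * w) ^ i * ((A + i).choose i : ℝ))
    (_hc : min ((109/100 : ℝ) ^ (M - 1)) ((34/25 : ℝ) ^ i) * ((M + i - 1).choose i : ℝ) <
      (1 + i * w) * ((A + i).choose i : ℝ)),
    Goal i M A (M + (1 + w * (M + i)) ^ 2)

/-- the step `i → i+1` for `i ≥ 2` -/
theorem step_big (hP7 : P7Stmt) (p : ℕ[X]) (k : ℕ) (hyp : RRHyp p k)
    (hne : (p.map (Nat.castRingHom ℝ)).eval (-1) ≠ 0)
    (i : ℕ) (hi : 2 ≤ i) (hik : i + 1 ≤ k) (A a b : ℕ)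
    (hKC : KC i A (p.coeff i - p.coeff (i - 1)) a b)
    (hb : b ≤ p.coeff (i - 1) - p.coeff (i - 2)) :
    p.coeff (i + 1) - p.coeff i ≤ a := by
  by_contra hcon
  push Not at hcon
  obtain ⟨h0, hr, hkd, hmono⟩ := hyp
  obtain ⟨a1, a2, -, a4⟩ := analytic p h0 hr hne
  set d := p.natDegree with hd
  have m1 : p.coeff (i - 2) < p.coeff (i - 1) := by
    have := hmono (i - 2) (by omega)
    rwa [show i - 2 + 1 = i - 1 by omega] at this
  have m2 : p.coeff (i - 1) < p.coeff i := by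
    have := hmono (i - 1) (by omega)
    rwa [show i - 1 + 1 = i by omega] at this
  have m3 : p.coeff i < p.coeff (i + 1) := hmono i (by omega)
  have b1 := a1 i (by omega) (by omega)
  have b2 := a2 i (by omega) (by omega)
  have b4 := a4 i hi (by omega) m1 m2
  obtain ⟨M, hM⟩ : ∃ M, d + 1 = M + i := ⟨d + 1 - i, by omega⟩
  have hM2 : 2 ≤ M := by omega
  have hdR : (d : ℝ) = M + i - 1 := by
    have : (d : ℝ) + 1 = M + i := by exact_mod_cast hM
    linarith
  have hdN : d = M + i - 1 := by omega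
  have hdi : d - i = M - 1 := by omega
  have hMR : (2 : ℝ) ≤ M := by exact_mod_cast hM2
  have hiR : (2 : ℝ) ≤ i := by exact_mod_cast hi
  have hA1 := hKC.top_pos.2
  have hbd := hKC.bounds.2
  rw [hdi] at b1
  rw [hdR] at b2 b4
  rw [hdN] at b1 b2
  set hI : ℝ := (p.coeff i : ℝ) with hhI
  set hm : ℝ := (p.coeff (i - 1) : ℝ) with hhm
  have hm0 : 0 < hm := by
    have : 0 < p.coeff (i - 1) := by omega
    rw [hhm]; exact_mod_cast this
  set n : ℝ := hI - hm with hn
  have hnN : ((p.coeff i - p.coeff (i - 1) : ℕ) : ℝ) = n := by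
    rw [Nat.cast_sub m2.le]
  have hn0 : 0 < n := by
    rw [← hnN]; exact_mod_cast (by omega : 0 < p.coeff i - p.coeff (i - 1))
  have hnlt : n < ((A + i).choose i : ℝ) := by
    rw [← hnN]; exact_mod_cast hbd
  set w : ℝ := hm / (i * n) with hw
  have hw0 : 0 < w := by positivity
  have hi0 : (0 : ℝ) < i := by linarith
  have hiw : hm = i * n * w := by rw [hw]; field_simp
  have hIe : hI = n * (1 + i * w) := by
    have : hI = n + hm := by rw [hn]; ring
    rw [this, hiw]; ring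
  have h1iw : (0 : ℝ) < 1 + i * w := by positivity
  have hchM : (0 : ℝ) < ((M + i - 1).choose i : ℝ) := by
    exact_mod_cast Nat.choose_pos (by omega : i ≤ M + i - 1)
  -- hc
  have hc : min ((109/100 : ℝ) ^ (M - 1)) ((34/25 : ℝ) ^ i) * ((M + i - 1).choose i : ℝ) <
      (1 + i * w) * ((A + i).choose i : ℝ) := by
    refine lt_of_le_of_lt b1 ?_
    rw [hIe]
    nlinarith
  -- heta
  have heta : ((M + i - 1).choose i : ℝ) * (1 + i * w) ^ (i - 1) <
      (M * w) ^ i * ((A + i).choose i : ℝ) := by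
    have e1 : (i : ℝ) * hI / (((M : ℝ) + i - 1 - i + 1) * hm) = (1 + i * w) / (M * w) := by
      rw [show (M : ℝ) + i - 1 - i + 1 = M by ring, hIe, hiw]
      field_simp
    rw [e1, div_pow] at b2
    have hMw : (0 : ℝ) < (M * w) ^ i := by positivity
    rw [div_mul_eq_mul_div, div_le_iff₀ hMw] at b2
    have e2 : (1 + (i : ℝ) * w) ^ i = (1 + i * w) ^ (i - 1) * (1 + i * w) := by
      rw [← pow_succ, show i - 1 + 1 = i by omega]
    rw [e2, hIe] at b2
    have h3 : (1 + (i : ℝ) * w) * (((M + i - 1).choose i : ℝ) * (1 + i * w) ^ (i - 1)) <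
        (1 + (i : ℝ) * w) * ((M * w) ^ i * ((A + i).choose i : ℝ)) := by
      calc (1 + (i : ℝ) * w) * (((M + i - 1).choose i : ℝ) * (1 + i * w) ^ (i - 1)) =
          (1 + (i : ℝ) * w) ^ (i - 1) * (1 + i * w) * ((M + i - 1).choose i : ℝ) := by ring
        _ ≤ n * (1 + i * w) * (M * w) ^ i := b2
        _ < ((A + i).choose i : ℝ) * (1 + i * w) * (M * w) ^ i := by
            apply mul_lt_mul_of_pos_right _ hMw
            exact mul_lt_mul_of_pos_right hnlt h1iw
        _ = _ := by ring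
    exact lt_of_mul_lt_mul_left h3 h1iw.le
  -- Newton
  set g1 : ℝ := hm - (p.coeff (i - 2) : ℝ) with hg1
  set g2 : ℝ := (p.coeff (i + 1) : ℝ) - hI with hg2
  have hg1N : ((p.coeff (i - 1) - p.coeff (i - 2) : ℕ) : ℝ) = g1 := by
    rw [Nat.cast_sub m1.le]
  have hg2N : ((p.coeff (i + 1) - p.coeff i : ℕ) : ℝ) = g2 := by
    rw [Nat.cast_sub m3.le]
  have hg1b : (b : ℝ) ≤ g1 := by
    rw [← hg1N]; exact_mod_cast hb
  have hg2a : (a : ℝ) + 1 ≤ g2 := by
    rw [← hg2N]; exact_mod_cast hcon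
  have hg10 : 0 < g1 := by
    rw [← hg1N]; exact_mod_cast (by omega : 0 < p.coeff (i - 1) - p.coeff (i - 2))
  have hg20 : 0 < g2 := by
    have : (0 : ℝ) ≤ a := Nat.cast_nonneg a
    linarith
  have hN : ((i : ℝ) + 1) * (M * (M + 1)) * g1 * g2 ≤
      i * n ^ 2 * (M * (M + 1) - (M + (1 + w * (M + i)) ^ 2)) := by
    have e1 : (i : ℝ) * n + ((M : ℝ) + i - 1 + 1) * hm = i * n * (1 + w * (M + i)) := by
      rw [hiw]; ring
    rw [e1] at b4
    have e2 : (M : ℝ) + i - 1 - i + 1 = M := by ring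
    have e3 : (M : ℝ) + i - 1 - i + 2 = M + 1 := by ring
    rw [e2, e3] at b4
    have h5 : (i : ℝ) * (((i : ℝ) + 1) * (M * (M + 1)) * g1 * g2) ≤
        i * (i * n ^ 2 * (M * (M + 1) - (M + (1 + w * (M + i)) ^ 2))) := by
      have e4 : (i : ℝ) * (((i : ℝ) + 1) * (M * (M + 1)) * g1 * g2) =
        i * (i + 1) * M * (M + 1) * g1 * g2 := by ring
      have e5 : (i : ℝ) * (i * n ^ 2 * (M * (M + 1) - (M + (1 + w * (M + i)) ^ 2))) =
        (M * i * n) ^ 2 - (i * n * (1 + w * (M + i))) ^ 2 := by ring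
      rw [e4, e5]
      linarith
    exact le_of_mul_le_mul_left h5 hi0
  have hs : (M : ℝ) + (1 + w * (M + i)) ^ 2 < M * (M + 1) := by
    have h6 : 0 < ((i : ℝ) + 1) * (M * (M + 1)) * g1 * g2 := by positivity
    have h7 : 0 < (i : ℝ) * n ^ 2 * (M * (M + 1) - (M + (1 + w * (M + i)) ^ 2)) := lt_of_lt_of_le h6 hN
    have h8 : 0 < (i : ℝ) * n ^ 2 := by positivity
    have h9 := (mul_pos_iff_of_pos_left h8).1 h7
    linarith
  have hG := hP7 i M A w hi hM2 hA1 hw0 hs heta hc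
  refine no_fail hKC hi M hM2 (M + (1 + w * (M + i)) ^ 2) g1 g2 hg1b hg2a ?_ (by positivity) hG
  rw [hnN]
  exact hN

/-- the step `1 → 2` -/
theorem step_one (p : ℕ[X]) (k : ℕ) (hyp : RRHyp p k)
    (hne : (p.map (Nat.castRingHom ℝ)).eval (-1) ≠ 0)
    (hik : 2 ≤ k) (A a b : ℕ)
    (hKC : KC 1 A (p.coeff 1 - p.coeff 0) a b) :
    p.coeff 2 - p.coeff 1 ≤ a := by
  obtain ⟨h0, hr, hkd, hmono⟩ := hyp
  obtain ⟨a1, -, a3, -⟩ := analytic p h0 hr hne
  set d := p.natDegree with hd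
  have m1 : p.coeff 0 < p.coeff 1 := hmono 0 (by omega)
  have m2 : p.coeff 1 < p.coeff 2 := hmono 1 (by omega)
  rw [h0] at hKC m1
  have b1 := a1 1 le_rfl (by omega)
  have b3 := a3 (by omega)
  have hmin : (1 : ℝ) ≤ min ((109/100 : ℝ) ^ (d - 1)) ((34/25 : ℝ) ^ 1) :=
    le_min (one_le_pow₀ (by norm_num)) (by norm_num)
  rw [Nat.choose_one_right] at b1
  have hd1 : (d : ℝ) ≤ (p.coeff 1 : ℝ) := by
    refine le_trans ?_ b1
    have : (0 : ℝ) ≤ d := Nat.cast_nonneg d
    nlinarith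
  have hdR : (2 : ℝ) ≤ d := by exact_mod_cast (by omega : 2 ≤ d)
  have hp1 : (0 : ℝ) < (p.coeff 1 : ℝ) := by linarith
  have key : 2 * (p.coeff 2 : ℝ) ≤ (p.coeff 1 : ℝ) ^ 2 - p.coeff 1 := by
    have h1 : (d : ℝ) * (2 * (p.coeff 2 : ℝ)) ≤ d * ((p.coeff 1 : ℝ) ^ 2 - p.coeff 1) := by
      nlinarith
    exact le_of_mul_le_mul_left h1 (by linarith)
  have hinv := KC.inv (k := 0) hKC
  rcases hinv with ⟨hA, hn, hp, hq⟩ | ⟨j, _, _, _, _, h1, _⟩
  swap
  · omega
  simp only [Nat.add_zero, zero_add, Nat.choose_one_right] at hn hp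
  rw [hp, ← hn]
  -- nat arithmetic
  have h2 : 2 * (p.coeff 1 - 1).choose 2 = (p.coeff 1 - 1) * (p.coeff 1 - 1 - 1) := by
    rw [Nat.choose_two_right]
    exact Nat.mul_div_cancel' (Nat.even_mul_pred_self _).two_dvd
  obtain ⟨c, hc⟩ : ∃ c, p.coeff 1 = c + 2 := ⟨p.coeff 1 - 2, by omega⟩
  obtain ⟨e, he⟩ : ∃ e, p.coeff 2 = e + c + 2 := ⟨p.coeff 2 - c - 2, by omega⟩
  rw [hc] at h2 key ⊢
  rw [he] at key ⊢
  have e1 : c + 2 - 1 = c + 1 := by omega
  have e2 : c + 1 - 1 = c := by omega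
  have e3 : e + c + 2 - (c + 2) = e := by omega
  rw [e1, e2] at h2
  rw [e1, e3]
  have key2 : 2 * (e + c + 2) + (c + 2) ≤ (c + 2) ^ 2 := by
    have : (2 : ℝ) * (e + c + 2) + (c + 2) ≤ (c + 2) ^ 2 := by
      push_cast at key
      linarith
    exact_mod_cast this
  nlinarith

theorem chain (hP7 : P7Stmt) (p : ℕ[X]) (k : ℕ) (hyp : RRHyp p k)
    (hne : (p.map (Nat.castRingHom ℝ)).eval (-1) ≠ 0) :
    ∀ i, 1 ≤ i → i ≤ k → ∃ A a b, KC i A (p.coeff i - p.coeff (i - 1)) a b ∧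
      b ≤ (if i = 1 then 1 else p.coeff (i - 1) - p.coeff (i - 2)) := by
  have hmono := hyp.2.2.2
  intro i hi
  induction i, hi using Nat.le_induction with
  | base =>
    intro hk
    have m1 : p.coeff 0 < p.coeff 1 := hmono 0 (by omega)
    have h1 := KC.single 0 (p.coeff 1 - p.coeff (1 - 1)) (by simp only [Nat.sub_self]; omega)
    simp only [Nat.add_zero, Nat.choose_one_right, zero_add] at h1
    exact ⟨_, _, _, h1, by simp⟩
  | succ i hi ih =>
    intro hk
    obtain ⟨A, a, b, hKC, hb⟩ := ih (by omega)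
    have m1 : p.coeff i < p.coeff (i + 1) := hmono i (by omega)
    have hle : p.coeff (i + 1) - p.coeff i ≤ a := by
      rcases (by omega : i = 1 ∨ 2 ≤ i) with h | h
      · subst h
        exact step_one p k hyp hne (by omega) A a b hKC
      · rw [if_neg (by omega)] at hb
        exact step_big hP7 p k hyp hne i h hk A a b hKC hb
    obtain ⟨A', a', b', hKC'⟩ := KC.exists_rep (i + 1) (p.coeff (i + 1) - p.coeff (i + 1 - 1))
      (by omega) (by rw [Nat.add_sub_cancel]; omega)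
    refine ⟨A', a', b', hKC', ?_⟩
    rw [if_neg (by omega)]
    have e1 : i + 1 - 2 = i - 1 := by omega
    rw [Nat.add_sub_cancel, e1]
    have e2 : p.coeff (i + 1) - p.coeff (i + 1 - 1) = p.coeff (i + 1) - p.coeff i := by
      rw [Nat.add_sub_cancel]
    rw [e2] at hKC'
    exact KC.low_le hKC hKC' hle

theorem primitive_case (hP7 : P7Stmt) (p : ℕ[X]) (k : ℕ) (hyp : RRHyp p k) (hk : 1 ≤ k)
    (hne : (p.map (Nat.castRingHom ℝ)).eval (-1) ≠ 0) : RRConcl p k := by
  classical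
  have hch := chain hP7 p k hyp hne
  have hmono := hyp.2.2.2
  -- a uniform bound
  have hB : ∀ m, m ≤ k → ∃ N, ∀ i, 1 ≤ i → i ≤ m → ∀ N', N ≤ N' → ∃ F : Finset (Finset (Fin N')),
      Finset.Colex.IsInitSeg F i ∧ F.card = p.coeff i - p.coeff (i - 1) ∧
      (F.shadow).card ≤ (if i = 1 then 1 else p.coeff (i - 1) - p.coeff (i - 2)) := by
    intro m
    induction m with
    | zero => intro _; exact ⟨0, fun i h1 h2 => by omega⟩
    | succ m ih =>
      intro hm
      obtain ⟨N, hN⟩ := ih (by omega)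
      obtain ⟨A, a, b, hKC, hb⟩ := hch (m + 1) (by omega) hm
      refine ⟨max N (A + (m + 1)), ?_⟩
      intro i h1 h2 N' hN'
      rcases Nat.lt_or_ge i (m + 1) with h | h
      · exact hN i h1 (by omega) N' (le_trans (le_max_left _ _) hN')
      · have : i = m + 1 := by omega
        subst this
        obtain ⟨F, hF1, hF2, hF3⟩ := hKC.initSeg N' (le_trans (le_max_right _ _) hN')
        exact ⟨F, hF1, hF2, hF3.trans hb⟩
  obtain ⟨N, hN⟩ := hB k le_rfl
  obtain ⟨K, hK1, hK2⟩ := complex_of_initSeg k N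
    (fun i => if i = 0 then 1 else p.coeff i - p.coeff (i - 1)) (by simp) (by
      intro i hi hik
      have := hmono (i - 1) (by omega)
      rw [show i - 1 + 1 = i by omega] at this
      simp only [if_neg (show i ≠ 0 by omega)]
      omega) (by
      intro i hi hik
      obtain ⟨F, hF1, hF2, hF3⟩ := hN i hi hik N le_rfl
      refine ⟨F, hF1, ?_, ?_⟩
      · simp only [if_neg (show i ≠ 0 by omega)]
        exact hF2
      · refine hF3.trans (le_of_eq ?_)
        by_cases h1 : i = 1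
        · subst h1; simp
        · rw [if_neg h1]
          simp only [if_neg (show i - 1 ≠ 0 by omega)]
          rw [show i - 1 - 1 = i - 2 by omega])
  refine ⟨N, K, hK1, ?_⟩
  intro i
  rw [hK2]
  by_cases h0 : i = 0
  · subst h0; simp
  · simp only [if_neg h0]

theorem main_of_P7 (hP7 : P7Stmt) : ∀ p k, RRHyp p k → RRConcl p k :=
  reduction CO.cone_lemma DV.divide (primitive_case hP7)

end RR722
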