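import Mathlib
set_option autoImplicit false
namespace RR722.DRn

theorem log109 : (861/10000 : ℝ) ≤ Real.log (109/100) := by
  rw [Real.le_log_iff_exp_le (by norm_num)]
  have h := Real.exp_bound' (x := (861/10000 : ℝ)) (by norm_num) (by norm_num) (n := 5) (by norm_num)
  refine h.trans ?_
  simp only [Finset.sum_range_succ, Finset.sum_range_zero]
  norm_num [Nat.factorial]

theorem log3425 : (307/1000 : ℝ) ≤ Real.log (34/25) := by
  rw [Real.le_log_iff_exp_le (by norm_num)]
  have h := Real.exp_bound' (x := (307/1000 : ℝ)) (by norm_num) (by norm_num) (n := 6) (by norm_num)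
  refine h.trans ?_
  simp only [Finset.sum_range_succ, Finset.sum_range_zero]
  norm_num [Nat.factorial]

theorem choose_step (n i : ℕ) : (n + 1 + i).choose i * (n + 1) = (n + i).choose i * (n + 1 + i) := by
  have h1 := Nat.add_one_mul_choose_eq (n + i) n
  have e1 : (n + i).choose n = (n + i).choose i := by
    rw [Nat.choose_symm_add]
  have e2 : (n + i + 1).choose (n + 1) = (n + 1 + i).choose i := by
    rw [show n + i + 1 = (n + 1) + i by omega, Nat.choose_symm_add]
  rw [e1, e2] at h1
  rw [← h1]
  ring

theorem choose_bd (i M D : ℕ) (hM : 2 ≤ M) :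
    (((M - 1 + D + i).choose i : ℕ) : ℝ) ≤
      ((M + i - 1).choose i : ℝ) * Real.exp ((D : ℝ) * (i / M)) := by
  have hMp : (0 : ℝ) < M := by exact_mod_cast (by omega : 0 < M)
  induction D with
  | zero =>
    simp only [Nat.cast_zero, zero_mul, Real.exp_zero, mul_one]
    rw [show M - 1 + 0 + i = M + i - 1 by omega]
  | succ D ih =>
    have h := choose_step (M - 1 + D) i
    have h' : (((M - 1 + (D + 1) + i).choose i : ℕ) : ℝ) * ((M : ℝ) + D) =
        (((M - 1 + D + i).choose i : ℕ) : ℝ) * (M + D + i) := by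
      have e : M - 1 + (D + 1) + i = M - 1 + D + 1 + i := by omega
      rw [e]
      have e3 : (M - 1 + D + 1 : ℕ) = M + D := by omega
      rw [e3] at h
      rw [show M - 1 + D + 1 + i = M + D + i by omega]
      exact_mod_cast h
    have hpos : (0 : ℝ) < (M : ℝ) + D := by positivity
    have hr : ((M : ℝ) + D + i) ≤ (M + D) * Real.exp (i / M) := by
      have h1 : (1 : ℝ) + i / M ≤ Real.exp (i / M) := by
        have := Real.add_one_le_exp ((i : ℝ) / M)
        linarith
      have h2 : ((M : ℝ) + D + i) ≤ (M + D) * (1 + i / M) := by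
        have : ((M : ℝ) + D) * (1 + i / M) = M + D + i + D * (i / M) := by
          field_simp
          ring
        rw [this]
        have : (0 : ℝ) ≤ (D : ℝ) * (i / M) := by positivity
        linarith
      exact h2.trans (mul_le_mul_of_nonneg_left h1 hpos.le)
    have hcast : ((((D + 1 : ℕ)) : ℝ) * (i / M)) = D * (i / M) + i / M := by push_cast; ring
    rw [hcast, Real.exp_add]
    have hE : 0 < Real.exp ((D : ℝ) * (i / M)) := Real.exp_pos _
    have hc0 : (0 : ℝ) ≤ ((M + i - 1).choose i : ℝ) := by positivity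
    have : (((M - 1 + (D + 1) + i).choose i : ℕ) : ℝ) * ((M : ℝ) + D) ≤
        (((M + i - 1).choose i : ℝ) * (Real.exp ((D : ℝ) * (i / M)) * Real.exp (i / M))) * ((M : ℝ) + D) := by
      rw [h']
      calc (((M - 1 + D + i).choose i : ℕ) : ℝ) * (M + D + i)
          ≤ (((M + i - 1).choose i : ℝ) * Real.exp ((D : ℝ) * (i / M))) *
            ((M + D) * Real.exp (i / M)) := by
            apply mul_le_mul ih hr (by positivity) (by positivity)
        _ = _ := by ring
    exact le_of_mul_le_mul_right this hpos

theorem DR (i M D : ℕ) (w : ℝ) (hi : 2 ≤ i) (hM : 2 ≤ M) (hw : 0 < w)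
    (heta : ((M + i - 1).choose i : ℝ) * (1 + i * w) ^ (i - 1) <
      (M * w) ^ i * ((M - 1 + D + i).choose i : ℝ))
    (hc : min ((109/100 : ℝ) ^ (M - 1)) ((34/25 : ℝ) ^ i) * ((M + i - 1).choose i : ℝ) <
      (1 + i * w) * ((M - 1 + D + i).choose i : ℝ)) :
    (M : ℝ) * ((1 + i * w) - M * w) ≤ (M * w + D) * (1 + i * w) ∧
    (861/10000 * (M : ℝ) * (M - 1) ≤ i * (M * w + D) ∨ 307/1000 * (M : ℝ) ≤ M * w + D) := by
  have hMp : (0 : ℝ) < M := by exact_mod_cast (by omega : 0 < M)
  have hip : (0 : ℝ) < i := by exact_mod_cast (by omega : 0 < i)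
  have ha : (0 : ℝ) < 1 + i * w := by positivity
  have hb : (0 : ℝ) < M * w := by positivity
  have hC : (0 : ℝ) < ((M + i - 1).choose i : ℝ) := by
    exact_mod_cast Nat.choose_pos (by omega)
  have hbd := choose_bd i M D hM
  have hE : 0 < Real.exp ((D : ℝ) * (i / M)) := Real.exp_pos _
  have hla : Real.log (1 + i * w) ≤ i * w := by
    have := Real.log_le_sub_one_of_pos ha
    linarith
  constructor
  · have h1 : (1 + i * w) ^ (i - 1) < (M * w) ^ i * Real.exp ((D : ℝ) * (i / M)) := by
      have h2 : ((M + i - 1).choose i : ℝ) * (1 + i * w) ^ (i - 1) <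
          ((M + i - 1).choose i : ℝ) * ((M * w) ^ i * Real.exp ((D : ℝ) * (i / M))) := by
        refine heta.trans_le ?_
        calc (M * w) ^ i * ((M - 1 + D + i).choose i : ℝ) ≤
            (M * w) ^ i * (((M + i - 1).choose i : ℝ) * Real.exp ((D : ℝ) * (i / M))) :=
              mul_le_mul_of_nonneg_left hbd (by positivity)
          _ = _ := by ring
      exact lt_of_mul_lt_mul_left h2 hC.le
    have h3 := Real.log_lt_log (by positivity) h1
    rw [Real.log_pow, Real.log_mul (by positivity) hE.ne', Real.log_pow, Real.log_exp] at h3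
    have hi1 : ((i - 1 : ℕ) : ℝ) = i - 1 := by
      rw [Nat.cast_sub (by omega)]; simp
    rw [hi1] at h3
    -- (i-1) log a < i log b + D i / M
    have h4 : (i : ℝ) * (Real.log (1 + i * w) - Real.log (M * w)) < i * w + D * (i / M) := by
      nlinarith
    have h5 : Real.log (1 + i * w) - Real.log (M * w) < w + D / M := by
      have : (i : ℝ) * (Real.log (1 + i * w) - Real.log (M * w)) < i * (w + D / M) := by
        calc (i : ℝ) * (Real.log (1 + i * w) - Real.log (M * w)) < i * w + D * (i / M) := h4
          _ = i * (w + D / M) := by ring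
      exact lt_of_mul_lt_mul_left this hip.le
    have h6 : 1 - (M * w) / (1 + i * w) ≤ Real.log (1 + i * w) - Real.log (M * w) := by
      have h7 := Real.log_le_sub_one_of_pos (div_pos hb ha)
      rw [Real.log_div hb.ne' ha.ne'] at h7
      linarith
    have h8 : 1 - (M * w) / (1 + i * w) < w + D / M := lt_of_le_of_lt h6 h5
    have h9 : (1 - (M * w) / (1 + i * w)) * (M * (1 + i * w)) < (w + D / M) * (M * (1 + i * w)) :=
      mul_lt_mul_of_pos_right h8 (by positivity)
    have e1 : (1 - (M * w) / (1 + i * w)) * (M * (1 + i * w)) = M * ((1 + i * w) - M * w) := by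
      field_simp
    have e2 : (w + D / M) * (M * (1 + i * w)) = (M * w + D) * (1 + i * w) := by
      field_simp
    rw [e1, e2] at h9
    exact h9.le
  · have h1 : min ((109/100 : ℝ) ^ (M - 1)) ((34/25 : ℝ) ^ i) <
        (1 + i * w) * Real.exp ((D : ℝ) * (i / M)) := by
      have h2 : min ((109/100 : ℝ) ^ (M - 1)) ((34/25 : ℝ) ^ i) * ((M + i - 1).choose i : ℝ) <
          ((1 + i * w) * Real.exp ((D : ℝ) * (i / M))) * ((M + i - 1).choose i : ℝ) := by
        refine hc.trans_le ?_
        calc (1 + i * w) * ((M - 1 + D + i).choose i : ℝ) ≤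
            (1 + i * w) * (((M + i - 1).choose i : ℝ) * Real.exp ((D : ℝ) * (i / M))) :=
              mul_le_mul_of_nonneg_left hbd (by positivity)
          _ = _ := by ring
      exact lt_of_mul_lt_mul_right h2 hC.le
    rcases min_lt_iff.1 h1 with h | h
    · left
      have h3 := Real.log_lt_log (by positivity) h
      rw [Real.log_pow, Real.log_mul ha.ne' hE.ne', Real.log_exp] at h3
      have hm1 : ((M - 1 : ℕ) : ℝ) = M - 1 := by
        rw [Nat.cast_sub (by omega)]; simp
      rw [hm1] at h3
      have h109 := log109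
      have hM1 : (0 : ℝ) ≤ (M : ℝ) - 1 := by
        have : (1 : ℝ) ≤ M := by exact_mod_cast (by omega : 1 ≤ M)
        linarith
      have h4 : ((M : ℝ) - 1) * (861/10000) ≤ i * w + D * (i / M) := by
        have := mul_le_mul_of_nonneg_left h109 hM1
        linarith
      have h5 : (M : ℝ) * (((M : ℝ) - 1) * (861/10000)) ≤ M * (i * w + D * (i / M)) :=
        mul_le_mul_of_nonneg_left h4 hMp.le
      have e : (M : ℝ) * (i * w + D * (i / M)) = i * (M * w + D) := by
        field_simp
      rw [e] at h5
      linarith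
    · right
      have h3 := Real.log_lt_log (by positivity) h
      rw [Real.log_pow, Real.log_mul ha.ne' hE.ne', Real.log_exp] at h3
      have h34 := log3425
      have h4 : (i : ℝ) * (307/1000) ≤ i * w + D * (i / M) := by
        have := mul_le_mul_of_nonneg_left h34 hip.le
        linarith
      have h5 : (i : ℝ) * (307/1000) ≤ i * (w + D / M) := by
        calc (i : ℝ) * (307/1000) ≤ i * w + D * (i / M) := h4
          _ = i * (w + D / M) := by ring
      have h6 : (307/1000 : ℝ) ≤ w + D / M := le_of_mul_le_mul_left h5 hip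
      have h7 := mul_le_mul_of_nonneg_left h6 hMp.le
      have e : (M : ℝ) * (w + D / M) = M * w + D := by
        field_simp
      rw [e] at h7
      linarith

end RR722.DRn
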