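import Mathlib
import Pool.Agent.Helper722.RR.GoalDef
set_option autoImplicit false
namespace RR722.S1n

def cL (i A : ℕ) : ℕ :=
  bif Nat.beq i 2 then 4 else
  bif Nat.beq i 3 then Nat.mul 2 (Nat.add (Nat.mul 20 A) 18) else
  bif Nat.beq i 4 then Nat.add (Nat.mul 25 A) 36 else
  bif Nat.beq i 5 then Nat.add (Nat.mul 6 A) 15 else
  Nat.add (Nat.add (Nat.mul i A) A) (Nat.mul 4 i)

def cR (i A : ℕ) : ℕ :=
  bif Nat.beq i 2 then Nat.mul 3 A else
  bif Nat.beq i 3 then Nat.mul (Nat.sub (Nat.mul 2 A) 1) (Nat.mul 15 A) else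
  bif Nat.beq i 4 then Nat.mul (Nat.sub A 1) (Nat.mul 20 A) else
  bif Nat.beq i 5 then Nat.mul (Nat.sub A 1) (Nat.mul 5 A) else
  Nat.mul (Nat.sub A 1) (Nat.mul i A)

def isq : ℕ → ℕ → ℕ → ℕ
  | 0, _, g => g
  | f + 1, n, g => bif Nat.ble g (Nat.div (Nat.add g (Nat.div n g)) 2) then g else
      isq f n (Nat.div (Nat.add g (Nat.div n g)) 2)

/-- squares-up -/
def isqup (R s : ℕ) : ℕ := bif Nat.ble R (Nat.mul s s) then s else Nat.succ s

def Rr (i M A : ℕ) : ℕ :=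
  Nat.sub (Nat.div (Nat.add (Nat.mul (cL i A) (Nat.mul 400 (Nat.mul M (Nat.add M 1))))
    (Nat.sub (cR i A) 1)) (cR i A)) (Nat.mul 400 M)

def ms (i M A : ℕ) : ℕ :=
  bif Nat.beq (cR i A) 0 then Nat.sub (Nat.mul 20 M) 20 else
    Nat.min (Nat.sub (isqup (Rr i M A) (isq 12 (Rr i M A) (Nat.mul 20 M))) 20)
      (Nat.sub (Nat.mul 20 M) 20)

def Bc (i M A m : ℕ) : Bool :=
  or (Nat.ble (Nat.mul 20 M) (Nat.add 20 m))
    (Nat.ble (Nat.mul (cL i A) (Nat.mul 400 (Nat.mul M (Nat.add M 1))))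
      (Nat.mul (cR i A) (Nat.add (Nat.mul 400 M) (Nat.pow (Nat.add 20 m) 2))))

def Cc (i M A m : ℕ) : Bool :=
  or (Nat.ble (Nat.mul (Nat.pow (Nat.mul M m) i) (Nat.ascFactorial (Nat.add A 1) i))
      (Nat.mul (Nat.mul (Nat.pow (Nat.add (Nat.mul 20 (Nat.add M i)) (Nat.mul i m)) (Nat.sub i 1))
        (Nat.mul 20 (Nat.add M i))) (Nat.ascFactorial M i)))
    (and (Nat.ble (Nat.mul (Nat.mul (Nat.add (Nat.mul 20 (Nat.add M i)) (Nat.mul i m))
        (Nat.ascFactorial (Nat.add A 1) i)) (Nat.pow 100 (Nat.sub M 1)))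
      (Nat.mul (Nat.mul (Nat.mul 20 (Nat.add M i)) (Nat.pow 109 (Nat.sub M 1)))
        (Nat.ascFactorial M i)))
    (Nat.ble (Nat.mul (Nat.mul (Nat.add (Nat.mul 20 (Nat.add M i)) (Nat.mul i m))
        (Nat.ascFactorial (Nat.add A 1) i)) (Nat.pow 25 i))
      (Nat.mul (Nat.mul (Nat.mul 20 (Nat.add M i)) (Nat.pow 34 i)) (Nat.ascFactorial M i))))

def chk (i M A m : ℕ) : Bool := and (Bc i M A m) (or (Nat.beq m 0) (Cc i M A m))

def loopA (i M : ℕ) : ℕ → Bool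
  | 0 => true
  | k + 1 => and (chk i M (Nat.succ k) (ms i M (Nat.succ k))) (loopA i M k)

def loopM (i : ℕ) : ℕ → Bool
  | 0 => true
  | k + 1 => and (loopA i (k + 2) (k + 33)) (loopM i k)


theorem all2 : loopM 2 36 = true := by decide +kernel
theorem all3 : loopM 3 88 = true := by decide +kernel
theorem all4 : loopM 4 45 = true := by decide +kernel
theorem all5 : loopM 5 30 = true := by decide +kernel
theorem all6 : loopM 6 30 = true := by decide +kernel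
theorem all7 : loopM 7 26 = true := by decide +kernel
theorem all8 : loopM 8 28 = true := by decide +kernel
theorem all9 : loopM 9 32 = true := by decide +kernel
theorem all10 : loopM 10 35 = true := by decide +kernel
theorem all11 : loopM 11 39 = true := by decide +kernel

theorem loopA_sound {i M : ℕ} : ∀ {n : ℕ}, loopA i M n = true → ∀ A, 1 ≤ A → A ≤ n →
    ∃ m, chk i M A m = true := by
  intro n
  induction n with
  | zero => intro _ A h1 h2; omega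
  | succ n ih =>
    intro h A h1 h2
    have h' : (chk i M (Nat.succ n) (ms i M (Nat.succ n)) && loopA i M n) = true := h
    rw [Bool.and_eq_true] at h'
    rcases Nat.lt_or_ge A (n + 1) with h3 | h3
    · exact ih h'.2 A h1 (by omega)
    · obtain rfl : A = n + 1 := by omega
      exact ⟨_, h'.1⟩

theorem loopM_sound {i : ℕ} : ∀ {n : ℕ}, loopM i n = true → ∀ M, 2 ≤ M → M ≤ n + 1 →
    loopA i M (M + 31) = true := by
  intro n
  induction n with
  | zero => intro _ A h1 h2; omega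
  | succ n ih =>
    intro h M h1 h2
    have h' : (loopA i (n + 2) (n + 33) && loopM i n) = true := h
    rw [Bool.and_eq_true] at h'
    rcases Nat.lt_or_ge M (n + 2) with h3 | h3
    · exact ih h'.2 M h1 (by omega)
    · obtain rfl : M = n + 2 := by omega
      exact h'.1

theorem exists_m {i M A : ℕ} (hM : 2 ≤ M) (hA : 1 ≤ A) (hAM : A ≤ M + 31)
    (hfin : (i = 2 ∧ M ≤ 37) ∨ (i = 3 ∧ M ≤ 89) ∨ (i = 4 ∧ M ≤ 46) ∨ (i = 5 ∧ M ≤ 31) ∨
      (i = 6 ∧ M ≤ 31) ∨ (i = 7 ∧ M ≤ 27) ∨ (i = 8 ∧ M ≤ 29) ∨ (i = 9 ∧ M ≤ 33) ∨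
      (i = 10 ∧ M ≤ 36) ∨ (i = 11 ∧ M ≤ 40)) : ∃ m, chk i M A m = true := by
  rcases hfin with ⟨rfl, h⟩ | ⟨rfl, h⟩ | ⟨rfl, h⟩ | ⟨rfl, h⟩ | ⟨rfl, h⟩ | ⟨rfl, h⟩ | ⟨rfl, h⟩ |
    ⟨rfl, h⟩ | ⟨rfl, h⟩ | ⟨rfl, h⟩
  · exact loopA_sound (loopM_sound all2 M hM h) A hA hAM
  · exact loopA_sound (loopM_sound all3 M hM h) A hA hAM
  · exact loopA_sound (loopM_sound all4 M hM h) A hA hAM
  · exact loopA_sound (loopM_sound all5 M hM h) A hA hAM
  · exact loopA_sound (loopM_sound all6 M hM h) A hA hAM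
  · exact loopA_sound (loopM_sound all7 M hM h) A hA hAM
  · exact loopA_sound (loopM_sound all8 M hM h) A hA hAM
  · exact loopA_sound (loopM_sound all9 M hM h) A hA hAM
  · exact loopA_sound (loopM_sound all10 M hM h) A hA hAM
  · exact loopA_sound (loopM_sound all11 M hM h) A hA hAM

theorem beq_false_of_ne {a b : ℕ} (h : a ≠ b) : Nat.beq a b = false :=
  Bool.eq_false_iff.2 (fun h' => h (Nat.eq_of_beq_eq_true h'))

theorem cL2 (A : ℕ) : cL 2 A = 4 := rfl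
theorem cR2 (A : ℕ) : cR 2 A = 3 * A := rfl
theorem cL3 (A : ℕ) : cL 3 A = 2 * (20 * A + 18) := rfl
theorem cR3 (a : ℕ) : cR 3 (a + 1) = (2 * a + 1) * (15 * (a + 1)) := by
  have : cR 3 (a + 1) = (2 * (a + 1) - 1) * (15 * (a + 1)) := rfl
  rw [this]
  congr 1
theorem cL4 (A : ℕ) : cL 4 A = 25 * A + 36 := rfl
theorem cR4 (a : ℕ) : cR 4 (a + 1) = a * (20 * (a + 1)) := rfl
theorem cL5 (A : ℕ) : cL 5 A = 6 * A + 15 := rfl
theorem cR5 (a : ℕ) : cR 5 (a + 1) = a * (5 * (a + 1)) := rfl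
theorem cLi {i : ℕ} (A : ℕ) (h2 : i ≠ 2) (h3 : i ≠ 3) (h4 : i ≠ 4) (h5 : i ≠ 5) :
    cL i A = i * A + A + 4 * i := by
  unfold cL
  rw [beq_false_of_ne h2, beq_false_of_ne h3, beq_false_of_ne h4, beq_false_of_ne h5]
  rfl
theorem cRi {i : ℕ} (a : ℕ) (h2 : i ≠ 2) (h3 : i ≠ 3) (h4 : i ≠ 4) (h5 : i ≠ 5) :
    cR i (a + 1) = a * (i * (a + 1)) := by
  unfold cR
  rw [beq_false_of_ne h2, beq_false_of_ne h3, beq_false_of_ne h4, beq_false_of_ne h5]
  rfl

theorem goal_iff {i M A : ℕ} (hA : 1 ≤ A) (X : ℝ) :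
    Goal i M A X ↔ (cL i A : ℝ) * ((M : ℝ) * (M + 1)) ≤ (cR i A : ℝ) * X := by
  obtain ⟨a, rfl⟩ : ∃ a, A = a + 1 := ⟨A - 1, by omega⟩
  unfold Goal
  split_ifs with h2 h3 h4 h5
  · subst h2
    rw [cL2, cR2]
    push_cast
    exact Iff.rfl
  · subst h3
    rw [cL3, cR3]
    push_cast
    rw [show (2 * ((a : ℝ) + 1) - 1) = 2 * a + 1 by ring]
  · subst h4
    rw [cL4, cR4]
    push_cast
    rw [show ((a : ℝ) + 1 - 1) = a by ring]
  · subst h5
    rw [cL5, cR5]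
    push_cast
    rw [show ((a : ℝ) + 1 - 1) = a by ring]
  · rw [cLi _ h2 h3 h4 h5, cRi _ h2 h3 h4 h5]
    push_cast
    rw [show ((a : ℝ) + 1 - 1) = a by ring]

/-- large `A` -/
theorem large {i M A : ℕ} (hM : 2 ≤ M) (hAM : M + 32 ≤ A)
    (hfin : (i = 2 ∧ M ≤ 37) ∨ (i = 3 ∧ M ≤ 89) ∨ (i = 4 ∧ M ≤ 46) ∨ (i = 5 ∧ M ≤ 31) ∨
      (i = 6 ∧ M ≤ 31) ∨ (i = 7 ∧ M ≤ 27) ∨ (i = 8 ∧ M ≤ 29) ∨ (i = 9 ∧ M ≤ 33) ∨
      (i = 10 ∧ M ≤ 36) ∨ (i = 11 ∧ M ≤ 40)) : cL i A * M ≤ cR i A := by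
  obtain ⟨b, rfl⟩ : ∃ b, A = M + 31 + b + 1 := ⟨A - M - 32, by omega⟩
  rcases hfin with ⟨rfl, h⟩ | ⟨rfl, h⟩ | ⟨rfl, h⟩ | ⟨rfl, h⟩ | ⟨rfl, h⟩ | ⟨rfl, h⟩ | ⟨rfl, h⟩ |
    ⟨rfl, h⟩ | ⟨rfl, h⟩ | ⟨rfl, h⟩
  · rw [cL2, cR2]; omega
  · rw [cL3, cR3]
    obtain ⟨c, hc⟩ : ∃ c, M + c = 89 := ⟨89 - M, by omega⟩
    zify at hc ⊢
    nlinarith [mul_nonneg (Int.natCast_nonneg b) (Int.natCast_nonneg c), mul_nonneg (Int.natCast_nonneg M) (Int.natCast_nonneg c), mul_nonneg (Int.natCast_nonneg M) (Int.natCast_nonneg b), mul_nonneg (Int.natCast_nonneg b) (Int.natCast_nonneg b)]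
  · rw [cL4, cR4]
    obtain ⟨c, hc⟩ : ∃ c, M + c = 46 := ⟨46 - M, by omega⟩
    zify at hc ⊢
    nlinarith [mul_nonneg (Int.natCast_nonneg b) (Int.natCast_nonneg c), mul_nonneg (Int.natCast_nonneg M) (Int.natCast_nonneg c), mul_nonneg (Int.natCast_nonneg M) (Int.natCast_nonneg b), mul_nonneg (Int.natCast_nonneg b) (Int.natCast_nonneg b)]
  · rw [cL5, cR5]
    zify
    nlinarith [mul_nonneg (Int.natCast_nonneg M) (Int.natCast_nonneg b), mul_nonneg (Int.natCast_nonneg b) (Int.natCast_nonneg b)]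
  all_goals
    rw [cLi _ (by norm_num) (by norm_num) (by norm_num) (by norm_num),
      cRi _ (by norm_num) (by norm_num) (by norm_num) (by norm_num)]
    zify
    nlinarith [mul_nonneg (Int.natCast_nonneg M) (Int.natCast_nonneg b), mul_nonneg (Int.natCast_nonneg b) (Int.natCast_nonneg b)]

theorem X_mono {i M A : ℕ} {X X' : ℝ} (hXX : X' ≤ X)
    (h : (cL i A : ℝ) * ((M : ℝ) * (M + 1)) ≤ (cR i A : ℝ) * X') :
    (cL i A : ℝ) * ((M : ℝ) * (M + 1)) ≤ (cR i A : ℝ) * X :=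
  h.trans (mul_le_mul_of_nonneg_left hXX (Nat.cast_nonneg _))

theorem B_sound {i M A m : ℕ} {w : ℝ} (hM : 2 ≤ M) (hA : 1 ≤ A) (hi : 2 ≤ i)
    (hs : (M : ℝ) + (1 + w * (M + i)) ^ 2 < M * (M + 1)) (hB : Bc i M A m = true)
    (hw : (m : ℝ) / (20 * (M + i)) ≤ w) : Goal i M A (M + (1 + w * (M + i)) ^ 2) := by
  have hM' : (2 : ℝ) ≤ M := by exact_mod_cast hM
  have hi' : (2 : ℝ) ≤ i := by exact_mod_cast hi
  have hT : (0 : ℝ) < 20 * (M + i) := by positivity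
  rw [div_le_iff₀ hT] at hw
  have h1 : (20 + m : ℝ) ≤ 20 * (1 + w * (M + i)) := by linarith
  have h0 : (0 : ℝ) ≤ 20 + m := by positivity
  rw [goal_iff hA]
  unfold Bc at hB
  rw [Bool.or_eq_true] at hB
  rcases hB with hB | hB
  · exfalso
    have h2 : 20 * M ≤ 20 + m := Nat.le_of_ble_eq_true hB
    have h3 : (20 * M : ℝ) ≤ 20 + m := by exact_mod_cast h2
    have h4 : (M : ℝ) ≤ 1 + w * (M + i) := by linarith
    nlinarith
  · have h2 : cL i A * (400 * (M * (M + 1))) ≤ cR i A * (400 * M + (20 + m) ^ 2) :=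
      Nat.le_of_ble_eq_true hB
    have h3 : (cL i A : ℝ) * (400 * (M * (M + 1))) ≤ cR i A * (400 * M + (20 + m) ^ 2) := by
      exact_mod_cast h2
    refine X_mono (X' := (M : ℝ) + ((20 + m) / 20) ^ 2) ?_ ?_
    · have h5 : (20 + m : ℝ) / 20 ≤ 1 + w * (M + i) := by
        rw [div_le_iff₀ (by norm_num)]; linarith
      have h6 : (0 : ℝ) ≤ (20 + m) / 20 := by positivity
      have := pow_le_pow_left₀ h6 h5 2
      linarith
    · have e1 : (cR i A : ℝ) * (M + ((20 + m) / 20) ^ 2) =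
          (cR i A * (400 * M + (20 + m) ^ 2)) / 400 := by ring
      rw [e1, le_div_iff₀ (by norm_num)]
      linarith

theorem C_sound {i M A m : ℕ} {w : ℝ} (hM : 2 ≤ M) (hi : 2 ≤ i) (hw0 : 0 < w)
    (heta : ((M + i - 1).choose i : ℝ) * (1 + i * w) ^ (i - 1) < (M * w) ^ i * ((A + i).choose i : ℝ))
    (hc : min ((109/100 : ℝ) ^ (M - 1)) ((34/25 : ℝ) ^ i) * ((M + i - 1).choose i : ℝ) <
      (1 + i * w) * ((A + i).choose i : ℝ))
    (hC : Cc i M A m = true) (hw : w < (m : ℝ) / (20 * (M + i))) : False := by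
  have hM' : (2 : ℝ) ≤ M := by exact_mod_cast hM
  have hi' : (2 : ℝ) ≤ i := by exact_mod_cast hi
  have hTpos : (0 : ℝ) < 20 * (M + i) := by positivity
  have hP1 : (Nat.ascFactorial (A + 1) i : ℝ) = i.factorial * ((A + i).choose i : ℝ) := by
    rw [Nat.ascFactorial_eq_factorial_mul_choose]; push_cast; rfl
  have hP2 : (Nat.ascFactorial M i : ℝ) = i.factorial * ((M + i - 1).choose i : ℝ) := by
    obtain ⟨M0, rfl⟩ : ∃ M0, M = M0 + 1 := ⟨M - 1, by omega⟩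
    rw [Nat.ascFactorial_eq_factorial_mul_choose, show M0 + 1 + i - 1 = M0 + i by omega]
    push_cast; rfl
  have hf : (0 : ℝ) < i.factorial := by exact_mod_cast i.factorial_pos
  obtain ⟨a, ha⟩ : ∃ a : ℝ, a = ((A + i).choose i : ℝ) := ⟨_, rfl⟩
  obtain ⟨b, hb⟩ : ∃ b : ℝ, b = ((M + i - 1).choose i : ℝ) := ⟨_, rfl⟩
  have ha0 : 0 < a := by
    rw [ha]; exact_mod_cast Nat.choose_pos (by omega)
  have hb0 : 0 < b := by
    rw [hb]; exact_mod_cast Nat.choose_pos (by omega)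
  rw [← ha, ← hb] at heta hc
  rw [← ha] at hP1
  rw [← hb] at hP2
  obtain ⟨T, hT⟩ : ∃ T : ℝ, T = 20 * ((M : ℝ) + i) := ⟨_, rfl⟩
  rw [← hT] at hTpos hw
  -- w* = m / T
  have hwT : w * T < m := by rwa [lt_div_iff₀ hTpos] at hw
  unfold Cc at hC
  rw [Bool.or_eq_true, Bool.and_eq_true] at hC
  rcases hC with hC | ⟨hC1, hC2⟩
  · have h1 : (M * m) ^ i * Nat.ascFactorial (A + 1) i ≤
        ((20 * (M + i) + i * m) ^ (i - 1) * (20 * (M + i))) * Nat.ascFactorial M i :=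
      Nat.le_of_ble_eq_true hC
    have h2 : ((M : ℝ) * m) ^ i * (i.factorial * a) ≤
        ((T + i * m) ^ (i - 1) * T) * (i.factorial * b) := by
      rw [← hP1, ← hP2, hT]
      exact_mod_cast h1
    have h3 : ((M : ℝ) * m) ^ i * a ≤ ((T + i * m) ^ (i - 1) * T) * b := by
      have : i.factorial * (((M : ℝ) * m) ^ i * a) ≤
          i.factorial * (((T + i * m) ^ (i - 1) * T) * b) := by linarith
      exact le_of_mul_le_mul_left this hf
    obtain ⟨j, rfl⟩ : ∃ j, i = j + 1 := ⟨i - 1, by omega⟩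
    rw [Nat.add_sub_cancel] at heta h3
    obtain ⟨I, hI⟩ : ∃ I : ℝ, I = ((j + 1 : ℕ) : ℝ) := ⟨_, rfl⟩
    rw [← hI] at heta h3
    have hI0 : 0 < I := by rw [hI]; positivity
    -- w (T + I m) ≤ m (1 + I w)
    have h4 : w * (T + I * m) ≤ m * (1 + I * w) := by nlinarith
    have h5 : (w * (T + I * m)) ^ j ≤ (m * (1 + I * w)) ^ j :=
      pow_le_pow_left₀ (by positivity) h4 j
    have h6 : (w * (T + I * m)) ^ j * (w * T) ≤ (m * (1 + I * w)) ^ j * m :=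
      mul_le_mul h5 hwT.le (by positivity) (by positivity)
    have hM0 : (0 : ℝ) < (M : ℝ) ^ (j + 1) := by positivity
    -- multiply
    have h7 : (M : ℝ) ^ (j + 1) * ((w * (T + I * m)) ^ j * (w * T)) ≤
        (M : ℝ) ^ (j + 1) * ((m * (1 + I * w)) ^ j * m) := mul_le_mul_of_nonneg_left h6 hM0.le
    have h8 : (M * w) ^ (j + 1) * ((T + I * m) ^ j * T) ≤ (M * m) ^ (j + 1) * (1 + I * w) ^ j := by
      have e1 : (M : ℝ) ^ (j + 1) * ((w * (T + I * m)) ^ j * (w * T)) =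
          (M * w) ^ (j + 1) * ((T + I * m) ^ j * T) := by
        rw [mul_pow, mul_pow]; ring
      have e2 : (M : ℝ) ^ (j + 1) * ((m * (1 + I * w)) ^ j * m) =
          (M * m) ^ (j + 1) * (1 + I * w) ^ j := by
        rw [mul_pow, mul_pow]; ring
      rw [e1, e2] at h7
      exact h7
    have h9 : 0 < (T + I * m) ^ j * T := by positivity
    have h10 : (b * (1 + I * w) ^ j) * ((T + I * m) ^ j * T) <
        ((M * w) ^ (j + 1) * a) * ((T + I * m) ^ j * T) := mul_lt_mul_of_pos_right heta h9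
    have h11 : ((M * w) ^ (j + 1) * ((T + I * m) ^ j * T)) * a ≤
        ((M * m) ^ (j + 1) * (1 + I * w) ^ j) * a := mul_le_mul_of_nonneg_right h8 ha0.le
    have h12 : ((M : ℝ) * m) ^ (j + 1) * a * (1 + I * w) ^ j ≤
        (((T + I * m) ^ j * T) * b) * (1 + I * w) ^ j :=
      mul_le_mul_of_nonneg_right h3 (by positivity)
    nlinarith
  · have h1 : ((20 * (M + i) + i * m) * Nat.ascFactorial (A + 1) i) * 100 ^ (M - 1) ≤
        ((20 * (M + i)) * 109 ^ (M - 1)) * Nat.ascFactorial M i := Nat.le_of_ble_eq_true hC1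
    have h2 : ((20 * (M + i) + i * m) * Nat.ascFactorial (A + 1) i) * 25 ^ i ≤
        ((20 * (M + i)) * 34 ^ i) * Nat.ascFactorial M i := Nat.le_of_ble_eq_true hC2
    have h1' : ((T + i * m) * (i.factorial * a)) * 100 ^ (M - 1) ≤
        (T * 109 ^ (M - 1)) * (i.factorial * b) := by
      rw [← hP1, ← hP2, hT]
      exact_mod_cast h1
    have h2' : ((T + i * m) * (i.factorial * a)) * 25 ^ i ≤
        (T * 34 ^ i) * (i.factorial * b) := by
      rw [← hP1, ← hP2, hT]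
      exact_mod_cast h2
    have h1'' : (T + i * m) * a * 100 ^ (M - 1) ≤ T * 109 ^ (M - 1) * b := by
      have : i.factorial * ((T + i * m) * a * 100 ^ (M - 1)) ≤
          i.factorial * (T * 109 ^ (M - 1) * b) := by linarith
      exact le_of_mul_le_mul_left this hf
    have h2'' : (T + i * m) * a * 25 ^ i ≤ T * 34 ^ i * b := by
      have : i.factorial * ((T + i * m) * a * 25 ^ i) ≤
          i.factorial * (T * 34 ^ i * b) := by linarith
      exact le_of_mul_le_mul_left this hf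
    have h3 : (1 + i * w) * a * T ≤ (T + i * m) * a := by
      have : (i : ℝ) * (w * T) * a ≤ i * m * a := by gcongr
      nlinarith
    have h4 : (1 + i * w) * a ≤ (109 / 100) ^ (M - 1) * b := by
      rw [div_pow, div_mul_eq_mul_div, le_div_iff₀ (by positivity)]
      have h5 : T * ((1 + i * w) * a * 100 ^ (M - 1)) ≤ T * (109 ^ (M - 1) * b) := by
        have := mul_le_mul_of_nonneg_right h3 (by positivity : (0 : ℝ) ≤ 100 ^ (M - 1))
        linarith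
      exact le_of_mul_le_mul_left h5 hTpos
    have h4' : (1 + i * w) * a ≤ (34 / 25) ^ i * b := by
      rw [div_pow, div_mul_eq_mul_div, le_div_iff₀ (by positivity)]
      have h5 : T * ((1 + i * w) * a * 25 ^ i) ≤ T * (34 ^ i * b) := by
        have := mul_le_mul_of_nonneg_right h3 (by positivity : (0 : ℝ) ≤ 25 ^ i)
        linarith
      exact le_of_mul_le_mul_left h5 hTpos
    rcases min_choice ((109/100 : ℝ) ^ (M - 1)) ((34/25 : ℝ) ^ i) with h | h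
    · rw [h] at hc; linarith
    · rw [h] at hc; linarith


theorem P7_fin (i M A : ℕ) (w : ℝ) (hi : 2 ≤ i) (hM : 2 ≤ M) (hA : 1 ≤ A) (hw : 0 < w)
    (hs : (M : ℝ) + (1 + w * (M + i)) ^ 2 < M * (M + 1))
    (heta : ((M + i - 1).choose i : ℝ) * (1 + i * w) ^ (i - 1) < (M * w) ^ i * ((A + i).choose i : ℝ))
    (hc : min ((109/100 : ℝ) ^ (M - 1)) ((34/25 : ℝ) ^ i) * ((M + i - 1).choose i : ℝ) <
      (1 + i * w) * ((A + i).choose i : ℝ))
    (hfin : (i = 2 ∧ M ≤ 37) ∨ (i = 3 ∧ M ≤ 89) ∨ (i = 4 ∧ M ≤ 46) ∨ (i = 5 ∧ M ≤ 31) ∨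
      (i = 6 ∧ M ≤ 31) ∨ (i = 7 ∧ M ≤ 27) ∨ (i = 8 ∧ M ≤ 29) ∨ (i = 9 ∧ M ≤ 33) ∨
      (i = 10 ∧ M ≤ 36) ∨ (i = 11 ∧ M ≤ 40)) :
    Goal i M A (M + (1 + w * (M + i)) ^ 2) := by
  rcases Nat.lt_or_ge A (M + 32) with hAM | hAM
  · obtain ⟨m, hm⟩ := exists_m hM hA (by omega : A ≤ M + 31) hfin
    unfold chk at hm
    rw [Bool.and_eq_true, Bool.or_eq_true] at hm
    obtain ⟨hB, hC⟩ := hm
    rcases le_or_gt ((m : ℝ) / (20 * (M + i))) w with hw1 | hw1
    · exact B_sound hM hA hi hs hB hw1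
    · exfalso
      rcases hC with hC | hC
      · obtain rfl : m = 0 := Nat.eq_of_beq_eq_true hC
        simp at hw1
        linarith
      · exact C_sound hM hi hw heta hc hC hw1
  · rw [goal_iff hA]
    have h1 := large hM hAM hfin
    have h2 : (cL i A : ℝ) * M ≤ cR i A := by exact_mod_cast h1
    refine X_mono (X' := (M : ℝ) + 1) ?_ ?_
    · have : 0 ≤ w * ((M : ℝ) + i) := by positivity
      nlinarith
    · have h3 : (0 : ℝ) ≤ (M : ℝ) + 1 := by positivity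
      have := mul_le_mul_of_nonneg_right h2 h3
      linarith

end RR722.S1n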