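import Mathlib
import Pool.Agent.Helper722.RR.GoalDef
set_option autoImplicit false
namespace RR722.S2n

private theorem p7_exists (i M A : ℕ) (w : ℝ) (hw : 0 < w)
    (hc : (34/25 : ℝ) ^ i * ((M + i - 1).choose i : ℝ) < (1 + i * w) * ((A + i).choose i : ℝ)) :
    ∃ j : ℕ, j < i ∧ (34/25 : ℝ) * (M + j) < (1 + w) * (A + 1 + j) := by
  by_contra hcon
  push Not at hcon
  have hfac : (0 : ℝ) < (i.factorial : ℝ) := by exact_mod_cast i.factorial_pos
  have h1 : ((i.factorial : ℝ)) * ((M + i - 1).choose i : ℝ) = ∏ j ∈ Finset.range i, ((M : ℝ) + j) := by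
    have := Nat.ascFactorial_eq_factorial_mul_choose' M i
    rw [Nat.ascFactorial_eq_prod_range] at this
    exact_mod_cast this.symm
  have h2 : ((i.factorial : ℝ)) * ((A + i).choose i : ℝ) = ∏ j ∈ Finset.range i, ((A : ℝ) + 1 + j) := by
    have := Nat.ascFactorial_eq_factorial_mul_choose A i
    rw [Nat.ascFactorial_eq_prod_range] at this
    exact_mod_cast this.symm
  have h3 : ∏ j ∈ Finset.range i, ((1 + w) * ((A : ℝ) + 1 + j)) ≤
      ∏ j ∈ Finset.range i, ((34/25 : ℝ) * ((M : ℝ) + j)) := by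
    apply Finset.prod_le_prod
    · intro j _
      positivity
    · intro j hj
      exact hcon j (Finset.mem_range.mp hj)
  rw [Finset.prod_mul_distrib, Finset.prod_mul_distrib, Finset.prod_const, Finset.prod_const,
    Finset.card_range, ← h1, ← h2] at h3
  have h4 : 1 + (i : ℝ) * w ≤ (1 + w) ^ i := one_add_mul_le_pow (by linarith) i
  have h5 : (1 + (i : ℝ) * w) * ((i.factorial : ℝ) * ((A + i).choose i : ℝ)) ≤
      (1 + w) ^ i * ((i.factorial : ℝ) * ((A + i).choose i : ℝ)) :=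
    mul_le_mul_of_nonneg_right h4 (by positivity)
  have h6 : (i.factorial : ℝ) * ((34/25 : ℝ) ^ i * ((M + i - 1).choose i : ℝ)) <
      (i.factorial : ℝ) * ((1 + i * w) * ((A + i).choose i : ℝ)) :=
    mul_lt_mul_of_pos_left hc hfac
  nlinarith

/-- shape of the Goal for `i ≥ 3` -/
private theorem p7_shape (n1 n0 d2 d1 m a X w L c : ℝ) (hn1 : 0 ≤ n1) (hn0 : 0 ≤ n0)
    (hd2 : 0 ≤ d2) (hm : 0 ≤ m) (ha : 0 < c) (hac : c ≤ a) (hw : 0 < w) (hd1 : d1 ≤ d2 * c)
    (h : (w ≤ 2/5 ∧ (34/25 : ℝ) * m ≤ (1 + w) * (a + 1) ∧ (34/25 : ℝ) * L ≤ (1 + w) * (a + 1) ∧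
        (m + 1) * (1 + 2 * w) ≤ X) ∨ ((1296/10000 : ℝ) * (m * (m + 1)) ≤ X))
    (hk : 0 ≤ 34/25 * d2 - n1)
    (e1 : n0 ≤ c * ((34/25 * d2 - n1) * (34/25 * L - 1) - (34/25 * d1 + n1 + n0)))
    (e2 : 0 ≤ 34/25 * (d2 * c - d1) - (34/25 * d2 - n1) * (34/25 * L))
    (e3 : n1 * c + n0 ≤ 1296/10000 * (c * (d2 * c - d1)))
    (e4 : n1 ≤ 1296/10000 * (2 * d2 * c - d1)) :
    (n1 * a + n0) * (m * (m + 1)) ≤ (a * (d2 * a - d1)) * X := by
  have ha0 : 0 < a := lt_of_lt_of_le ha hac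
  have hden : 0 ≤ d2 * a - d1 := by nlinarith
  have hD : 0 ≤ a * (d2 * a - d1) := mul_nonneg ha0.le hden
  rcases h with ⟨hw2, hm1, hL, hX⟩ | hX
  · have hmm : (n1 * a + n0) * m ≤ a * (d2 * a - d1) * (1 + 2 * w) := by
      have q1 : (34/25 : ℝ) * ((n1 * a + n0) * m) ≤ (n1 * a + n0) * ((1 + w) * (a + 1)) := by
        have : 0 ≤ n1 * a + n0 := by positivity
        nlinarith [mul_le_mul_of_nonneg_left hm1 this]
      have hbr : (34/25 * d2 - n1) * a * (a - (34/25 * L - 1)) ≤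
          34/25 * (a * (d2 * a - d1)) - (n1 * a + n0) * (a + 1) := by
        have e1' : 0 ≤ (34/25 * d2 - n1) * (34/25 * L - 1) - (34/25 * d1 + n1 + n0) := by
          by_contra hneg
          have hneg := not_le.mp hneg
          have := mul_neg_of_pos_of_neg ha hneg
          linarith
        have e1'' := mul_le_mul_of_nonneg_right hac e1'
        nlinarith
      have q2 : (34/25 * d2 - n1) * a * (-(w * (34/25 * L))) ≤
          (1 + w) * ((34/25 * d2 - n1) * a * (a - (34/25 * L - 1))) := by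
        have h0 : 0 ≤ (34/25 * d2 - n1) * a := mul_nonneg hk ha0.le
        have h1 : -(w * (34/25 * L)) ≤ (1 + w) * (a - (34/25 * L - 1)) := by nlinarith
        nlinarith [mul_le_mul_of_nonneg_left h1 h0]
      have q3 : (1 + w) * ((34/25 * d2 - n1) * a * (a - (34/25 * L - 1))) ≤
          (1 + w) * (34/25 * (a * (d2 * a - d1)) - (n1 * a + n0) * (a + 1)) :=
        mul_le_mul_of_nonneg_left hbr (by linarith)
      have q4 : 0 ≤ w * (a * (34/25 * (d2 * a - d1) - (34/25 * d2 - n1) * (34/25 * L))) := by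
        apply mul_nonneg hw.le
        apply mul_nonneg ha0.le
        nlinarith [mul_le_mul_of_nonneg_left hac hd2]
      nlinarith
    calc (n1 * a + n0) * (m * (m + 1)) = ((n1 * a + n0) * m) * (m + 1) := by ring
      _ ≤ (a * (d2 * a - d1) * (1 + 2 * w)) * (m + 1) :=
          mul_le_mul_of_nonneg_right hmm (by linarith)
      _ = (a * (d2 * a - d1)) * ((m + 1) * (1 + 2 * w)) := by ring
      _ ≤ _ := mul_le_mul_of_nonneg_left hX hD
  · have h1 : n1 * a + n0 ≤ 1296/10000 * (a * (d2 * a - d1)) := by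
      have h2 : 0 ≤ a - c := by linarith
      have h3 : 0 ≤ (a - c) * (1296/10000 * (2 * d2 * c - d1) - n1) :=
        mul_nonneg h2 (by linarith)
      have h4 : 0 ≤ d2 * (a - c) ^ 2 := by positivity
      nlinarith
    have hY : 0 ≤ m * (m + 1) := by positivity
    calc (n1 * a + n0) * (m * (m + 1)) ≤ (1296/10000 * (a * (d2 * a - d1))) * (m * (m + 1)) :=
          mul_le_mul_of_nonneg_right h1 hY
      _ = (a * (d2 * a - d1)) * (1296/10000 * (m * (m + 1))) := by ring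
      _ ≤ _ := mul_le_mul_of_nonneg_left hX hD

private theorem p7_core (i M A : ℕ) (L c : ℝ) (w : ℝ) (hi : 2 ≤ i) (hM : 2 ≤ M) (hA : 1 ≤ A)
    (hw : 0 < w) (hs : (M : ℝ) + (1 + w * (M + i)) ^ 2 < M * (M + 1))
    (hc : (34/25 : ℝ) ^ i * ((M + i - 1).choose i : ℝ) < (1 + i * w) * ((A + i).choose i : ℝ))
    (hL : L ≤ M) (hcL : c ≤ L - 1) (hcL2 : c ≤ 17/25 * (L + i - 1) - i) :
    c ≤ A ∧ ((w ≤ 2/5 ∧ (34/25 : ℝ) * M ≤ (1 + w) * (A + 1) ∧
        (34/25 : ℝ) * L ≤ (1 + w) * (A + 1) ∧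
        ((M : ℝ) + 1) * (1 + 2 * w) ≤ (M + (1 + w * (M + i)) ^ 2)) ∨
      ((1296/10000 : ℝ) * ((M : ℝ) * (M + 1)) ≤ (M + (1 + w * (M + i)) ^ 2))) := by
  obtain ⟨j, hj, hjl⟩ := p7_exists i M A w hw hc
  have hM0 : (2 : ℝ) ≤ (M : ℝ) := by exact_mod_cast hM
  have hi0 : (2 : ℝ) ≤ (i : ℝ) := by exact_mod_cast hi
  have hj0 : (0 : ℝ) ≤ (j : ℝ) := Nat.cast_nonneg j
  have hji : (j : ℝ) + 1 ≤ (i : ℝ) := by exact_mod_cast hj
  have hw1 : w < 1 := by
    by_contra hge
    have hge := not_lt.mp hge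
    have : (M : ℝ) + i ≤ w * (M + i) := by nlinarith
    nlinarith
  have hX1 : ((M : ℝ) + 1) * (1 + 2 * w) ≤ (M + (1 + w * (M + i)) ^ 2) := by
    nlinarith [sq_nonneg (w * ((M : ℝ) + i)), mul_nonneg hw.le (by linarith : (0:ℝ) ≤ (i : ℝ) - 1)]
  have hX2 : 9/25 ≤ w → (1296/10000 : ℝ) * ((M : ℝ) * (M + 1)) ≤ (M + (1 + w * (M + i)) ^ 2) := by
    intro hwl
    have h1 : 9/25 * (M : ℝ) ≤ 1 + w * (M + i) := by nlinarith
    have h2 : (9/25 * (M : ℝ)) ^ 2 ≤ (1 + w * (M + i)) ^ 2 :=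
      pow_le_pow_left₀ (by positivity) h1 2
    nlinarith
  rcases Nat.lt_or_ge (A + 1) M with hAM | hAM
  · have hAM' : (A : ℝ) + 1 < (M : ℝ) := by exact_mod_cast hAM
    have hw36 : 9/25 < w := by
      by_contra hle
      have hle := not_lt.mp hle
      have : (1 + w) * ((A : ℝ) + 1 + j) ≤ (34/25 : ℝ) * (M + j) := by
        apply mul_le_mul <;> nlinarith
      linarith
    have hbig : (34/25 : ℝ) * (M + i - 1) < (1 + w) * (A + i) := by
      have : (34/25 : ℝ) * ((i : ℝ) - 1 - j) ≤ (1 + w) * ((i : ℝ) - 1 - j) :=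
        mul_le_mul_of_nonneg_right (by linarith) (by linarith)
      nlinarith
    have hAi : 17/25 * ((M : ℝ) + i - 1) ≤ A + i := by
      have h0 : (0 : ℝ) ≤ (A : ℝ) := Nat.cast_nonneg A
      nlinarith
    refine ⟨by linarith, Or.inr (hX2 hw36.le)⟩
  · have hAM' : (M : ℝ) ≤ (A : ℝ) + 1 := by exact_mod_cast hAM
    have hEM : (34/25 : ℝ) * M < (1 + w) * (A + 1) := by
      rcases le_or_gt (1 + w) (34/25 : ℝ) with h | h
      · nlinarith [mul_le_mul_of_nonneg_right h hj0]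
      · nlinarith
    refine ⟨by linarith, ?_⟩
    rcases le_or_gt w (2/5) with h | h
    · left
      refine ⟨h, hEM.le, ?_, hX1⟩
      nlinarith
    · right
      exact hX2 (by linarith)

theorem P7_large (i M A : ℕ) (w : ℝ) (hi : 2 ≤ i) (hM : 2 ≤ M) (hA : 1 ≤ A) (hw : 0 < w)
    (hs : (M : ℝ) + (1 + w * (M + i)) ^ 2 < M * (M + 1))
    (hc : min ((109/100 : ℝ) ^ (M - 1)) ((34/25 : ℝ) ^ i) * ((M + i - 1).choose i : ℝ) <
      (1 + i * w) * ((A + i).choose i : ℝ))
    (hlarge : (i = 2 ∧ 38 ≤ M) ∨ (i = 3 ∧ 90 ≤ M) ∨ (i = 4 ∧ 47 ≤ M) ∨ (i = 5 ∧ 32 ≤ M) ∨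
      (i = 6 ∧ 32 ≤ M) ∨ (i = 7 ∧ 28 ≤ M) ∨ (i = 8 ∧ 30 ≤ M) ∨ (i = 9 ∧ 34 ≤ M) ∨
      (i = 10 ∧ 37 ≤ M) ∨ (i = 11 ∧ 41 ≤ M)) :
    Goal i M A (M + (1 + w * (M + i)) ^ 2) := by
  have hmin : ∀ k : ℕ, k ≤ M - 1 → (34/25 : ℝ) ^ i ≤ (109/100 : ℝ) ^ k →
      (34/25 : ℝ) ^ i * ((M + i - 1).choose i : ℝ) < (1 + i * w) * ((A + i).choose i : ℝ) := by
    intro k hk hle
    have h1 : (109/100 : ℝ) ^ k ≤ (109/100 : ℝ) ^ (M - 1) := pow_le_pow_right₀ (by norm_num) hk
    rw [min_eq_right (hle.trans h1)] at hc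
    exact hc
  have hA0 : (1 : ℝ) ≤ (A : ℝ) := by exact_mod_cast hA
  have hMr : (0 : ℝ) ≤ (M : ℝ) := Nat.cast_nonneg M
  rcases hlarge with ⟨rfl, hl⟩ | ⟨rfl, hl⟩ | ⟨rfl, hl⟩ | ⟨rfl, hl⟩ | ⟨rfl, hl⟩ | ⟨rfl, hl⟩ |
    ⟨rfl, hl⟩ | ⟨rfl, hl⟩ | ⟨rfl, hl⟩ | ⟨rfl, hl⟩
  · -- i = 2
    obtain ⟨hcA, h⟩ := p7_core 2 M A 38 24 w hi hM hA hw hs (hmin 37 (by omega) (by norm_num))
      (by exact_mod_cast hl) (by norm_num) (by norm_num)
    simp only [Goal, if_true]
    set X : ℝ := (M : ℝ) + (1 + w * (M + (2 : ℕ))) ^ 2 with hX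
    rcases h with ⟨hw2, hm1, hL, hX1⟩ | hX1
    · have hmm : 4 * (M : ℝ) ≤ 3 * A * (1 + 2 * w) := by nlinarith
      calc 4 * ((M : ℝ) * (M + 1)) = (4 * (M : ℝ)) * (M + 1) := by ring
        _ ≤ (3 * A * (1 + 2 * w)) * (M + 1) := mul_le_mul_of_nonneg_right hmm (by linarith)
        _ = 3 * A * (((M : ℝ) + 1) * (1 + 2 * w)) := by ring
        _ ≤ _ := mul_le_mul_of_nonneg_left hX1 (by positivity)
    · have hY : 0 ≤ (M : ℝ) * (M + 1) := by positivity
      calc 4 * ((M : ℝ) * (M + 1)) ≤ (3 * A * (1296/10000)) * ((M : ℝ) * (M + 1)) :=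
            mul_le_mul_of_nonneg_right (by linarith) hY
        _ = 3 * A * (1296/10000 * ((M : ℝ) * (M + 1))) := by ring
        _ ≤ _ := mul_le_mul_of_nonneg_left hX1 (by positivity)
  · obtain ⟨hcA, h⟩ := p7_core 3 M A 90 59 w hi hM hA hw hs (hmin 89 (by omega) (by norm_num))
      (by exact_mod_cast hl) (by norm_num) (by norm_num)
    have := p7_shape 40 36 30 15 M A _ w 90 59 (by norm_num) (by norm_num) (by norm_num) hMr
      (by norm_num) hcA hw (by norm_num) h (by norm_num) (by norm_num) (by norm_num) (by norm_num)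
      (by norm_num)
    simp only [Goal]
    norm_num at this ⊢
    nlinarith [this]
  · obtain ⟨hcA, h⟩ := p7_core 4 M A 47 30 w hi hM hA hw hs (hmin 46 (by omega) (by norm_num))
      (by exact_mod_cast hl) (by norm_num) (by norm_num)
    have := p7_shape 25 36 20 20 M A _ w 47 30 (by norm_num) (by norm_num) (by norm_num) hMr
      (by norm_num) hcA hw (by norm_num) h (by norm_num) (by norm_num) (by norm_num) (by norm_num)
      (by norm_num)
    simp only [Goal]
    norm_num at this ⊢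
    nlinarith [this]
  · obtain ⟨hcA, h⟩ := p7_core 5 M A 32 19 w hi hM hA hw hs (hmin 31 (by omega) (by norm_num))
      (by exact_mod_cast hl) (by norm_num) (by norm_num)
    have := p7_shape 6 15 5 5 M A _ w 32 19 (by norm_num) (by norm_num) (by norm_num) hMr
      (by norm_num) hcA hw (by norm_num) h (by norm_num) (by norm_num) (by norm_num) (by norm_num)
      (by norm_num)
    simp only [Goal]
    norm_num at this ⊢
    nlinarith [this]
  · obtain ⟨hcA, h⟩ := p7_core 6 M A 32 19 w hi hM hA hw hs (hmin 31 (by omega) (by norm_num))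
      (by exact_mod_cast hl) (by norm_num) (by norm_num)
    have := p7_shape 7 24 6 6 M A _ w 32 19 (by norm_num) (by norm_num) (by norm_num) hMr
      (by norm_num) hcA hw (by norm_num) h (by norm_num) (by norm_num) (by norm_num) (by norm_num)
      (by norm_num)
    simp only [Goal]
    norm_num at this ⊢
    nlinarith [this]
  · obtain ⟨hcA, h⟩ := p7_core 7 M A 28 16 w hi hM hA hw hs (hmin 27 (by omega) (by norm_num))
      (by exact_mod_cast hl) (by norm_num) (by norm_num)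
    have := p7_shape 8 28 7 7 M A _ w 28 16 (by norm_num) (by norm_num) (by norm_num) hMr
      (by norm_num) hcA hw (by norm_num) h (by norm_num) (by norm_num) (by norm_num) (by norm_num)
      (by norm_num)
    simp only [Goal]
    norm_num at this ⊢
    nlinarith [this]
  · obtain ⟨hcA, h⟩ := p7_core 8 M A 30 17 w hi hM hA hw hs (hmin 29 (by omega) (by norm_num))
      (by exact_mod_cast hl) (by norm_num) (by norm_num)
    have := p7_shape 9 32 8 8 M A _ w 30 17 (by norm_num) (by norm_num) (by norm_num) hMr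
      (by norm_num) hcA hw (by norm_num) h (by norm_num) (by norm_num) (by norm_num) (by norm_num)
      (by norm_num)
    simp only [Goal]
    norm_num at this ⊢
    nlinarith [this]
  · obtain ⟨hcA, h⟩ := p7_core 9 M A 34 19 w hi hM hA hw hs (hmin 33 (by omega) (by norm_num))
      (by exact_mod_cast hl) (by norm_num) (by norm_num)
    have := p7_shape 10 36 9 9 M A _ w 34 19 (by norm_num) (by norm_num) (by norm_num) hMr
      (by norm_num) hcA hw (by norm_num) h (by norm_num) (by norm_num) (by norm_num) (by norm_num)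
      (by norm_num)
    simp only [Goal]
    norm_num at this ⊢
    nlinarith [this]
  · obtain ⟨hcA, h⟩ := p7_core 10 M A 37 21 w hi hM hA hw hs (hmin 36 (by omega) (by norm_num))
      (by exact_mod_cast hl) (by norm_num) (by norm_num)
    have := p7_shape 11 40 10 10 M A _ w 37 21 (by norm_num) (by norm_num) (by norm_num) hMr
      (by norm_num) hcA hw (by norm_num) h (by norm_num) (by norm_num) (by norm_num) (by norm_num)
      (by norm_num)
    simp only [Goal]
    norm_num at this ⊢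
    nlinarith [this]
  · obtain ⟨hcA, h⟩ := p7_core 11 M A 41 23 w hi hM hA hw hs (hmin 40 (by omega) (by norm_num))
      (by exact_mod_cast hl) (by norm_num) (by norm_num)
    have := p7_shape 12 44 11 11 M A _ w 41 23 (by norm_num) (by norm_num) (by norm_num) hMr
      (by norm_num) hcA hw (by norm_num) h (by norm_num) (by norm_num) (by norm_num) (by norm_num)
      (by norm_num)
    simp only [Goal]
    norm_num at this ⊢
    nlinarith [this]

end RR722.S2n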