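import Mathlib
import Pool.Agent.Helper722.RR.GoalDef
import Pool.Agent.Helper722.RR.S1
import Pool.Agent.Helper722.RR.S2
import Pool.Agent.Helper722.RR.DR
import Pool.Agent.Helper722.RR.AN2
import Pool.Agent.Helper722.RR.AN3
set_option autoImplicit false
namespace RR722

theorem P7_big
    (AN1 : ∀ (i M D b a : ℝ) (_hi : 12 ≤ i) (_hM : 6 ≤ M) (_hD : 0 ≤ D) (_hb : 0 < b)
      (_ha : a = 1 + b * i / M)
      (_h1 : M * (a - b) ≤ (b + D) * a)
      (_h2 : 861/10000 * M * (M - 1) ≤ i * (b + D) ∨ 307/1000 * M ≤ b + D),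
      (1 + 1 / i + 4 / (M - 1 + D)) * (M * (M + 1)) ≤ (M - 2 + D) * (M + (a + b) ^ 2))
    (i M A : ℕ) (w : ℝ) (hi : 12 ≤ i) (hM : 2 ≤ M) (hA : 1 ≤ A) (hw : 0 < w)
    (hs : (M : ℝ) + (1 + w * (M + i)) ^ 2 < M * (M + 1))
    (heta : ((M + i - 1).choose i : ℝ) * (1 + i * w) ^ (i - 1) < (M * w) ^ i * ((A + i).choose i : ℝ))
    (hc : min ((109/100 : ℝ) ^ (M - 1)) ((34/25 : ℝ) ^ i) * ((M + i - 1).choose i : ℝ) <
      (1 + i * w) * ((A + i).choose i : ℝ)) :
    Goal i M A (M + (1 + w * (M + i)) ^ 2) := by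
  unfold Goal
  rw [if_neg (by omega), if_neg (by omega), if_neg (by omega), if_neg (by omega)]
  rcases Nat.lt_or_ge M 6 with h6 | h6
  · exact AN3n.AN3 i M A w hi hM (by omega) hA hw hs heta
  · rcases Nat.lt_or_ge A (M - 1) with h7 | h7
    · exact AN2n.AN2 i M A w hi h6 hA (by omega) hw hs hc
    · obtain ⟨D, rfl⟩ : ∃ D, A = M - 1 + D := ⟨A - (M - 1), by omega⟩
      obtain ⟨d1, d2⟩ := DRn.DR i M D w (by omega) hM hw heta hc
      have hMR : (6 : ℝ) ≤ M := by exact_mod_cast h6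
      have hiR : (12 : ℝ) ≤ i := by exact_mod_cast hi
      have hM0 : (0 : ℝ) < M := by linarith
      have hi0 : (0 : ℝ) < i := by linarith
      have hD0 : (0 : ℝ) ≤ D := Nat.cast_nonneg D
      have hAe : ((M - 1 + D : ℕ) : ℝ) = (M : ℝ) - 1 + D := by
        push_cast [Nat.cast_sub (show 1 ≤ M by omega)]; ring
      have hmain := AN1 i M D (M * w) (1 + i * w) hiR hMR hD0 (by positivity)
        (by field_simp) (by linarith) (by
          rcases d2 with h | h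
          · left; linarith
          · right; linarith)
      have e1 : (1 + (i : ℝ) * w + M * w) = 1 + w * (M + i) := by ring
      rw [e1] at hmain
      rw [hAe]
      have hA0 : (0 : ℝ) < (M : ℝ) - 1 + D := by linarith
      have h8 := mul_le_mul_of_nonneg_left hmain (show (0 : ℝ) ≤ i * ((M : ℝ) - 1 + D) by positivity)
      have e2 : (i : ℝ) * ((M : ℝ) - 1 + D) *
          ((1 + 1 / (i : ℝ) + 4 / ((M : ℝ) - 1 + D)) * ((M : ℝ) * (M + 1))) =
          (i * ((M : ℝ) - 1 + D) + ((M : ℝ) - 1 + D) + 4 * i) * ((M : ℝ) * (M + 1)) := by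
        field_simp
      rw [e2] at h8
      linarith

theorem P7
    (AN1 : ∀ (i M D b a : ℝ) (_hi : 12 ≤ i) (_hM : 6 ≤ M) (_hD : 0 ≤ D) (_hb : 0 < b)
      (_ha : a = 1 + b * i / M)
      (_h1 : M * (a - b) ≤ (b + D) * a)
      (_h2 : 861/10000 * M * (M - 1) ≤ i * (b + D) ∨ 307/1000 * M ≤ b + D),
      (1 + 1 / i + 4 / (M - 1 + D)) * (M * (M + 1)) ≤ (M - 2 + D) * (M + (a + b) ^ 2))
    (i M A : ℕ) (w : ℝ) (hi : 2 ≤ i) (hM : 2 ≤ M) (hA : 1 ≤ A) (hw : 0 < w)
    (hs : (M : ℝ) + (1 + w * (M + i)) ^ 2 < M * (M + 1))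
    (heta : ((M + i - 1).choose i : ℝ) * (1 + i * w) ^ (i - 1) < (M * w) ^ i * ((A + i).choose i : ℝ))
    (hc : min ((109/100 : ℝ) ^ (M - 1)) ((34/25 : ℝ) ^ i) * ((M + i - 1).choose i : ℝ) <
      (1 + i * w) * ((A + i).choose i : ℝ)) :
    Goal i M A (M + (1 + w * (M + i)) ^ 2) := by
  rcases Nat.lt_or_ge i 12 with h | h
  · have hcase : ((i = 2 ∧ M ≤ 37) ∨ (i = 3 ∧ M ≤ 89) ∨ (i = 4 ∧ M ≤ 46) ∨ (i = 5 ∧ M ≤ 31) ∨
      (i = 6 ∧ M ≤ 31) ∨ (i = 7 ∧ M ≤ 27) ∨ (i = 8 ∧ M ≤ 29) ∨ (i = 9 ∧ M ≤ 33) ∨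
      (i = 10 ∧ M ≤ 36) ∨ (i = 11 ∧ M ≤ 40)) ∨
      ((i = 2 ∧ 38 ≤ M) ∨ (i = 3 ∧ 90 ≤ M) ∨ (i = 4 ∧ 47 ≤ M) ∨ (i = 5 ∧ 32 ≤ M) ∨
      (i = 6 ∧ 32 ≤ M) ∨ (i = 7 ∧ 28 ≤ M) ∨ (i = 8 ∧ 30 ≤ M) ∨ (i = 9 ∧ 34 ≤ M) ∨
      (i = 10 ∧ 37 ≤ M) ∨ (i = 11 ∧ 41 ≤ M)) := by
      clear heta hc hs
      interval_cases i
      · rcases Nat.lt_or_ge M 38 with h' | h'
        · exact Or.inl (by simp; omega)
        · exact Or.inr (by simp; omega)
      · rcases Nat.lt_or_ge M 90 with h' | h'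
        · exact Or.inl (by simp; omega)
        · exact Or.inr (by simp; omega)
      · rcases Nat.lt_or_ge M 47 with h' | h'
        · exact Or.inl (by simp; omega)
        · exact Or.inr (by simp; omega)
      · rcases Nat.lt_or_ge M 32 with h' | h'
        · exact Or.inl (by simp; omega)
        · exact Or.inr (by simp; omega)
      · rcases Nat.lt_or_ge M 32 with h' | h'
        · exact Or.inl (by simp; omega)
        · exact Or.inr (by simp; omega)
      · rcases Nat.lt_or_ge M 28 with h' | h'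
        · exact Or.inl (by simp; omega)
        · exact Or.inr (by simp; omega)
      · rcases Nat.lt_or_ge M 30 with h' | h'
        · exact Or.inl (by simp; omega)
        · exact Or.inr (by simp; omega)
      · rcases Nat.lt_or_ge M 34 with h' | h'
        · exact Or.inl (by simp; omega)
        · exact Or.inr (by simp; omega)
      · rcases Nat.lt_or_ge M 37 with h' | h'
        · exact Or.inl (by simp; omega)
        · exact Or.inr (by simp; omega)
      · rcases Nat.lt_or_ge M 41 with h' | h'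
        · exact Or.inl (by simp; omega)
        · exact Or.inr (by simp; omega)
    rcases hcase with hf | hf
    · exact S1n.P7_fin i M A w hi hM hA hw hs heta hc hf
    · exact S2n.P7_large i M A w hi hM hA hw hs hc hf
  · exact P7_big AN1 i M A w h hM hA hw hs heta hc

end RR722
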